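import Pool.Agent.MP7b039f.Forms3

open KaehlerDifferential

noncomputable section

namespace Pool.Agent.MP7b039f

section char2

variable {K B : Type} [CommRing K] [CommRing B] [Algebra K B]

/-- the cross product. -/
def cr (K : Type) {B : Type} [CommRing K] [CommRing B] [Algebra K B]
    (w : Fin 3 → B) (j k : Fin 3) : Ω[B⁄K] := w j • D K B (w k) + w k • D K B (w j)

theorem two_smul_zero (h2 : (2 : B) = 0) {N : Type*} [AddCommGroup N] [Module B N] (x : N) :
    x + x = 0 := by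
  rw [← two_smul B, h2, zero_smul]

theorem cr_comm (w : Fin 3 → B) (j k : Fin 3) : cr K w j k = cr K w k j := by
  rw [cr, cr, add_comm]

theorem cr_scale (h2 : (2 : B) = 0) {w w' : Fin 3 → B} {v : B} (h : ∀ j, w j = v * w' j)
    (j k : Fin 3) : cr K w j k = v ^ 2 • cr K w' j k := by
  simp only [cr, h, Derivation.leibniz, smul_add]
  have := two_smul_zero h2 ((v * w' j * w' k) • D K B v)
  linear_combination (norm := module) this

theorem cr_norm (h2 : (2 : B) = 0) {σ : Equiv.Perm (Fin 3)} {a w : Fin 3 → B}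
    (a0 : a (σ 0) = 1) (w1 : w (σ 1) = 1) (w0 : w (σ 0) = a (σ 1) ^ 2 + a (σ 2) ^ 2 * w (σ 2))
    {i j k : Fin 3} (hij : i ≠ j) (hjk : j ≠ k) (hik : i ≠ k) :
    cr K w (σ j) (σ k) = a (σ i) ^ 2 • D K B (w (σ 2)) := by
  have hsq : ∀ x : B, D K B (x ^ 2) = 0 := by
    intro x
    rw [Derivation.leibniz_pow]
    simp only [Nat.add_one_sub_one, pow_one]
    rw [← Nat.cast_smul_eq_nsmul B]
    simp [h2]
  have hw1 : D K B (w (σ 1)) = 0 := by rw [w1]; exact Derivation.map_one_eq_zero _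
  have hw0 : D K B (w (σ 0)) = a (σ 2) ^ 2 • D K B (w (σ 2)) := by
    rw [w0, map_add, Derivation.leibniz, hsq, hsq, smul_zero, add_zero, zero_add]
  have key1 : cr K w (σ 1) (σ 2) = a (σ 0) ^ 2 • D K B (w (σ 2)) := by
    rw [cr, hw1, w1, a0]; simp
  have key2 : cr K w (σ 0) (σ 2) = a (σ 1) ^ 2 • D K B (w (σ 2)) := by
    rw [cr, hw0, w0]
    have := two_smul_zero h2 ((a (σ 2) ^ 2 * w (σ 2)) • D K B (w (σ 2)))
    linear_combination (norm := module) this
  have key3 : cr K w (σ 0) (σ 1) = a (σ 2) ^ 2 • D K B (w (σ 2)) := by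
    rw [cr, hw0, hw1, w1]; simp
  fin_cases i <;> fin_cases j <;> fin_cases k <;>
    first
    | exact absurd rfl hij
    | exact absurd rfl hjk
    | exact absurd rfl hik
    | exact key1
    | exact key2
    | exact key3
    | (rw [cr_comm]; exact key1)
    | (rw [cr_comm]; exact key2)
    | (rw [cr_comm]; exact key3)

/-- the 2-form. -/
def om (K : Type) {B : Type} [CommRing K] [CommRing B] [Algebra K B]
    (a : Fin 3 → B) (i j k : Fin 3) : ExteriorAlgebra B (Ω[B⁄K]) :=
  a i • (ExteriorAlgebra.ι B (D K B (a j)) * ExteriorAlgebra.ι B (D K B (a k))) +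
  a j • (ExteriorAlgebra.ι B (D K B (a k)) * ExteriorAlgebra.ι B (D K B (a i))) +
  a k • (ExteriorAlgebra.ι B (D K B (a i)) * ExteriorAlgebra.ι B (D K B (a j)))

theorem ι_anti (x y : Ω[B⁄K]) :
    ExteriorAlgebra.ι B y * ExteriorAlgebra.ι B x =
      - (ExteriorAlgebra.ι B x * ExteriorAlgebra.ι B y) := by
  have := ExteriorAlgebra.ι_add_mul_swap (R := B) x y
  rw [eq_neg_iff_add_eq_zero, add_comm]
  exact this

theorem om_scale {a a' : Fin 3 → B} {u : B} (h : ∀ j, a j = u * a' j)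
    (i j k : Fin 3) : om K a i j k = u ^ 3 • om K a' i j k := by
  simp only [om, h, Derivation.leibniz, map_add, map_smul, mul_add, add_mul, smul_add,
    smul_mul_assoc, mul_smul_comm, smul_smul, ExteriorAlgebra.ι_sq_zero, smul_zero, add_zero]
  rw [ι_anti (D K B (a' i)) (D K B u), ι_anti (D K B (a' j)) (D K B u),
    ι_anti (D K B (a' k)) (D K B u)]
  simp only [smul_neg]
  module

theorem om_swap (h2 : (2 : B) = 0) (a : Fin 3 → B) (i j k : Fin 3) :
    om K a i j k = om K a j i k := by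
  simp only [om]
  rw [ι_anti (D K B (a i)) (D K B (a j)), ι_anti (D K B (a i)) (D K B (a k)),
    ι_anti (D K B (a j)) (D K B (a k))]
  set p := ExteriorAlgebra.ι B (D K B (a i)) * ExteriorAlgebra.ι B (D K B (a j))
  set q := ExteriorAlgebra.ι B (D K B (a i)) * ExteriorAlgebra.ι B (D K B (a k))
  set r := ExteriorAlgebra.ι B (D K B (a j)) * ExteriorAlgebra.ι B (D K B (a k))
  have e1 := two_smul_zero h2 (a i • r)
  have e2 := two_smul_zero h2 (a j • q)
  have e3 := two_smul_zero h2 (a k • p)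
  linear_combination (norm := module) e1 - e2 + e3

theorem om_rot (a : Fin 3 → B) (i j k : Fin 3) :
    om K a i j k = om K a j k i := by
  simp only [om]
  abel

theorem om_perm (h2 : (2 : B) = 0) (a : Fin 3 → B) (σ : Equiv.Perm (Fin 3)) :
    om K a (σ 0) (σ 1) (σ 2) = om K a 0 1 2 := by
  have h01 : σ 0 ≠ σ 1 := fun h => absurd (σ.injective h) (by decide)
  have h02 : σ 0 ≠ σ 2 := fun h => absurd (σ.injective h) (by decide)
  have h12 : σ 1 ≠ σ 2 := fun h => absurd (σ.injective h) (by decide)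
  generalize σ 0 = i at *
  generalize σ 1 = j at *
  generalize σ 2 = k at *
  fin_cases i <;> fin_cases j <;> fin_cases k <;>
    first
    | exact absurd rfl h01
    | exact absurd rfl h02
    | exact absurd rfl h12
    | rfl
    | exact om_swap h2 a 1 0 2
    | exact (om_rot a _ _ _)
    | exact (om_rot a _ _ _).trans (om_rot a _ _ _)
    | exact (om_rot a _ _ _).trans (om_swap h2 a _ _ _)
    | exact (om_rot a _ _ _).trans ((om_rot a _ _ _).trans (om_swap h2 a _ _ _))

theorem om_norm {a : Fin 3 → B} (i j k : Fin 3) (a0 : a i = 1) :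
    om K a i j k = ExteriorAlgebra.ι B (D K B (a j)) * ExteriorAlgebra.ι B (D K B (a k)) := by
  have h : D K B (a i) = 0 := by rw [a0]; exact Derivation.map_one_eq_zero _
  rw [om, h, a0]
  simp

theorem wedge_eq (h2 : (2 : B) = 0) {σ τ : Equiv.Perm (Fin 3)} {a w a' w' : Fin 3 → B} {u v : B}
    (a0 : a (σ 0) = 1) (w1 : w (σ 1) = 1) (w0 : w (σ 0) = a (σ 1) ^ 2 + a (σ 2) ^ 2 * w (σ 2))
    (a0' : a' (τ 0) = 1) (w1' : w' (τ 1) = 1)
    (w0' : w' (τ 0) = a' (τ 1) ^ 2 + a' (τ 2) ^ 2 * w' (τ 2))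
    (ha : ∀ j, a j = u * a' j) (hw : ∀ j, w j = v * w' j) :
    exteriorPower.ιMulti B 3 ![D K B (a (σ 1)), D K B (a (σ 2)), D K B (w (σ 2))] =
      (u * v ^ 2) • exteriorPower.ιMulti B 3
        ![D K B (a' (τ 1)), D K B (a' (τ 2)), D K B (w' (τ 2))] := by
  have hu : a (τ 0) = u := by rw [ha, a0', mul_one]
  have hu1 : u * a' (σ 0) = 1 := by rw [← ha, a0]
  -- the 1-form
  have e1 : u ^ 2 • D K B (w (σ 2)) = v ^ 2 • D K B (w' (τ 2)) := by
    have h1 := cr_norm (K := K) h2 (σ := τ) a0' w1' w0' (i := 0) (j := 1) (k := 2) (by decide)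
      (by decide) (by decide)
    rw [a0', one_pow, one_smul] at h1
    obtain ⟨i, hi⟩ := σ.surjective (τ 0)
    obtain ⟨j, hj⟩ := σ.surjective (τ 1)
    obtain ⟨k, hk⟩ := σ.surjective (τ 2)
    have hij : i ≠ j := by
      rintro rfl
      exact absurd (τ.injective (hi.symm.trans hj)) (by decide)
    have hjk : j ≠ k := by
      rintro rfl
      exact absurd (τ.injective (hj.symm.trans hk)) (by decide)
    have hik : i ≠ k := by
      rintro rfl
      exact absurd (τ.injective (hi.symm.trans hk)) (by decide)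
    have h3 := cr_norm (K := K) h2 a0 w1 w0 hij hjk hik
    rw [hi, hj, hk, hu] at h3
    rw [← h3, ← h1]
    exact cr_scale h2 hw _ _
  have e2 : ExteriorAlgebra.ι B (D K B (a (σ 1))) * ExteriorAlgebra.ι B (D K B (a (σ 2))) =
      u ^ 3 • (ExteriorAlgebra.ι B (D K B (a' (τ 1))) * ExteriorAlgebra.ι B (D K B (a' (τ 2)))) := by
    rw [← om_norm (σ 0) _ _ a0, ← om_norm (τ 0) _ _ a0', om_perm h2, om_perm h2, om_scale ha]
  apply Subtype.ext
  rw [Submodule.coe_smul, exteriorPower.ιMulti_apply_coe, exteriorPower.ιMulti_apply_coe,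
    ExteriorAlgebra.ιMulti_apply, ExteriorAlgebra.ιMulti_apply]
  simp only [List.ofFn_succ, List.ofFn_zero, List.prod_cons, List.prod_nil, mul_one,
    Matrix.cons_val_zero, Matrix.cons_val_succ, ← mul_assoc]
  have e3 : u ^ 2 • ((ExteriorAlgebra.ι B (D K B (a (σ 1))) *
      ExteriorAlgebra.ι B (D K B (a (σ 2)))) * ExteriorAlgebra.ι B (D K B (w (σ 2)))) =
      u ^ 2 • ((u * v ^ 2) • ((ExteriorAlgebra.ι B (D K B (a' (τ 1))) *
      ExteriorAlgebra.ι B (D K B (a' (τ 2)))) * ExteriorAlgebra.ι B (D K B (w' (τ 2))))) := by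
    rw [← mul_smul_comm, ← map_smul, e1, e2, map_smul, mul_smul_comm, smul_mul_assoc, smul_smul,
      smul_smul]
    congr 1
    ring
  have e4 := congrArg (fun z => (a' (σ 0)) ^ 2 • z) e3
  simp only [smul_smul] at e4
  rw [← mul_pow, mul_comm (a' (σ 0)) u, hu1, one_pow, one_smul] at e4
  have e5 : a' (σ 0) ^ 2 * (u ^ 2 * (u * v ^ 2)) = u * v ^ 2 := by
    linear_combination (u * v ^ 2) * (u * a' (σ 0) + 1) * hu1
  rw [e5] at e4
  exact e4

end char2

end Pool.Agent.MP7b039f
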