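import Pool.Agent.MP7b039f.ClosedImm
import Pool.Agent.MP7b039f.Forms4

open CategoryTheory AlgebraicGeometry Limits TopologicalSpace HomogeneousLocalization
  KaehlerDifferential

noncomputable section

namespace Pool.Agent.MP7b039f

attribute [local instance] MvPolynomial.gradedAlgebra

variable (K : Type) [Field K] {ι : Type} (e : ι ≃ Idx)

theorem theta_xx (σ : Equiv.Perm (Fin 3)) (j : Fin 3) :
    theta K σ (xx K (σ.symm j)) = xL K j / xL K (σ 0) := by
  obtain ⟨i, rfl⟩ := σ.surjective j
  rw [Equiv.symm_apply_apply]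
  fin_cases i
  · simp [theta, xx, div_self (xL_ne_zero K _)]
  · simp [theta, xx, cc]
  · simp [theta, xx, cc]

theorem theta_yy [CharP K 2] (σ : Equiv.Perm (Fin 3)) (j : Fin 3) :
    theta K σ (yy K (σ.symm j)) = yL K j / yL K (σ 1) := by
  obtain ⟨i, rfl⟩ := σ.surjective j
  rw [Equiv.symm_apply_apply]
  fin_cases i
  · simp only [Fin.zero_eta, Fin.isValue, y0_div, theta, yy, Matrix.cons_val_zero]
    simp
  · simp [theta, yy, div_self (yL_ne_zero K _)]
  · simp [theta, yy, cc]

/-- the function field embedding of the sections over a nonempty open. -/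
abbrev GV (U : (VV K).Opens) (hU : (U : Set (VV K)).Nonempty) : Sec (fVV K) U →ₐ[K] LL K :=
  GA (MM K) (LL K) (MM_ne_bot K) U hU

theorem exists_chartEquiv [CharP K 2] (i : ι) (σ : Equiv.Perm (Fin 3))
    (h : e i = (σ 0, σ 1, σ 1)) :
    ∃ x : RR K ≃ₐ[K] Sec (fVV K) (chartOf (phi K e) i),
      ∀ hne g, GV K (chartOf (phi K e) i) hne (x g) = theta K σ g := by
  have hU : chartOf (phi K e) i = DD K (σ 0, σ 1, σ 1) := by
    rw [chartOf, phi_chart, h]
  generalize chartOf (phi K e) i = U at *
  subst hU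
  exact ⟨EE K σ, fun _ => GD_EE K σ⟩

theorem chartOf_nonempty (i : ι) : ((chartOf (phi K e) i : (VV K).Opens) : Set (VV K)).Nonempty := by
  rw [chartOf, phi_chart]
  exact DD_nonempty K _

theorem inter_nonempty (U U' : (VV K).Opens) (hU : (U : Set (VV K)).Nonempty)
    (hU' : (U' : Set (VV K)).Nonempty) :
    ((U ⊓ U' : (VV K).Opens) : Set (VV K)).Nonempty :=
  ⟨eta (MM K) (MM_ne_bot K), eta_mem _ _ _ hU, eta_mem _ _ _ hU'⟩

theorem GV_ratioOn (i j : ι) (hne : ((chartOf (phi K e) i : (VV K).Opens) : Set (VV K)).Nonempty) :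
    GV K (chartOf (phi K e) i) hne (ratioOn (fVV K) (phi K e) j i) =
      algebraMap (RR K) (LL K) (mm K (e j)) / algebraMap (RR K) (LL K) (mm K (e i)) := by
  have hne' : (Proj.basicOpen (gr (MM K)) (Phi K e (MvPolynomial.X i)) : Set (VV K)).Nonempty := hne
  have h0 : Phi K e (MvPolynomial.X i) ≠ 0 := by
    rw [Phi_X]; exact XX_ne_zero K _
  have h1 : ratioOn (fVV K) (phi K e) j i =
      Proj.awayToSection (gr (MM K)) (Phi K e (MvPolynomial.X i))
        (Away.map (Phi K e) (MvPolynomial.X i)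
          (Away.mk (MvPolynomial.homogeneousSubmodule ι K) (MvPolynomial.isHomogeneous_X K i) 1
            (MvPolynomial.X j) (MvPolynomial.isHomogeneous_X K j))) := by
    have h2 := ConcreteCategory.congr_hom (Proj.awayToSection_comp_appLE (Phi K e)
      (Phi_irrelevant K e) (MvPolynomial.isHomogeneous_X K i))
      (Away.mk (MvPolynomial.homogeneousSubmodule ι K) (MvPolynomial.isHomogeneous_X K i) 1
            (MvPolynomial.X j) (MvPolynomial.isHomogeneous_X K j))
    refine Eq.trans ?_ h2
    have h3 : (phi K e).appLE (PSpace.chart ι K i) ((phi K e) ⁻¹ᵁ (PSpace.chart ι K i)) le_rfl =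
      (phi K e).app (PSpace.chart ι K i) := Scheme.Hom.appLE_eq_app (phi K e)
    exact (ConcreteCategory.congr_hom h3 (PSpace.ratio ι K j i)).symm
  rw [h1, GV, GA_apply]
  refine (G_awayToSection (MM K) (LL K) (MM_ne_bot K) _ hne' (zero_notMem_powers h0) _).trans ?_
  rw [Away.map_mk]
  refine (homToL_mk (MM K) (LL K) _ _ _).trans ?_
  change algebraMap (RR K) (LL K) (ev1 (MM K) (Phi K e (MvPolynomial.X j))) /
    algebraMap (RR K) (LL K) (ev1 (MM K) (Phi K e (MvPolynomial.X i) ^ 1)) = _
  rw [pow_one, Phi_X, Phi_X, ev1_XX, ev1_XX]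

theorem two_eq_zero_Sec [CharP K 2] (U : (VV K).Opens) : (2 : Sec (fVV K) U) = 0 := by
  have h2 : (2 : K) = 0 := by
    have := CharP.cast_eq_zero K 2
    exact_mod_cast this
  have := congrArg (algebraMap K (Sec (fVV K) U)) h2
  rwa [map_ofNat, map_zero] at this

/-- the generator of the canonical sheaf on the chart `i`. -/
def etaForm [CharP K 2] (i : ι) : FormalForm (Sec (fVV K) (chartOf (phi K e) i)) 3 :=
  open Classical in
  if h : ∃ σ : Equiv.Perm (Fin 3), e i = (σ 0, σ 1, σ 1) then
    [(1, fun j =>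
      (exists_chartEquiv K e i h.choose h.choose_spec).choose (MvPolynomial.X j))]
  else []

theorem etaForm_spec [CharP K 2] (i : ι) (h : ∃ σ : Equiv.Perm (Fin 3), e i = (σ 0, σ 1, σ 1)) :
    ∃ (σ : Equiv.Perm (Fin 3)) (_ : e i = (σ 0, σ 1, σ 1))
      (x : RR K ≃ₐ[K] Sec (fVV K) (chartOf (phi K e) i)),
      (∀ hne g, GV K (chartOf (phi K e) i) hne (x g) = theta K σ g) ∧
      etaForm K e i = [(1, fun j => x (MvPolynomial.X j))] := by
  refine ⟨h.choose, h.choose_spec, (exists_chartEquiv K e i h.choose h.choose_spec).choose,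
    (exists_chartEquiv K e i h.choose h.choose_spec).choose_spec, ?_⟩
  rw [etaForm, dif_pos h]

theorem map_single {A B : Type} [CommRing A] [CommRing B] (g : A → B) (h1 : g 1 = 1)
    (x : Fin 3 → A) :
    FormalForm.push g [((1 : A), x)] = [((1 : B), fun k => g (x k))] := by
  simp only [FormalForm.push, List.map_cons, List.map_nil, h1]
  rfl

theorem eqSMul_single {A : Type} [CommRing A] [Algebra K A] (x y : Fin 3 → A) (r : A)
    (h : (exteriorPower.ιMulti A 3 fun i => D K A (x i) : ⋀[A]^3 (Ω[A⁄K])) =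
      r • exteriorPower.ιMulti A 3 fun i => D K A (y i)) :
    FormalForm.EqSMul K [((1 : A), x)] r [((1 : A), y)] := by
  rw [FormalForm.EqSMul, eval_single, eval_single, h]
  rfl

theorem anticanonical [CharP K 2] : IsAnticanonical (fVV K) 3 (phi K e) := by
  refine ⟨{i | ∃ σ : Equiv.Perm (Fin 3), e i = (σ 0, σ 1, σ 1)}, etaForm K e, ?_, ?_, ?_⟩
  · intro p
    obtain ⟨σ, hσ⟩ := exists_chart K p
    refine ⟨e.symm (σ 0, σ 1, σ 1), ⟨σ, Equiv.apply_symm_apply _ _⟩, ?_⟩
    rw [chartOf, phi_chart, Equiv.apply_symm_apply]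
    exact hσ
  · intro i hi
    obtain ⟨σ, h, x, hx, hη⟩ := etaForm_spec K e i hi
    rw [hη]
    apply vol_generates
    have h1 : (MvPolynomial.aeval (fun j => x (MvPolynomial.X j)) :
        MvPolynomial (Fin 3) K →ₐ[K] _) = x.toAlgHom := by
      apply MvPolynomial.algHom_ext
      intro j
      rw [MvPolynomial.aeval_X]
      rfl
    rw [h1]
    exact x.surjective
  · intro i hi j hj
    obtain ⟨σ, h, x, hx, hη⟩ := etaForm_spec K e i hi
    obtain ⟨τ, h', y, hy, hη'⟩ := etaForm_spec K e j hj
    rw [hη, hη', map_single _ (resL_one (fVV K) _ _), map_single _ (resR_one (fVV K) _ _)]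
    apply eqSMul_single
    have hne := inter_nonempty K _ _ (chartOf_nonempty K e i) (chartOf_nonempty K e j)
    set B := Sec (fVV K) (chartOf (phi K e) i ⊓ chartOf (phi K e) j)
    set ri := Sec.res (fVV K) (inf_le_left :
      chartOf (phi K e) i ⊓ chartOf (phi K e) j ≤ chartOf (phi K e) i) with hri
    set rj := Sec.res (fVV K) (inf_le_right :
      chartOf (phi K e) i ⊓ chartOf (phi K e) j ≤ chartOf (phi K e) j) with hrj
    have hGi : ∀ g, GV K _ hne (ri (x g)) = theta K σ g := fun g => by
      rw [hri, GV, GA_res]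
      exact hx _ g
    have hGj : ∀ g, GV K _ hne (rj (y g)) = theta K τ g := fun g => by
      rw [hrj, GV, GA_res]
      exact hy _ g
    have hinj := GA_injective (MM K) (LL K) (MM_ne_bot K) _ hne
    have hσx := xL_ne_zero K (σ 0)
    have hσy := yL_ne_zero K (σ 1)
    have hτx := xL_ne_zero K (τ 0)
    have hτy := yL_ne_zero K (τ 1)
    have key := wedge_eq (K := K) (B := B) (two_eq_zero_Sec K _) (σ := σ) (τ := τ)
      (a := fun k => ri (x (xx K (σ.symm k)))) (w := fun k => ri (x (yy K (σ.symm k))))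
      (a' := fun k => rj (y (xx K (τ.symm k)))) (w' := fun k => rj (y (yy K (τ.symm k))))
      (u := ri (x (xx K (σ.symm (τ 0))))) (v := ri (x (yy K (σ.symm (τ 1)))))
      (by simp [xx]) (by simp [yy])
      (by simp only [Equiv.symm_apply_apply, ← map_pow, ← map_mul, ← map_add]; rfl)
      (by simp [xx]) (by simp [yy])
      (by simp only [Equiv.symm_apply_apply, ← map_pow, ← map_mul, ← map_add]; rfl)
      (by
        intro k
        apply hinj
        change GV K _ hne _ = GV K _ hne _
        rw [map_mul, hGi, hGi, hGj, theta_xx, theta_xx, theta_xx]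
        field_simp)
      (by
        intro k
        apply hinj
        change GV K _ hne _ = GV K _ hne _
        rw [map_mul, hGi, hGi, hGj, theta_yy, theta_yy, theta_yy]
        field_simp)
    change (exteriorPower.ιMulti B 3 fun k => D K B (ri (x (MvPolynomial.X k)))) =
      ri (ratioOn (fVV K) (phi K e) j i) •
        exteriorPower.ιMulti B 3 fun k => D K B (rj (y (MvPolynomial.X k)))
    have hl : (fun k : Fin 3 => D K B (ri (x (MvPolynomial.X k)))) =
      ![D K B (ri (x (xx K (σ.symm (σ 1))))), D K B (ri (x (xx K (σ.symm (σ 2))))),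
        D K B (ri (x (yy K (σ.symm (σ 2)))))] := by
      funext k
      simp only [Equiv.symm_apply_apply]
      fin_cases k <;> rfl
    have hr : (fun k : Fin 3 => D K B (rj (y (MvPolynomial.X k)))) =
      ![D K B (rj (y (xx K (τ.symm (τ 1))))), D K B (rj (y (xx K (τ.symm (τ 2))))),
        D K B (rj (y (yy K (τ.symm (τ 2)))))] := by
      funext k
      simp only [Equiv.symm_apply_apply]
      fin_cases k <;> rfl
    rw [hl, hr]
    refine key.trans ?_
    congr 1
    apply hinj
    change GV K _ hne _ = GV K _ hne _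
    rw [map_mul, map_pow, hGi, hGi, theta_xx, theta_yy, hri, GV, GA_res]
    refine Eq.trans ?_ (GV_ratioOn K e i j _).symm
    rw [h, h', mm, mm]
    simp only [map_mul]
    change _ = (xL K (τ 0) * yL K (τ 1) * yL K (τ 1)) / (xL K (σ 0) * yL K (σ 1) * yL K (σ 1))
    field_simp

end Pool.Agent.MP7b039f
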