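import Pool.Agent.MP7b039f.Struct

open Polynomial DirectSum CategoryTheory AlgebraicGeometry TopologicalSpace Opposite

noncomputable section

namespace Pool.Agent.MP7b039f

section general
variable {K R : Type} [Field K] [CommRing R] [IsDomain R] [Algebra K R]
variable (M : Submodule K R)
variable (L : Type) [Field L] [Algebra R L] [IsFractionRing R L] [Algebra K L]
  [IsScalarTower K R L]

/-- `G` as a homomorphism of `K`-algebras. -/
def GA (hM : M ≠ ⊥) (U : (PV M).Opens) (hU : (U : Set (PV M)).Nonempty) :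
    Sec (fV M) U →ₐ[K] L where
  toRingHom := G M L hM U hU
  commutes' := G_algebraMap M L hM U hU

theorem GA_apply (hM : M ≠ ⊥) (U : (PV M).Opens) (hU : (U : Set (PV M)).Nonempty)
    (s : Sec (fV M) U) : GA M L hM U hU s = G M L hM U hU s := rfl

theorem GA_injective (hM : M ≠ ⊥) (U : (PV M).Opens) (hU : (U : Set (PV M)).Nonempty) :
    Function.Injective (GA M L hM U hU) := G_injective M L hM U hU

theorem GA_res (hM : M ≠ ⊥) {U U' : (PV M).Opens} (h : U' ≤ U) (hU' : (U' : Set (PV M)).Nonempty)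
    (s : Sec (fV M) U) :
    GA M L hM U' hU' (Sec.res (fV M) h s) = GA M L hM U (hU'.mono h) s := rfl

end general

variable (K : Type) [Field K]

/-- structure morphism of the variety. -/
abbrev fVV : VV K ⟶ Spec (.of K) := fV (MM K)

/-- the basic open `D₊(x_i y_j y_k)`. -/
def DD (i : Idx) : (VV K).Opens := Proj.basicOpen (gr (MM K)) (XX K i)

theorem DD_nonempty (i : Idx) : (DD K i : Set (VV K)).Nonempty :=
  basicOpen_nonempty _ (MM_ne_bot K) (XX_ne_zero K i)

/-- `G` on the chart. -/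
abbrev GD (i : Idx) : Sec (fVV K) (DD K i) →ₐ[K] LL K :=
  GA (MM K) (LL K) (MM_ne_bot K) (DD K i) (DD_nonempty K i)

theorem theta_range_le_SG' (σ : Equiv.Perm (Fin 3)) {d : ℕ} (hd : 0 < d)
    {s : reesSub (MM K)} (hs : s ∈ gr (MM K) d) (hs0 : s ≠ 0)
    {s' : reesSub (MM K)} (hs' : s' ∈ gr (MM K) (d - 1))
    (h : s = XX K (σ 0, σ 1, σ 1) * s') :
    (theta K σ).range ≤ SG K hd hs hs0 := by
  obtain ⟨d, rfl⟩ := Nat.exists_eq_succ_of_ne_zero hd.ne'
  subst h
  exact theta_range_le_SG K σ hs' hs hs0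

theorem GD_range_eq_SG (i : Idx) :
    (GD K i).range = SG K one_pos (XX_mem K i) (XX_ne_zero K i) := rfl

theorem GD_range [CharP K 2] (σ : Equiv.Perm (Fin 3)) :
    (GD K (σ 0, σ 1, σ 1)).range = (theta K σ).range := by
  rw [GD_range_eq_SG]
  apply le_antisymm
  · intro x hx
    rw [mem_SG] at hx
    obtain ⟨n, r, hr, rfl⟩ := hx
    rw [ev1_XX, algebraMap_mmσ]
    rw [mul_one] at hr
    exact MM_pow_div_mem K σ n r hr
  · exact theta_range_le_SG' K σ one_pos _ _ (s' := 1)
      (show (1 : reesSub (MM K)) ∈ gr (MM K) 0 from SetLike.one_mem_graded (gr (MM K))) (mul_one _).symm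

/-- the chart `σ`. -/
def EE [CharP K 2] (σ : Equiv.Perm (Fin 3)) :
    RR K ≃ₐ[K] Sec (fVV K) (DD K (σ 0, σ 1, σ 1)) :=
  (AlgEquiv.ofInjective (theta K σ) (theta_injective K σ)).trans
    ((Subalgebra.equivOfEq _ _ (GD_range K σ).symm).trans
      (AlgEquiv.ofInjective (GD K (σ 0, σ 1, σ 1)) (GA_injective _ _ _ _ _)).symm)

theorem GD_EE [CharP K 2] (σ : Equiv.Perm (Fin 3)) (g : RR K) :
    GD K (σ 0, σ 1, σ 1) (EE K σ g) = theta K σ g := by
  have h := (AlgEquiv.ofInjective (GD K (σ 0, σ 1, σ 1)) (GA_injective _ _ _ _ _)).apply_symm_apply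
    ((Subalgebra.equivOfEq _ _ (GD_range K σ).symm)
      (AlgEquiv.ofInjective (theta K σ) (theta_injective K σ) g))
  exact congrArg Subtype.val h

end Pool.Agent.MP7b039f
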