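import Mathlib

open CategoryTheory AlgebraicGeometry Limits TopologicalSpace

noncomputable section

namespace Pool.Agent.MP7b039f

/-- A space covered by irreducible opens which meet pairwise is irreducible. -/
theorem irreducible_of_cover {X : Type*} [TopologicalSpace X] {ι : Type*} [Nonempty ι]
    (U : ι → Opens X) (hU : ∀ i, IrreducibleSpace (U i)) (hcov : ∀ x, ∃ i, x ∈ U i)
    (hmeet : ∀ i j, ((U i : Set X) ∩ (U j : Set X)).Nonempty) : IrreducibleSpace X := by
  have key : ∀ (i : ι) (A B : Set X), IsOpen A → IsOpen B → (A ∩ U i).Nonempty →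
      (B ∩ U i).Nonempty → (A ∩ B ∩ U i).Nonempty := by
    intro i A B hA hB ⟨a, ha, ha'⟩ ⟨b, hb, hb'⟩
    have h1 := (hU i).isPreirreducible_univ
    obtain ⟨x, -, hx1, hx2⟩ := h1 (Subtype.val ⁻¹' A : Set (U i)) (Subtype.val ⁻¹' B : Set (U i))
      (hA.preimage continuous_subtype_val)
      (hB.preimage continuous_subtype_val) ⟨⟨a, ha'⟩, trivial, ha⟩ ⟨⟨b, hb'⟩, trivial, hb⟩
    exact ⟨x.1, ⟨hx1, hx2⟩, x.2⟩
  have hne : Nonempty X := by
    obtain ⟨i⟩ := ‹Nonempty ι›
    obtain ⟨x, -⟩ := hmeet i i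
    exact ⟨x⟩
  refine { toPreirreducibleSpace := ⟨?_⟩, toNonempty := hne }
  rintro A B hA hB ⟨a, -, ha⟩ ⟨b, -, hb⟩
  obtain ⟨i, hi⟩ := hcov a
  obtain ⟨j, hj⟩ := hcov b
  obtain ⟨x, hx1, hx2⟩ := key i A (U j) hA (U j).isOpen ⟨a, ha, hi⟩
    (by rw [Set.inter_comm]; exact hmeet i j)
  obtain ⟨y, ⟨hy1, hy2⟩, hy3⟩ := key j A B hA hB ⟨x, hx1.1, hx1.2⟩ ⟨b, hb, hj⟩
  exact ⟨y, trivial, hy1, hy2⟩

theorem geomInt_of_cover {V S : Scheme.{0}} [Subsingleton S] (f : V ⟶ S) {ι : Type} [Nonempty ι]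
    (U : ι → V.Opens) (hU : ∀ i, GeometricallyIntegral ((U i).ι ≫ f)) (hcov : ∀ x, ∃ i, x ∈ U i)
    (hmeet : ∀ i j, ((U i : Set V) ∩ (U j : Set V)).Nonempty) : GeometricallyIntegral f := by
  constructor
  intro K' _ y Z fst snd h
  have hpb : ∀ i, IsPullback (fst ∣_ (U i)) ((fst ⁻¹ᵁ (U i)).ι ≫ snd) ((U i).ι ≫ f) y := fun i =>
    (isPullback_morphismRestrict fst (U i)).paste_vert h
  have hint : ∀ i, IsIntegral (fst ⁻¹ᵁ (U i) : Z.Opens) := fun i =>
    (hU i).geometrically_isIntegral y _ _ (hpb i)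
  have hcov' : IsOpenCover fun i => fst ⁻¹ᵁ (U i) := by
    rw [IsOpenCover, eq_top_iff]
    intro z _
    rw [Opens.mem_iSup]
    exact hcov (fst z)
  have hred : IsReduced Z := by
    have : ∀ i, IsReduced ((Z.openCoverOfIsOpenCover _ hcov').X i) := fun i => by
      have := hint i
      exact (inferInstance : IsReduced (fst ⁻¹ᵁ (U i) : Z.Opens))
    exact IsReduced.of_openCover (X := Z) (Z.openCoverOfIsOpenCover _ hcov')
  have hsurj : Surjective fst := by
    have hy : Surjective y := ⟨fun s => ⟨Nonempty.some inferInstance, Subsingleton.elim _ _⟩⟩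
    exact MorphismProperty.of_isPullback h.flip hy
  have hirr : IrreducibleSpace Z := by
    refine irreducible_of_cover (fun i => fst ⁻¹ᵁ (U i)) (fun i => ?_) (fun z => hcov (fst z)) ?_
    · have := hint i
      exact (inferInstance : IrreducibleSpace (fst ⁻¹ᵁ (U i) : Z.Opens))
    · intro i j
      obtain ⟨v, hv1, hv2⟩ := hmeet i j
      obtain ⟨z, rfl⟩ := hsurj.surj v
      exact ⟨z, hv1, hv2⟩
  exact isIntegral_of_irreducibleSpace_of_isReduced Z

theorem geomInt_mvPolynomial (K : Type) [Field K] :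
    GeometricallyIntegral (Spec.map (CommRingCat.ofHom
      (algebraMap K (MvPolynomial (Fin 3) K)))) := by
  constructor
  have : ObjectProperty.IsClosedUnderIsomorphisms AlgebraicGeometry.IsIntegral.{0} :=
    ⟨fun e _ => IsIntegral.of_isIso e.hom⟩
  rw [geometrically_iff_of_commRing_of_isClosedUnderIsomorphisms]
  intro K' _ _
  have e1 := pullbackSpecIso K (MvPolynomial (Fin 3) K) K'
  have e2 : (TensorProduct K (MvPolynomial (Fin 3) K) K') ≃+* MvPolynomial (Fin 3) K' :=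
    (Algebra.TensorProduct.comm K _ _).toRingEquiv.trans
      (MvPolynomial.algebraTensorAlgEquiv K K').toRingEquiv
  have h1 : IsDomain (TensorProduct K (MvPolynomial (Fin 3) K) K') := e2.toMulEquiv.isDomain _
  have h2 : IsIntegral (Spec (.of (TensorProduct K (MvPolynomial (Fin 3) K) K'))) := by
    infer_instance
  exact IsIntegral.of_isIso e1.inv

end Pool.Agent.MP7b039f
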