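import Pool.Agent.MP7b039f.SmoothV
import Pool.Agent.MP7b039f.GeomInt

open CategoryTheory AlgebraicGeometry Limits TopologicalSpace

noncomputable section

namespace Pool.Agent.MP7b039f

variable (K : Type) [Field K]

theorem affDD (i : Idx) : IsAffineOpen (DD K i) :=
  Proj.isAffineOpen_basicOpen (gr (MM K)) (XX K i) (XX_mem K i) one_pos

/-- The structure map as a morphism of rings. -/
def structHom {V : Scheme.{0}} (f : V ⟶ Spec (.of K)) (U : V.Opens) :
    CommRingCat.of K ⟶ Γ(V, U) :=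
  (Scheme.ΓSpecIso (.of K)).inv ≫ f.appLE ⊤ U le_top

theorem fromSpec_comp {V : Scheme.{0}} (f : V ⟶ Spec (.of K)) {U : V.Opens} (hU : IsAffineOpen U) :
    hU.fromSpec ≫ f = Spec.map (structHom K f U) := by
  rw [← IsAffineOpen.SpecMap_appLE_fromSpec f (isAffineOpen_top _) hU le_top,
    IsAffineOpen.fromSpec_top, Scheme.isoSpec_Spec_inv, ← Spec.map_comp]
  rfl

/-- the chart as an isomorphism of rings. -/
def secIso [CharP K 2] (σ : Equiv.Perm (Fin 3)) :
    Γ(VV K, DD K (σ 0, σ 1, σ 1)) ≅ CommRingCat.of (RR K) :=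
  RingEquiv.toCommRingCatIso (R := Γ(VV K, DD K (σ 0, σ 1, σ 1))) (S := RR K)
    (EE K σ).symm.toRingEquiv

/-- The open immersion of the chart. -/
def cmap [CharP K 2] (σ : Equiv.Perm (Fin 3)) : Spec (.of (RR K)) ⟶ VV K :=
  Spec.map (secIso K σ).hom ≫ (affDD K (σ 0, σ 1, σ 1)).fromSpec

instance [CharP K 2] (σ : Equiv.Perm (Fin 3)) : IsOpenImmersion (cmap K σ) := by
  unfold cmap
  infer_instance

theorem structHom_secIso [CharP K 2] (σ : Equiv.Perm (Fin 3)) :
    structHom K (fVV K) _ ≫ (secIso K σ).hom = CommRingCat.ofHom (algebraMap K (RR K)) := by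
  apply CommRingCat.hom_ext
  apply RingHom.ext
  intro x
  exact (EE K σ).symm.commutes x

theorem cmap_fVV [CharP K 2] (σ : Equiv.Perm (Fin 3)) :
    cmap K σ ≫ fVV K = Spec.map (CommRingCat.ofHom (algebraMap K (RR K))) := by
  rw [cmap, Category.assoc, fromSpec_comp, ← Spec.map_comp, structHom_secIso]

theorem range_cmap [CharP K 2] (σ : Equiv.Perm (Fin 3)) :
    (cmap K σ).opensRange = DD K (σ 0, σ 1, σ 1) := by
  rw [← (affDD K (σ 0, σ 1, σ 1)).opensRange_fromSpec]
  exact Scheme.Hom.opensRange_comp_of_isIso _ _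

/-- The chart is the affine space. -/
def chartIso [CharP K 2] (σ : Equiv.Perm (Fin 3)) :
    Spec (.of (RR K)) ≅ (DD K (σ 0, σ 1, σ 1) : (VV K).Opens).toScheme :=
  Scheme.Spec.mapIso (secIso K σ).op ≪≫ (affDD K (σ 0, σ 1, σ 1)).isoSpec.symm

theorem chartIso_hom_ι [CharP K 2] (σ : Equiv.Perm (Fin 3)) :
    (chartIso K σ).hom ≫ (DD K (σ 0, σ 1, σ 1)).ι = cmap K σ := by
  rw [chartIso, Iso.trans_hom, Category.assoc, cmap, Iso.symm_hom, IsAffineOpen.isoSpec_inv_ι]
  rfl

theorem geomInt_fVV [CharP K 2] : GeometricallyIntegral (fVV K) := by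
  refine geomInt_of_cover (fVV K) (fun σ : Equiv.Perm (Fin 3) => DD K (σ 0, σ 1, σ 1))
    (fun σ => ?_) (exists_chart K) (fun σ τ => ?_)
  · have h1 : (chartIso K σ).hom ≫ ((DD K (σ 0, σ 1, σ 1)).ι ≫ fVV K) =
      Spec.map (CommRingCat.ofHom (algebraMap K (RR K))) := by
      rw [← Category.assoc, chartIso_hom_ι, cmap_fVV]
    rw [← MorphismProperty.cancel_left_of_respectsIso @GeometricallyIntegral (chartIso K σ).hom, h1]
    exact geomInt_mvPolynomial K
  · exact ⟨eta (MM K) (MM_ne_bot K), eta_mem _ _ _ (DD_nonempty K _), eta_mem _ _ _ (DD_nonempty K _)⟩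

end Pool.Agent.MP7b039f
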