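import Pool.Agent.MP7b039f.Sections

open Polynomial DirectSum CategoryTheory AlgebraicGeometry TopologicalSpace Opposite

noncomputable section

namespace Pool.Agent.MP7b039f

variable {K R : Type} [Field K] [CommRing R] [IsDomain R] [Algebra K R]
variable (M : Submodule K R)
variable (L : Type) [Field L] [Algebra R L] [IsFractionRing R L]

theorem zero_notMem_powers {A : Type} [CommRing A] [IsDomain A] {f : A} (hf : f ≠ 0) :
    (0 : A) ∉ Submonoid.powers f := by
  rintro ⟨n, hn⟩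
  exact pow_ne_zero n hf hn

theorem basicOpen_nonempty (hM : M ≠ ⊥) {f : reesSub M} (hf : f ≠ 0) :
    (Proj.basicOpen (gr M) f : Set (PV M)).Nonempty := by
  refine ⟨eta M hM, ?_⟩
  intro h
  apply hf
  change f ∈ (⊥ : HomogeneousIdeal (gr M)) at h
  rwa [← HomogeneousIdeal.mem_iff, HomogeneousIdeal.toIdeal_bot, Ideal.mem_bot] at h

theorem mono_ne_zero {d : ℕ} {m : R} (hm : m ∈ M ^ d) (hm0 : m ≠ 0) : mono M d m hm ≠ 0 := by
  intro h
  have h3 := ev1_mono (M := M) hm
  rw [h, map_zero] at h3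
  exact hm0 h3.symm

/-- Sections over `D₊(s)`, seen in `L`. -/
theorem mem_range_G_iff' (hM : M ≠ ⊥) {d : ℕ} (hd : 0 < d) {s : reesSub M} (hs : s ∈ gr M d)
    (hs0 : s ≠ 0) (x : L) :
    x ∈ (G M L hM (Proj.basicOpen (gr M) s) (basicOpen_nonempty M hM hs0)).range ↔
    ∃ (n : ℕ) (r : R), r ∈ M ^ (n * d) ∧ x = algebraMap R L r / algebraMap R L (ev1 M s) ^ n := by
  constructor
  · rintro ⟨t, rfl⟩
    obtain ⟨z, rfl⟩ : ∃ z, Proj.awayToSection (gr M) s z = t := by
      refine ⟨(Proj.basicOpenIsoAway (gr M) s hs hd).inv t, ?_⟩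
      exact (Proj.basicOpenIsoAway (gr M) s hs hd).inv_hom_id_apply t
    rw [G_awayToSection M L hM _ _ (zero_notMem_powers hs0)]
    obtain ⟨n, r, hr, rfl⟩ := HomogeneousLocalization.Away.mk_surjective _ hs z
    refine ⟨n, ev1 M r, ?_, ?_⟩
    · rw [smul_eq_mul] at hr
      rw [ev1_of_mem hr]
      exact r.2 _
    · rw [HomogeneousLocalization.Away.mk, homToL_mk]
      simp only [map_pow]
  · rintro ⟨n, r, hr, rfl⟩
    refine ⟨Proj.awayToSection (gr M) s
      (HomogeneousLocalization.Away.mk (gr M) hs n (mono M (n * d) r hr)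
        (mono_mem_gr hr)), ?_⟩
    rw [G_awayToSection M L hM _ _ (zero_notMem_powers hs0)]
    rw [HomogeneousLocalization.Away.mk, homToL_mk]
    simp only [map_pow]
    rw [ev1_mono]

end Pool.Agent.MP7b039f
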