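import Pool.Agent.MP7b039f.Embed

open CategoryTheory AlgebraicGeometry Limits TopologicalSpace HomogeneousLocalization
open scoped HomogeneousIdeal

noncomputable section

namespace Pool.Agent.MP7b039f

attribute [local instance] MvPolynomial.gradedAlgebra

variable (K : Type) [Field K] {ι : Type} (e : ι ≃ Idx)

theorem awayMap_surj {d : ℕ} {s : MvPolynomial ι K}
    (hs : s ∈ MvPolynomial.homogeneousSubmodule ι K d) :
    Function.Surjective (Away.map (Phi K e) s) := by
  intro x
  obtain ⟨n, a, ha, rfl⟩ := Away.mk_surjective (gr (MM K)) (GradedRingHom.map_mem (Phi K e) hs) x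
  obtain ⟨p, hp, rfl⟩ := Phi_surj K e ha
  exact ⟨Away.mk _ hs n p hp, Away.map_mk (Phi K e) s hs n p hp⟩

/-- the preimage of a basic open. -/
def preIso {s : MvPolynomial ι K}
    (hs : s ∈ MvPolynomial.homogeneousSubmodule ι K 1) :
    (phi K e ⁻¹ᵁ Proj.basicOpen (MvPolynomial.homogeneousSubmodule ι K) s).toScheme ≅
      Spec (.of (Away (gr (MM K)) (Phi K e s))) :=
  Proj.basicOpenIsoSpec (gr (MM K)) (Phi K e s) (GradedRingHom.map_mem (Phi K e) hs) one_pos

theorem preIso_inv_ι {s : MvPolynomial ι K}
    (hs : s ∈ MvPolynomial.homogeneousSubmodule ι K 1) :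
    (preIso K e hs).inv ≫
      (phi K e ⁻¹ᵁ Proj.basicOpen (MvPolynomial.homogeneousSubmodule ι K) s).ι =
      Proj.awayι (gr (MM K)) (Phi K e s) (GradedRingHom.map_mem (Phi K e) hs) one_pos := rfl

theorem restr_eq {s : MvPolynomial ι K}
    (hs : s ∈ MvPolynomial.homogeneousSubmodule ι K 1) :
    (phi K e ∣_ (Proj.basicOpen (MvPolynomial.homogeneousSubmodule ι K) s)) =
      (preIso K e hs).hom ≫
      Spec.map (CommRingCat.ofHom (Away.map (Phi K e) s)) ≫
        (Proj.basicOpenIsoSpec (MvPolynomial.homogeneousSubmodule ι K) s hs one_pos).inv := by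
  rw [← Iso.inv_comp_eq, ← cancel_mono (Proj.basicOpen (MvPolynomial.homogeneousSubmodule ι K) s).ι,
    Category.assoc, morphismRestrict_ι, ← Category.assoc, preIso_inv_ι, Category.assoc,
    Proj.basicOpenIsoSpec_inv_ι]
  exact Proj.awayι_comp_map (Phi K e) (Phi_irrelevant K e) one_pos s hs

theorem closedImm_phi : IsClosedImmersion (phi K e) := by
  have hcov : ⨆ i : ι, Proj.basicOpen (MvPolynomial.homogeneousSubmodule ι K)
      (MvPolynomial.X i : MvPolynomial ι K) = ⊤ := by
    apply Proj.iSup_basicOpen_eq_top'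
    · intro i
      exact ⟨1, MvPolynomial.isHomogeneous_X K i⟩
    · rw [eq_top_iff]
      intro p _
      induction p using MvPolynomial.induction_on with
      | C a =>
        exact Subalgebra.algebraMap_mem _
          (⟨MvPolynomial.C a, MvPolynomial.isHomogeneous_C _ _⟩ :
            MvPolynomial.homogeneousSubmodule ι K 0)
      | add p q hp hq => exact add_mem (hp trivial) (hq trivial)
      | mul_X p i hp => exact mul_mem (hp trivial) (Algebra.subset_adjoin ⟨i, rfl⟩)
  refine IsZariskiLocalAtTarget.of_iSup_eq_top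
    (P := @IsClosedImmersion) _ hcov fun i => ?_
  rw [restr_eq K e (MvPolynomial.isHomogeneous_X K i)]
  have h1 : IsClosedImmersion (Spec.map (CommRingCat.ofHom
      (Away.map (Phi K e) (MvPolynomial.X i)))) :=
    IsClosedImmersion.spec_of_surjective _ (awayMap_surj K e (MvPolynomial.isHomogeneous_X K i))
  infer_instance

theorem phi_toSpec : phi K e ≫ PSpace.toSpec ι K = fVV K := by
  have key : ∀ (i : ℕ) (hi : 0 < i) (s : MvPolynomial ι K)
      (hs : s ∈ MvPolynomial.homogeneousSubmodule ι K i),
      Proj.awayι (gr (MM K)) (Phi K e s) (GradedRingHom.map_mem (Phi K e) hs) hi ≫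
        phi K e ≫ PSpace.toSpec ι K =
      Proj.awayι (gr (MM K)) (Phi K e s) (GradedRingHom.map_mem (Phi K e) hs) hi ≫ fVV K := by
    intro i hi s hs
    rw [phi, Proj.awayι_comp_map_assoc _ _ hi s hs, PSpace.toSpec, Proj.awayι_toSpecZero_assoc,
      fVV, fV, Proj.awayι_toSpecZero_assoc]
    rw [← Spec.map_comp, ← Spec.map_comp, ← Spec.map_comp]
    congr 1
    apply CommRingCat.hom_ext
    apply RingHom.ext
    intro x
    change Away.map (Phi K e) s (HomogeneousLocalization.fromZeroRingHom _ _
      (algebraMap K (MvPolynomial.homogeneousSubmodule ι K 0) x)) =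
      HomogeneousLocalization.fromZeroRingHom _ _ (algebraMap K (gr (MM K) 0) x)
    change HomogeneousLocalization.map _ _ (HomogeneousLocalization.mk _) =
      HomogeneousLocalization.mk _
    rw [HomogeneousLocalization.map_mk]
    congr 1
    ext1
    · rfl
    · exact (PhiA K e).commutes x
    · exact map_one (PhiA K e)
  exact (Proj.mapAffineOpenCover (Phi K e) (Phi_irrelevant K e)).openCover.hom_ext _ _
    fun s => key _ s.1.2 _ s.2.2

end Pool.Agent.MP7b039f
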