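import Pool.Agent.MP7b039f.CohCover
import Pool.Agent.Lib.LerayThree
import Pool.Agent.Lib.SheafCohAffine

open CategoryTheory AlgebraicGeometry TopologicalSpace Opposite
open Pool.Agent.Lib.Leray Pool.Agent.SheafCoh

noncomputable section

namespace Pool.Agent.MP7b039f

attribute [local irreducible] rs

variable (K : Type) [Field K]

/-- the embedding of the sections in the function field, as an additive map. -/
def gs (U : (VV K).Opens) (hU : (U : Set (VV K)).Nonempty) :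
    (OV (VV K)).obj.obj (op U) →+ LL K :=
  (G (MM K) (LL K) (MM_ne_bot K) U hU).toAddMonoidHom

theorem gs_rt {U U' : (VV K).Opens} (h : U' ≤ U) (hU : (U : Set (VV K)).Nonempty)
    (hU' : (U' : Set (VV K)).Nonempty) (s : (OV (VV K)).obj.obj (op U)) :
    gs K U' hU' (rt (OV (VV K)) h s) = gs K U hU s := rfl

theorem gs_map {U U' : (VV K).Opens} (h : U' ≤ U) (hU : (U : Set (VV K)).Nonempty)
    (hU' : (U' : Set (VV K)).Nonempty) (s : (OV (VV K)).obj.obj (op U)) :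
    gs K U' hU' ((OV (VV K)).obj.map (homOfLE h).op s) = gs K U hU s := rfl

theorem gs_injective (U : (VV K).Opens) (hU : (U : Set (VV K)).Nonempty) :
    Function.Injective (gs K U hU) := G_injective (MM K) (LL K) (MM_ne_bot K) U hU

theorem gs_mem (U : (VV K).Opens) (hU : (U : Set (VV K)).Nonempty)
    (s : (OV (VV K)).obj.obj (op U)) : gs K U hU s ∈ Rg K U hU := ⟨s, rfl⟩

theorem exists_gs (U : (VV K).Opens) (hU : (U : Set (VV K)).Nonempty) (x : LL K)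
    (hx : x ∈ Rg K U hU) : ∃ s, gs K U hU s = x := hx

theorem UB_acyclic (σ : Equiv.Perm (Fin 3)) (b : ℕ × ℕ × ℕ) (n : ℕ) :
    Subsingleton ((OV (VV K)).H' (n + 1) (UB K σ b)) :=
  affine_acyclic (VV K) n (UB_aff K σ b)

theorem WJ_H1' [CharP K 2] (σ : Equiv.Perm (Fin 3)) (J : Finset (Fin 3)) (h0 : σ 0 ∈ J) :
    Subsingleton ((OV (VV K)).H' 1 (WJ K J)) := by
  have hI := UB_nonempty K σ (bJ σ J 1)
  have hP := UB_nonempty K σ (bJ σ J 0)
  have hQ := UB_nonempty K (flp σ) (bJ (flp σ) J 0)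
  have hIP : UB K σ (bJ σ J 1) ≤ UB K σ (bJ σ J 0) := by
    rw [UB_inter K σ J h0]; exact inf_le_left
  have hIQ : UB K σ (bJ σ J 1) ≤ UB K (flp σ) (bJ (flp σ) J 0) := by
    rw [UB_inter K σ J h0]; exact inf_le_right
  refine subsingleton_sup_one (OV (VV K)) (WJ_eq K σ J h0) (UB_inter K σ J h0)
    (UB_acyclic K _ _ 0) (UB_acyclic K _ _ 0) hIP hIQ fun s => ?_
  have h1 := Rg_split K σ J hI hP hQ (gs_mem K _ hI s)
  obtain ⟨x, hx, y, hy, hxy⟩ := Submodule.mem_sup.1 h1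
  obtain ⟨a, ha⟩ := exists_gs K _ hP x hx
  obtain ⟨b, hb⟩ := exists_gs K _ hQ y hy
  refine ⟨a, b, gs_injective K _ hI ?_⟩
  rw [map_add, gs_rt K hIP hP hI, gs_rt K hIQ hQ hI, ha, hb, hxy]

theorem exists_perm0 : ∀ i : Fin 3, ∃ σ : Equiv.Perm (Fin 3), σ 0 = i := by
  decide

theorem WJ_H1 [CharP K 2] (J : Finset (Fin 3)) (hJ : J.Nonempty) :
    Subsingleton ((OV (VV K)).H' 1 (WJ K J)) := by
  obtain ⟨j, hj⟩ := hJ
  obtain ⟨σ, rfl⟩ := exists_perm0 j
  exact WJ_H1' K σ J hj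

theorem WJ_H2 [CharP K 2] (J : Finset (Fin 3)) (hJ : J.Nonempty) :
    Subsingleton ((OV (VV K)).H' 2 (WJ K J)) := by
  obtain ⟨j, hj⟩ := hJ
  obtain ⟨σ, rfl⟩ := exists_perm0 j
  exact subsingleton_sup (OV (VV K)) (WJ_eq K σ J hj) (UB_inter K σ J hj) 1
    (UB_acyclic K _ _ 1) (UB_acyclic K _ _ 1) (UB_acyclic K _ _ 0)

end Pool.Agent.MP7b039f
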