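import Pool.Agent.MP7b039f.Coh1

open CategoryTheory AlgebraicGeometry TopologicalSpace Opposite
open Pool.Agent.Lib.Leray Pool.Agent.SheafCoh

noncomputable section

namespace Pool.Agent.MP7b039f

attribute [local irreducible] rs

variable (K : Type) [Field K]

/-- monomials in the `x_i`. -/
def nu (α : Fin 3 → ℤ) : LL K := ∏ i, xL K i ^ α i

/-- exponents allowed on `WJ`. -/
def NS (J : Finset (Fin 3)) : Set (Fin 3 → ℤ) := {α | ∑ i, α i = 0 ∧ ∀ i ∉ J, 0 ≤ α i}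

/-- exponents allowed on `WJ`, in the chart `σ`. -/
def TJ (σ : Equiv.Perm (Fin 3)) (J : Finset (Fin 3)) : Set (ℤ × ℤ × ℤ) :=
  {p | (σ 0 ∉ J → p.1 + p.2.1 ≤ 0) ∧ (σ 1 ∉ J → 0 ≤ p.1) ∧ (σ 2 ∉ J → 0 ≤ p.2.1) ∧ p.2.2 = 0}

theorem mu_eq_nu (σ : Equiv.Perm (Fin 3)) (α : Fin 3 → ℤ) (h : ∑ i, α i = 0) :
    mu K σ (α (σ 1), α (σ 2), 0) = nu K α := by
  have h0 := xL_ne_zero K (σ 0)
  have h1 := xL_ne_zero K (σ 1)
  have h2 := xL_ne_zero K (σ 2)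
  have hs : α (σ 0) = - (α (σ 1) + α (σ 2)) := by
    rw [← Equiv.sum_comp σ, Fin.sum_univ_three] at h
    linarith
  rw [nu, ← Equiv.prod_comp σ, Fin.prod_univ_three, hs]
  simp only [mu, cc, Matrix.cons_val_zero, Matrix.cons_val_one, Matrix.cons_val, zpow_zero,
    mul_one]
  rw [div_zpow, div_zpow, zpow_neg, zpow_add₀ h0]
  field_simp

/-- the span. -/
def NN (J : Finset (Fin 3)) : Submodule K (LL K) := Submodule.span K (nu K '' NS J)

theorem Lam_TJ (σ : Equiv.Perm (Fin 3)) (J : Finset (Fin 3)) : Lam K σ (TJ σ J) = NN K J := by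
  rw [Lam, NN]
  congr 1
  ext x
  constructor
  · rintro ⟨⟨p, q, r⟩, ⟨h0, h1, h2, h3⟩, rfl⟩
    simp only at h0 h1 h2 h3
    subst h3
    let α : Fin 3 → ℤ := ![-(p + q), p, q] ∘ σ.symm
    have a0 : α (σ 0) = -(p + q) := by simp [α]
    have a1 : α (σ 1) = p := by simp [α]
    have a2 : α (σ 2) = q := by simp [α]
    have hs : ∑ i, α i = 0 := by
      rw [← Equiv.sum_comp σ, Fin.sum_univ_three, a0, a1, a2]
      ring
    refine ⟨α, ⟨hs, ?_⟩, ?_⟩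
    · intro i hi
      obtain ⟨i, rfl⟩ := σ.surjective i
      fin_cases i
      · have := h0 hi
        change 0 ≤ α (σ 0)
        rw [a0]; omega
      · change 0 ≤ α (σ 1)
        rw [a1]; exact h1 hi
      · change 0 ≤ α (σ 2)
        rw [a2]; exact h2 hi
    · rw [← mu_eq_nu K σ α hs, a1, a2]
  · rintro ⟨α, ⟨hs, hα⟩, rfl⟩
    refine ⟨(α (σ 1), α (σ 2), 0), ⟨?_, hα _, hα _, rfl⟩, mu_eq_nu K σ α hs⟩
    intro h
    have h0 := hα _ h
    rw [← Equiv.sum_comp σ, Fin.sum_univ_three] at hs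
    simp only
    linarith

theorem Rg_WJ [CharP K 2] (J : Finset (Fin 3)) (hJ : J.Nonempty) (hU) :
    Rg K (WJ K J) hU = Lam K 1 (TJ 1 J) := by
  obtain ⟨j, hj⟩ := hJ
  obtain ⟨σ, rfl⟩ := exists_perm0 j
  rw [Rg_WJ_Lam K σ J hj, Lam_TJ, ← Lam_TJ K σ]
  congr 1
  ext p
  simp only [SJ, TJ, Set.mem_ofPred_eq, hj, not_true_eq_false, false_imp_iff, true_and]

theorem Rg_congr (U U' : (VV K).Opens) (h : U = U') (hU hU') : Rg K U hU = Rg K U' hU' := by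
  subst h
  rfl

theorem WJ_inf (J J' : Finset (Fin 3)) : WJ K J ⊓ WJ K J' = WJ K (J ∪ J') := by
  rw [WJ, WJ, WJ, Finset.inf_union]

theorem WJ_cover [CharP K 2] : WJ K {0} ⊔ WJ K {1} ⊔ WJ K {2} = ⊤ := by
  rw [eq_top_iff]
  intro p _
  obtain ⟨⟨i, j, k⟩, hi⟩ := exists_mem_DD K p
  have hA : AX K p i := ⟨j, k, hi⟩
  rw [Opens.mem_sup, Opens.mem_sup, mem_WJ, mem_WJ, mem_WJ]
  simp only [Finset.mem_singleton, forall_eq]
  fin_cases i
  · exact Or.inl (Or.inl hA)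
  · exact Or.inl (Or.inr hA)
  · exact Or.inr hA

theorem cechTwo [CharP K 2] : CechTwo (OV (VV K)) (WJ K {0}) (WJ K {1}) (WJ K {2}) := by
  intro s
  have n01 : ((WJ K {0} ⊓ WJ K {1} : (VV K).Opens) : Set (VV K)).Nonempty := by
    rw [WJ_inf]; exact WJ_nonempty K _
  have n02 : ((WJ K {0} ⊓ WJ K {2} : (VV K).Opens) : Set (VV K)).Nonempty := by
    rw [WJ_inf]; exact WJ_nonempty K _
  have n12 : ((WJ K {1} ⊓ WJ K {2} : (VV K).Opens) : Set (VV K)).Nonempty := by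
    rw [WJ_inf]; exact WJ_nonempty K _
  have n012 : ((WJ K {0} ⊓ WJ K {1} ⊓ WJ K {2} : (VV K).Opens) : Set (VV K)).Nonempty := by
    rw [WJ_inf, WJ_inf]; exact WJ_nonempty K _
  have r01 : Rg K _ n01 = Lam K 1 (TJ 1 ({0} ∪ {1})) := by
    rw [Rg_congr K _ _ (WJ_inf K _ _) n01 (WJ_nonempty K _), Rg_WJ K _ (by simp)]
  have r02 : Rg K _ n02 = Lam K 1 (TJ 1 ({0} ∪ {2})) := by
    rw [Rg_congr K _ _ (WJ_inf K _ _) n02 (WJ_nonempty K _), Rg_WJ K _ (by simp)]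
  have r12 : Rg K _ n12 = Lam K 1 (TJ 1 ({1} ∪ {2})) := by
    rw [Rg_congr K _ _ (WJ_inf K _ _) n12 (WJ_nonempty K _), Rg_WJ K _ (by simp)]
  have r012 : Rg K _ n012 = Lam K 1 (TJ 1 ({0} ∪ {1} ∪ {2})) := by
    rw [Rg_congr K _ _ (by rw [WJ_inf, WJ_inf]) n012 (WJ_nonempty K ({0} ∪ {1} ∪ {2})),
      Rg_WJ K _ (by simp)]
  have h1 : gs K _ n012 s ∈ Lam K 1 (TJ 1 ({1} ∪ {2})) ⊔ Lam K 1 (TJ 1 ({0} ∪ {2})) ⊔
      Lam K 1 (TJ 1 ({0} ∪ {1})) := by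
    rw [← Lam_sup, ← Lam_sup]
    have h2 := gs_mem K _ n012 s
    rw [r012] at h2
    refine Lam_mono K 1 ?_ h2
    rintro ⟨p, q, r⟩ ⟨-, -, -, h⟩
    simp only [TJ, Set.mem_union, Set.mem_ofPred_eq, Equiv.Perm.coe_one, id_eq,
      Finset.mem_union, Finset.mem_singleton]
    simp only at h
    rcases le_total 0 p with hp | hp
    · left; right
      refine ⟨fun h => absurd (Or.inl trivial) h, fun _ => hp, fun h => absurd (Or.inr trivial) h, h⟩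
    · rcases le_total 0 q with hq | hq
      · right
        refine ⟨fun h => absurd (Or.inl trivial) h, fun h => absurd (Or.inr trivial) h, fun _ => hq, h⟩
      · left; left
        refine ⟨fun _ => by omega, fun h => absurd (Or.inl trivial) h, fun h => absurd (Or.inr trivial) h, h⟩
  obtain ⟨xy, hxy, z, hz, e1⟩ := Submodule.mem_sup.1 h1
  obtain ⟨x, hx, y, hy, e2⟩ := Submodule.mem_sup.1 hxy
  rw [← r12] at hx
  rw [← r02] at hy
  rw [← r01] at hz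
  obtain ⟨a, ha⟩ := exists_gs K _ n12 x hx
  obtain ⟨b, hb⟩ := exists_gs K _ n02 y hy
  obtain ⟨c, hc⟩ := exists_gs K _ n01 z hz
  refine ⟨c, -b, a, gs_injective K _ n012 ?_⟩
  rw [map_add, map_sub, gs_map K (le12 _ _ _) n12 n012, gs_map K (le02 _ _ _) n02 n012,
    gs_map K (le01 _ _ _) n01 n012, map_neg, ha, hb, hc, sub_neg_eq_add, e2, e1]

theorem cechOne [CharP K 2] : CechOne (OV (VV K)) (WJ K {0}) (WJ K {1}) (WJ K {2}) := by
  intro s01 s02 s12 hs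
  have n0 := WJ_nonempty K {0}
  have n1 := WJ_nonempty K {1}
  have n2 := WJ_nonempty K {2}
  have n01 : ((WJ K {0} ⊓ WJ K {1} : (VV K).Opens) : Set (VV K)).Nonempty := by
    rw [WJ_inf]; exact WJ_nonempty K _
  have n02 : ((WJ K {0} ⊓ WJ K {2} : (VV K).Opens) : Set (VV K)).Nonempty := by
    rw [WJ_inf]; exact WJ_nonempty K _
  have n12 : ((WJ K {1} ⊓ WJ K {2} : (VV K).Opens) : Set (VV K)).Nonempty := by
    rw [WJ_inf]; exact WJ_nonempty K _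
  have n012 : ((WJ K {0} ⊓ WJ K {1} ⊓ WJ K {2} : (VV K).Opens) : Set (VV K)).Nonempty := by
    rw [WJ_inf, WJ_inf]; exact WJ_nonempty K _
  have r01 : Rg K _ n01 = Lam K 1 (TJ 1 ({0} ∪ {1})) := by
    rw [Rg_congr K _ _ (WJ_inf K _ _) n01 (WJ_nonempty K _), Rg_WJ K _ (by simp)]
  have r02 : Rg K _ n02 = Lam K 1 (TJ 1 ({0} ∪ {2})) := by
    rw [Rg_congr K _ _ (WJ_inf K _ _) n02 (WJ_nonempty K _), Rg_WJ K _ (by simp)]
  have r12 : Rg K _ n12 = Lam K 1 (TJ 1 ({1} ∪ {2})) := by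
    rw [Rg_congr K _ _ (WJ_inf K _ _) n12 (WJ_nonempty K _), Rg_WJ K _ (by simp)]
  have r0 : Rg K _ n0 = Lam K 1 (TJ 1 {0}) := Rg_WJ K _ (by simp) _
  have r1 : Rg K _ n1 = Lam K 1 (TJ 1 {1}) := Rg_WJ K _ (by simp) _
  have r2 : Rg K _ n2 = Lam K 1 (TJ 1 {2}) := Rg_WJ K _ (by simp) _
  have hs' : gs K _ n12 s12 - gs K _ n02 s02 + gs K _ n01 s01 = 0 := by
    have := congrArg (gs K _ n012) hs
    rwa [map_add, map_sub, gs_map K (le12 _ _ _) n12 n012, gs_map K (le02 _ _ _) n02 n012,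
      gs_map K (le01 _ _ _) n01 n012, map_zero] at this
  have m01 : gs K _ n01 s01 ∈ Lam K 1 (TJ 1 ({0} ∪ {1})) := r01 ▸ gs_mem K _ n01 s01
  have m02 : gs K _ n02 s02 ∈ Lam K 1 (TJ 1 ({0} ∪ {2})) := r02 ▸ gs_mem K _ n02 s02
  have m12 : gs K _ n12 s12 ∈ Lam K 1 (TJ 1 ({1} ∪ {2})) := r12 ▸ gs_mem K _ n12 s12
  set z01 := gs K _ n01 s01
  set z02 := gs K _ n02 s02
  set z12 := gs K _ n12 s12
  have h1 : z01 ∈ Lam K 1 (TJ 1 {1}) ⊔ Lam K 1 (TJ 1 {0}) := by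
    have h2 : z01 ∈ Lam K 1 (TJ 1 ({0} ∪ {2}) ∪ TJ 1 ({1} ∪ {2})) := by
      rw [Lam_sup]
      have : z01 = z02 - z12 := by linear_combination hs'
      rw [this]
      exact sub_mem (Submodule.mem_sup_left m02) (Submodule.mem_sup_right m12)
    have h3 : z01 ∈ Lam K 1 (TJ 1 ({0} ∪ {1}) ∩ (TJ 1 ({0} ∪ {2}) ∪ TJ 1 ({1} ∪ {2}))) := by
      rw [Lam_inf]
      exact ⟨m01, h2⟩
    rw [← Lam_sup]
    refine Lam_mono K 1 ?_ h3
    rintro ⟨p, q, r⟩ ⟨h, h'⟩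
    simp only [TJ, Set.mem_union, Set.mem_ofPred_eq, Equiv.Perm.coe_one, id_eq,
      Finset.mem_union, Finset.mem_singleton] at h h' ⊢
    obtain ⟨-, -, h2, h3⟩ := h
    have h2' := h2 (by decide)
    rcases h' with ⟨-, h5, -, -⟩ | ⟨h5, -, -, -⟩
    · right
      exact ⟨fun h => absurd trivial h, fun _ => h5 (by decide), fun _ => h2', h3⟩
    · left
      exact ⟨fun _ => h5 (by decide), fun h => absurd trivial h, fun _ => h2', h3⟩
  obtain ⟨t1, ht1, u0, hu0, e⟩ := Submodule.mem_sup.1 h1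
  have hmono : ∀ {J J' : Finset (Fin 3)} (_ : J ⊆ J'), Lam K 1 (TJ 1 J) ≤ Lam K 1 (TJ 1 J') := by
    intro J J' h
    apply Lam_mono
    rintro p ⟨h1, h2, h3, h4⟩
    exact ⟨fun h5 => h1 fun h6 => h5 (h h6), fun h5 => h2 fun h6 => h5 (h h6),
      fun h5 => h3 fun h6 => h5 (h h6), h4⟩
  have h2 : z12 + t1 ∈ Lam K 1 (TJ 1 {2}) := by
    have h3 : z12 + t1 ∈ Lam K 1 (TJ 1 ({0} ∪ {2}) ∩ TJ 1 ({1} ∪ {2})) := by
      rw [Lam_inf]
      refine ⟨?_, add_mem m12 (hmono (by decide) ht1)⟩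
      have : z12 + t1 = z02 - u0 := by linear_combination hs' + e
      rw [this]
      exact sub_mem m02 (hmono (by decide) hu0)
    refine Lam_mono K 1 ?_ h3
    rintro ⟨p, q, r⟩ ⟨h, h'⟩
    simp only [TJ, Set.mem_ofPred_eq, Equiv.Perm.coe_one, id_eq,
      Finset.mem_union, Finset.mem_singleton] at h h' ⊢
    exact ⟨fun _ => h'.1 (by decide), fun _ => h.2.1 (by decide), fun h => absurd trivial h, h.2.2.2⟩
  rw [← r1] at ht1
  rw [← r0] at hu0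
  rw [← r2] at h2
  obtain ⟨a0, ha0⟩ := exists_gs K _ n0 u0 hu0
  obtain ⟨a1, ha1⟩ := exists_gs K _ n1 t1 ht1
  obtain ⟨a2, ha2⟩ := exists_gs K _ n2 _ h2
  refine ⟨-a0, a1, a2, gs_injective K _ n01 ?_, gs_injective K _ n02 ?_,
    gs_injective K _ n12 ?_⟩
  · rw [map_sub, gs_map K inf_le_right n1 n01, gs_map K inf_le_left n0 n01, map_neg, ha0, ha1]
    linear_combination e
  · rw [map_sub, gs_map K inf_le_right n2 n02, gs_map K inf_le_left n0 n02, map_neg, ha0, ha2]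
    linear_combination hs' + e
  · rw [map_sub, gs_map K inf_le_right n2 n12, gs_map K inf_le_left n1 n12, ha1, ha2]
    ring

theorem coh_top [CharP K 2] :
    Subsingleton ((OV (VV K)).H' 1 (⊤ : (VV K).Opens)) ∧
      Subsingleton ((OV (VV K)).H' 2 (⊤ : (VV K).Opens)) :=
  leray_three (OV (VV K)) (WJ_cover K).symm (WJ_H1 K _ (by simp)) (WJ_H1 K _ (by simp))
    (WJ_H1 K _ (by simp)) (WJ_H2 K _ (by simp)) (WJ_H2 K _ (by simp)) (WJ_H2 K _ (by simp))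
    (by rw [WJ_inf]; exact WJ_H1 K _ (by simp)) (by rw [WJ_inf]; exact WJ_H1 K _ (by simp))
    (by rw [WJ_inf]; exact WJ_H1 K _ (by simp)) (cechOne K) (cechTwo K)

end Pool.Agent.MP7b039f
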