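import Pool.Agent.MP7b039f.CohOpens

open Polynomial DirectSum CategoryTheory AlgebraicGeometry TopologicalSpace Opposite

noncomputable section

namespace Pool.Agent.MP7b039f

variable (K : Type) [Field K]

theorem Rg_mono {U U' : (VV K).Opens} (h : U' ≤ U) (hU : (U : Set (VV K)).Nonempty)
    (hU' : (U' : Set (VV K)).Nonempty) : Rg K U hU ≤ Rg K U' hU' := by
  intro x hx
  rw [mem_Rg] at hx ⊢
  obtain ⟨s, rfl⟩ := hx
  exact ⟨(VV K).presheaf.map (homOfLE h).op s, G_res _ _ _ h hU' s⟩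

theorem Rg_sup (U U' : (VV K).Opens) (hU : (U : Set (VV K)).Nonempty)
    (hU' : (U' : Set (VV K)).Nonempty) (h) : Rg K (U ⊔ U') h = Rg K U hU ⊓ Rg K U' hU' := by
  apply le_antisymm
  · exact le_inf (Rg_mono K le_sup_left _ _) (Rg_mono K le_sup_right _ _)
  · rintro x ⟨h1, h2⟩
    change x ∈ Rg K U hU at h1
    change x ∈ Rg K U' hU' at h2
    rw [mem_Rg] at h1 h2 ⊢
    obtain ⟨s, rfl⟩ := h1
    obtain ⟨s', hs'⟩ := h2
    obtain ⟨t, ht⟩ := exists_glue (MM K) (LL K) (MM_ne_bot K) U U' hU hU' s s' hs'.symm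
    exact ⟨t, ht⟩

/-- the permutation exchanging the two last indices. -/
def flp (σ : Equiv.Perm (Fin 3)) : Equiv.Perm (Fin 3) := σ * Equiv.swap 1 2

theorem flp0 (σ : Equiv.Perm (Fin 3)) : flp σ 0 = σ 0 := by
  rw [flp, Equiv.Perm.mul_apply, Equiv.swap_apply_of_ne_of_ne] <;> decide

theorem flp1 (σ : Equiv.Perm (Fin 3)) : flp σ 1 = σ 2 := by
  rw [flp, Equiv.Perm.mul_apply, Equiv.swap_apply_left]

theorem flp2 (σ : Equiv.Perm (Fin 3)) : flp σ 2 = σ 1 := by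
  rw [flp, Equiv.Perm.mul_apply, Equiv.swap_apply_right]

theorem mu_flp (σ : Equiv.Perm (Fin 3)) (p : ℤ × ℤ × ℤ) :
    mu K (flp σ) p = mu K σ (p.2.1, p.1, -p.2.2) := by
  simp only [mu, cc, flp0, flp1, flp2, Matrix.cons_val_zero, Matrix.cons_val_one, Matrix.cons_val]
  rw [zpow_neg, ← inv_zpow, inv_div]
  ring

/-- flipping exponents. -/
def flpSet (S : Set (ℤ × ℤ × ℤ)) : Set (ℤ × ℤ × ℤ) := {p | (p.2.1, p.1, -p.2.2) ∈ S}

theorem Lam_flp (σ : Equiv.Perm (Fin 3)) (S : Set (ℤ × ℤ × ℤ)) :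
    Lam K (flp σ) S = Lam K σ (flpSet S) := by
  rw [Lam, Lam]
  congr 1
  ext x
  constructor
  · rintro ⟨p, hp, rfl⟩
    exact ⟨(p.2.1, p.1, -p.2.2), by simpa [flpSet] using hp, (mu_flp K σ p).symm⟩
  · rintro ⟨p, hp, rfl⟩
    refine ⟨(p.2.1, p.1, -p.2.2), hp, ?_⟩
    rw [mu_flp]
    simp

theorem mem_coneOf (a b c : ℕ) (p : ℤ × ℤ × ℤ) :
    p ∈ coneOf ((a : ℤ), (b : ℤ), (c : ℤ)) ↔
      (a = 0 → 0 ≤ p.1) ∧ (b = 0 → 0 ≤ p.2.1) ∧ (c = 0 → 0 ≤ p.2.2) := by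
  constructor
  · rintro ⟨n, h1, h2, h3⟩
    refine ⟨fun h => ?_, fun h => ?_, fun h => ?_⟩
    · subst h; simpa using h1
    · subst h; simpa using h2
    · subst h; simpa using h3
  · rintro ⟨h1, h2, h3⟩
    have key : ∀ (z : ℤ) (m : ℕ), (m = 0 → 0 ≤ z) → ∀ n : ℕ, z.natAbs ≤ n → 0 ≤ z + n * m := by
      intro z m h n hn
      rcases Nat.eq_zero_or_pos m with hm | hm
      · subst hm
        simpa using h rfl
      · have h4 : (1 : ℤ) ≤ m := by exact_mod_cast hm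
        have h5 : (z.natAbs : ℤ) ≤ n := by exact_mod_cast hn
        have h6 : -z ≤ z.natAbs := by omega
        nlinarith
    refine ⟨p.1.natAbs + p.2.1.natAbs + p.2.2.natAbs, ?_, ?_, ?_⟩
    · exact key _ _ h1 _ (by omega)
    · exact key _ _ h2 _ (by omega)
    · exact key _ _ h3 _ (by omega)

/-- the exponents of the set `J` in the chart `σ`. -/
def bJ (σ : Equiv.Perm (Fin 3)) (J : Finset (Fin 3)) (c : ℕ) : ℕ × ℕ × ℕ :=
  (if σ 1 ∈ J then 1 else 0, if σ 2 ∈ J then 1 else 0, c)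

theorem mem_UB_bJ (σ : Equiv.Perm (Fin 3)) (J : Finset (Fin 3)) (h0 : σ 0 ∈ J) (c : ℕ)
    (p : VV K) :
    p ∈ UB K σ (bJ σ J c) ↔ p ∈ WJ K J ∧ BY K p (σ 1) ∧ (c ≠ 0 → BY K p (σ 2)) := by
  rw [mem_UB, mem_WJ]
  have h : (∀ j ∈ J, AX K p j) ↔ AX K p (σ 0) ∧ (σ 1 ∈ J → AX K p (σ 1)) ∧
      (σ 2 ∈ J → AX K p (σ 2)) := by
    constructor
    · intro h
      exact ⟨h _ h0, h _, h _⟩
    · rintro ⟨h1, h2, h3⟩ j hj
      obtain ⟨i, rfl⟩ := σ.surjective j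
      fin_cases i
      · exact h1
      · exact h2 hj
      · exact h3 hj
  rw [h]
  simp only [bJ, ne_eq, ite_eq_right_iff, one_ne_zero, imp_false, not_not]
  tauto

theorem WJ_eq [CharP K 2] (σ : Equiv.Perm (Fin 3)) (J : Finset (Fin 3)) (h0 : σ 0 ∈ J) :
    WJ K J = UB K σ (bJ σ J 0) ⊔ UB K (flp σ) (bJ (flp σ) J 0) := by
  ext p
  rw [SetLike.mem_coe, SetLike.mem_coe, Opens.mem_sup, mem_UB_bJ K σ J h0,
    mem_UB_bJ K (flp σ) J (by rw [flp0]; exact h0), flp1, flp2]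
  constructor
  · intro h
    obtain ⟨l, hl, hB⟩ := exists_BY_ne K p (σ 0) ((mem_WJ K p J).1 h _ h0)
    obtain ⟨i, rfl⟩ := σ.surjective l
    fin_cases i
    · exact absurd rfl hl
    · exact Or.inl ⟨h, hB, fun h => absurd rfl h⟩
    · exact Or.inr ⟨h, hB, fun h => absurd rfl h⟩
  · rintro (h | h)
    · exact h.1
    · exact h.1

theorem UB_inter (σ : Equiv.Perm (Fin 3)) (J : Finset (Fin 3)) (h0 : σ 0 ∈ J) :
    UB K σ (bJ σ J 1) = UB K σ (bJ σ J 0) ⊓ UB K (flp σ) (bJ (flp σ) J 0) := by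
  ext p
  rw [SetLike.mem_coe, SetLike.mem_coe, Opens.mem_inf, mem_UB_bJ K σ J h0,
    mem_UB_bJ K σ J h0, mem_UB_bJ K (flp σ) J (by rw [flp0]; exact h0), flp1, flp2]
  simp only [ne_eq, one_ne_zero, not_false_eq_true, forall_const, not_true_eq_false,
    false_imp_iff, and_true]
  tauto

theorem WJ_nonempty (J : Finset (Fin 3)) : (WJ K J : Set (VV K)).Nonempty := by
  refine ⟨eta (MM K) (MM_ne_bot K), ?_⟩
  rw [SetLike.mem_coe, mem_WJ]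
  intro j _
  exact ⟨0, 0, eta_mem _ _ _ (DD_nonempty K _)⟩

/-- exponents allowed on `WJ`, in the chart `σ`. -/
def SJ (σ : Equiv.Perm (Fin 3)) (J : Finset (Fin 3)) : Set (ℤ × ℤ × ℤ) :=
  {p | (σ 1 ∉ J → 0 ≤ p.1) ∧ (σ 2 ∉ J → 0 ≤ p.2.1) ∧ p.2.2 = 0}

theorem Rg_UB_bJ [CharP K 2] (σ : Equiv.Perm (Fin 3)) (J : Finset (Fin 3)) (c : ℕ) (hU) :
    Rg K (UB K σ (bJ σ J c)) hU = Lam K σ {p | (σ 1 ∉ J → 0 ≤ p.1) ∧ (σ 2 ∉ J → 0 ≤ p.2.1) ∧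
      (c = 0 → 0 ≤ p.2.2)} := by
  rw [Rg_UB]
  congr 1
  ext p
  have h := mem_coneOf (bJ σ J c).1 (bJ σ J c).2.1 (2 * (bJ σ J c).2.2) p
  rw [show (((2 * (bJ σ J c).2.2 : ℕ) : ℤ)) = 2 * ((bJ σ J c).2.2 : ℤ) by push_cast; ring] at h
  rw [h]
  simp [bJ]

theorem Rg_WJ_Lam [CharP K 2] (σ : Equiv.Perm (Fin 3)) (J : Finset (Fin 3)) (h0 : σ 0 ∈ J) (hU) :
    Rg K (WJ K J) hU = Lam K σ (SJ σ J) := by
  have h1 : ∀ (U : (VV K).Opens) (hU : (U : Set (VV K)).Nonempty)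
      (_ : U = UB K σ (bJ σ J 0) ⊔ UB K (flp σ) (bJ (flp σ) J 0)),
      Rg K U hU = Rg K (UB K σ (bJ σ J 0)) (UB_nonempty K _ _) ⊓
        Rg K (UB K (flp σ) (bJ (flp σ) J 0)) (UB_nonempty K _ _) := by
    rintro _ hU rfl
    exact Rg_sup K _ _ _ _ _
  rw [h1 _ hU (WJ_eq K σ J h0), Rg_UB_bJ, Rg_UB_bJ, Lam_flp, ← Lam_inf]
  congr 1
  ext p
  simp only [flpSet, SJ, Set.mem_inter_iff, Set.mem_ofPred_eq, flp1, flp2, forall_const]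
  constructor
  · rintro ⟨⟨a, b, c⟩, d, e, f⟩
    exact ⟨a, b, by omega⟩
  · rintro ⟨a, b, c⟩
    exact ⟨⟨a, b, by omega⟩, b, a, by omega⟩

theorem Rg_split [CharP K 2] (σ : Equiv.Perm (Fin 3)) (J : Finset (Fin 3)) (hI hP hQ) :
    Rg K (UB K σ (bJ σ J 1)) hI ≤ Rg K (UB K σ (bJ σ J 0)) hP ⊔
      Rg K (UB K (flp σ) (bJ (flp σ) J 0)) hQ := by
  rw [Rg_UB_bJ, Rg_UB_bJ, Rg_UB_bJ, Lam_flp, ← Lam_sup]
  apply Lam_mono
  rintro p ⟨h1, h2, h3⟩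
  simp only [flpSet, flp1, flp2, Set.mem_union, Set.mem_ofPred_eq, forall_const]
  rcases le_total 0 p.2.2 with h | h
  · exact Or.inl ⟨h1, h2, h⟩
  · exact Or.inr ⟨h2, h1, by omega⟩

end Pool.Agent.MP7b039f
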