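import Pool.Agent.MP7b039f.Anti

open Polynomial DirectSum CategoryTheory AlgebraicGeometry TopologicalSpace Opposite

noncomputable section

namespace Pool.Agent.MP7b039f

variable (K : Type) [Field K]

/-- the open set `x_j ≠ 0`. -/
def DX (j : Fin 3) : (VV K).Opens := ⨆ i : Fin 3 × Fin 3, DD K (j, i.1, i.2)

theorem mem_DX (p : VV K) (j : Fin 3) : p ∈ DX K j ↔ AX K p j := by
  rw [DX, Opens.mem_iSup]
  constructor
  · rintro ⟨⟨k, l⟩, h⟩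
    exact ⟨k, l, h⟩
  · rintro ⟨k, l, h⟩
    exact ⟨⟨k, l⟩, h⟩

/-- the open set `x_j ≠ 0`, `j ∈ J`. -/
def WJ (J : Finset (Fin 3)) : (VV K).Opens := J.inf (DX K)

theorem mem_WJ (p : VV K) (J : Finset (Fin 3)) : p ∈ WJ K J ↔ ∀ j ∈ J, AX K p j := by
  induction J using Finset.induction_on with
  | empty =>
    simp [WJ]
  | insert j J hj ih =>
    rw [WJ, Finset.inf_insert, Finset.forall_mem_insert, ← mem_DX, ← ih]
    rfl

/-- the form cutting out an open subset of a chart. -/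
def sB (σ : Equiv.Perm (Fin 3)) (b : ℕ × ℕ × ℕ) : reesSub (MM K) :=
  XX K (σ 1, σ 1, σ 1) ^ b.1 * XX K (σ 2, σ 1, σ 1) ^ b.2.1 * XX K (σ 0, σ 2, σ 2) ^ b.2.2

theorem sB_mem (σ : Equiv.Perm (Fin 3)) (b : ℕ × ℕ × ℕ) :
    sB K σ b ∈ gr (MM K) (b.1 + b.2.1 + b.2.2) := by
  have h := SetLike.mul_mem_graded (A := gr (MM K)) (SetLike.mul_mem_graded
    (SetLike.pow_mem_graded b.1 (XX_mem K (σ 1, σ 1, σ 1)))
    (SetLike.pow_mem_graded b.2.1 (XX_mem K (σ 2, σ 1, σ 1))))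
    (SetLike.pow_mem_graded b.2.2 (XX_mem K (σ 0, σ 2, σ 2)))
  simpa [sB] using h

theorem XsB_mem (σ : Equiv.Perm (Fin 3)) (b : ℕ × ℕ × ℕ) :
    XX K (σ 0, σ 1, σ 1) * sB K σ b ∈ gr (MM K) (b.1 + b.2.1 + b.2.2 + 1) := by
  have h := SetLike.mul_mem_graded (A := gr (MM K)) (XX_mem K (σ 0, σ 1, σ 1)) (sB_mem K σ b)
  rwa [add_comm 1] at h

theorem XsB_ne_zero (σ : Equiv.Perm (Fin 3)) (b : ℕ × ℕ × ℕ) :
    XX K (σ 0, σ 1, σ 1) * sB K σ b ≠ 0 := by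
  rw [sB]
  exact mul_ne_zero (XX_ne_zero K _) (mul_ne_zero (mul_ne_zero (pow_ne_zero _ (XX_ne_zero K _))
    (pow_ne_zero _ (XX_ne_zero K _))) (pow_ne_zero _ (XX_ne_zero K _)))

/-- an open subset of a chart. -/
def UB (σ : Equiv.Perm (Fin 3)) (b : ℕ × ℕ × ℕ) : (VV K).Opens :=
  Proj.basicOpen (gr (MM K)) (XX K (σ 0, σ 1, σ 1) * sB K σ b)

theorem UB_aff (σ : Equiv.Perm (Fin 3)) (b : ℕ × ℕ × ℕ) : IsAffineOpen (UB K σ b) :=
  Proj.isAffineOpen_basicOpen (gr (MM K)) _ (XsB_mem K σ b) (Nat.succ_pos _)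

theorem UB_nonempty (σ : Equiv.Perm (Fin 3)) (b : ℕ × ℕ × ℕ) :
    (UB K σ b : Set (VV K)).Nonempty :=
  basicOpen_nonempty _ (MM_ne_bot K) (XsB_ne_zero K σ b)

theorem mem_basicOpen_pow (p : VV K) (s : reesSub (MM K)) (n : ℕ) :
    p ∈ Proj.basicOpen (gr (MM K)) (s ^ n) ↔ (n ≠ 0 → p ∈ Proj.basicOpen (gr (MM K)) s) := by
  rcases Nat.eq_zero_or_pos n with rfl | hn
  · simp
  · rw [Proj.basicOpen_pow _ _ _ hn]
    simp [hn.ne']

theorem mem_basicOpen_XX (p : VV K) (i j k : Fin 3) :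
    p ∈ Proj.basicOpen (gr (MM K)) (XX K (i, j, k)) ↔ AX K p i ∧ BY K p j ∧ BY K p k :=
  mem_DD_iff K p i j k

theorem mem_UB (σ : Equiv.Perm (Fin 3)) (b : ℕ × ℕ × ℕ) (p : VV K) :
    p ∈ UB K σ b ↔ AX K p (σ 0) ∧ BY K p (σ 1) ∧ (b.1 ≠ 0 → AX K p (σ 1)) ∧
      (b.2.1 ≠ 0 → AX K p (σ 2)) ∧ (b.2.2 ≠ 0 → BY K p (σ 2)) := by
  rw [UB, sB, Proj.basicOpen_mul, Proj.basicOpen_mul, Proj.basicOpen_mul]
  rw [Opens.mem_inf, Opens.mem_inf, Opens.mem_inf, mem_basicOpen_pow, mem_basicOpen_pow,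
    mem_basicOpen_pow, mem_basicOpen_XX, mem_basicOpen_XX, mem_basicOpen_XX, mem_basicOpen_XX]
  generalize AX K p (σ 0) = A0
  generalize AX K p (σ 1) = A1
  generalize AX K p (σ 2) = A2
  generalize BY K p (σ 1) = B1
  generalize BY K p (σ 2) = B2
  tauto

/-- sections over a nonempty open, seen in the function field. -/
def Rg (U : (VV K).Opens) (hU : (U : Set (VV K)).Nonempty) : Submodule K (LL K) :=
  Subalgebra.toSubmodule (GV K U hU).range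

theorem mem_Rg (U : (VV K).Opens) (hU : (U : Set (VV K)).Nonempty) (x : LL K) :
    x ∈ Rg K U hU ↔ ∃ s : Γ(VV K, U), G (MM K) (LL K) (MM_ne_bot K) U hU s = x := Iff.rfl

theorem Rg_UB [CharP K 2] (σ : Equiv.Perm (Fin 3)) (b : ℕ × ℕ × ℕ) (hU) :
    Rg K (UB K σ b) hU = Lam K σ (coneOf (b.1, b.2.1, 2 * b.2.2)) := by
  have h := SG_eq_Lam K σ (sB_mem K σ b) (XsB_mem K σ b) (XsB_ne_zero K σ b)
    (b.1, b.2.1, 2 * b.2.2) (by
      rw [map_mul, sB]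
      simp only [map_mul, map_pow, ev1_XX]
      simp only [algebraMap_mm, mL, mu, cc, Matrix.cons_val_zero, Matrix.cons_val_one,
        Matrix.cons_val]
      have h0 := xL_ne_zero K (σ 0)
      have h1 := yL_ne_zero K (σ 1)
      have e1 : (yL K (σ 2) / yL K (σ 1)) ^ ((2 : ℤ) * (b.2.2 : ℤ)) =
        ((yL K (σ 2) / yL K (σ 1)) ^ 2) ^ b.2.2 := by
        rw [zpow_mul, zpow_natCast]
        norm_cast
      rw [e1, zpow_natCast, zpow_natCast]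
      simp only [div_pow]
      rw [pow_succ, pow_add, pow_add]
      simp only [mul_pow]
      field_simp
      ring)
  exact h

end Pool.Agent.MP7b039f
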