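import Mathlib

open CategoryTheory TopologicalSpace Opposite Limits Abelian

noncomputable section

namespace Pool.Agent.MP7b039f

variable {X : Type} [TopologicalSpace X]

instance uniqueHomTop (U : Opens X) : Unique (U ⟶ (⊤ : Opens X)) where
  default := homOfLE le_top
  uniq _ := Subsingleton.elim _ _

/-- the isomorphism on one open set. -/
def freeTop (U : (Opens X)ᵒᵖ) :
    ((Functor.const (Opens X)ᵒᵖ).obj (AddCommGrpCat.of (ULift.{0} ℤ))).obj U ≅
      (yoneda.obj (⊤ : Opens X) ⋙ AddCommGrpCat.free).obj U :=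
  AddEquiv.toAddCommGrpIso (X := AddCommGrpCat.of (ULift.{0} ℤ))
    (Y := AddCommGrpCat.of (FreeAbelianGroup (U.unop ⟶ (⊤ : Opens X))))
    (AddEquiv.ulift.trans (FreeAbelianGroup.uniqueEquiv (U.unop ⟶ (⊤ : Opens X))).symm)

/-- the constant presheaf is the free presheaf on the terminal object. -/
def constIso : (Functor.const (Opens X)ᵒᵖ).obj (AddCommGrpCat.of (ULift.{0} ℤ)) ≅
    yoneda.obj (⊤ : Opens X) ⋙ AddCommGrpCat.free :=
  NatIso.ofComponents freeTop (by
    intro U V f
    ext ⟨n⟩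
    have h1 : (FreeAbelianGroup.uniqueEquiv (V.unop ⟶ (⊤ : Opens X))).symm n =
      n • FreeAbelianGroup.of default := rfl
    have h2 : (FreeAbelianGroup.uniqueEquiv (U.unop ⟶ (⊤ : Opens X))).symm n =
      n • FreeAbelianGroup.of default := rfl
    have h3 : FreeAbelianGroup.map (fun g : U.unop ⟶ (⊤ : Opens X) => f.unop ≫ g)
      ((FreeAbelianGroup.uniqueEquiv (U.unop ⟶ (⊤ : Opens X))).symm n) =
        (FreeAbelianGroup.uniqueEquiv (V.unop ⟶ (⊤ : Opens X))).symm n := by
      rw [h1, h2, map_zsmul, FreeAbelianGroup.map_of_apply]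
      congr 2
    exact h3.symm)

variable [HasExt.{0} (Sheaf (Opens.grothendieckTopology X) AddCommGrpCat.{0})]

theorem subsingleton_H_of_top (F : Sheaf (Opens.grothendieckTopology X) AddCommGrpCat.{0}) (n : ℕ)
    (h : Subsingleton (F.H' n (⊤ : Opens X))) : Subsingleton (Sheaf.H F n) := by
  let e : (constantSheaf (Opens.grothendieckTopology X) AddCommGrpCat.{0}).obj
      (AddCommGrpCat.of (ULift.{0} ℤ)) ≅
      (presheafToSheaf (Opens.grothendieckTopology X) _).obj
        (yoneda.obj (⊤ : Opens X) ⋙ AddCommGrpCat.free) :=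
    (presheafToSheaf (Opens.grothendieckTopology X) _).mapIso constIso
  have h' : Subsingleton (Ext ((presheafToSheaf (Opens.grothendieckTopology X) _).obj
        (yoneda.obj (⊤ : Opens X) ⋙ AddCommGrpCat.free)) F n) := h
  refine ⟨fun x y => ?_⟩
  have h1 : ∀ z : Sheaf.H F n, z = (Ext.mk₀ e.hom).comp ((Ext.mk₀ e.inv).comp z (zero_add n))
      (zero_add n) := by
    intro z
    rw [Ext.mk₀_comp_mk₀_assoc, e.hom_inv_id, Ext.mk₀_id_comp]
  rw [h1 x, h1 y]
  congr 1
  exact Subsingleton.elim _ _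

end Pool.Agent.MP7b039f
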