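import Pool.Agent.MP7b039f.Charts

open Polynomial DirectSum CategoryTheory AlgebraicGeometry TopologicalSpace Opposite

noncomputable section

namespace Pool.Agent.MP7b039f

variable (K : Type) [Field K]

/-- coordinate ring of the basic chart. -/
abbrev RR : Type := MvPolynomial (Fin 3) K

/-- its fraction field. -/
abbrev LL : Type := FractionRing (RR K)

/-- the coordinates `x = (1, a, b)` of the generic point. -/
def xx : Fin 3 → RR K := ![1, MvPolynomial.X 0, MvPolynomial.X 1]

/-- the coordinates `y = (a^2 + b^2 c, 1, c)` of the generic point. -/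
def yy : Fin 3 → RR K :=
  ![MvPolynomial.X 0 ^ 2 + MvPolynomial.X 1 ^ 2 * MvPolynomial.X 2, 1, MvPolynomial.X 2]

theorem rel_xy [CharP K 2] : xx K 0 ^ 2 * yy K 0 + xx K 1 ^ 2 * yy K 1 + xx K 2 ^ 2 * yy K 2 = 0 := by
  have h2 : (2 : RR K) = 0 := by
    have := CharP.cast_eq_zero (RR K) 2
    exact_mod_cast this
  simp only [xx, yy, Matrix.cons_val_zero, Matrix.cons_val_one, Matrix.cons_val]
  linear_combination (MvPolynomial.X 0 ^ 2 + MvPolynomial.X 1 ^ 2 * MvPolynomial.X 2) * h2

theorem xx_ne_zero (i : Fin 3) : xx K i ≠ 0 := by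
  fin_cases i
  · exact one_ne_zero
  · exact MvPolynomial.X_ne_zero _
  · exact MvPolynomial.X_ne_zero _

theorem yy_ne_zero (i : Fin 3) : yy K i ≠ 0 := by
  fin_cases i
  · intro h
    have h1 := congrArg (MvPolynomial.aeval ![(1 : K), 0, 0]) h
    simp [yy] at h1
  · exact one_ne_zero
  · exact MvPolynomial.X_ne_zero _

/-- The index set of the monomials `x_i y_j y_k`. -/
abbrev Idx : Type := Fin 3 × Fin 3 × Fin 3

/-- The monomials `x_i y_j y_k` at the generic point. -/
def mm (i : Idx) : RR K := xx K i.1 * yy K i.2.1 * yy K i.2.2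

theorem mm_ne_zero (i : Idx) : mm K i ≠ 0 :=
  mul_ne_zero (mul_ne_zero (xx_ne_zero K _) (yy_ne_zero K _)) (yy_ne_zero K _)

/-- The space spanned by the monomials `x_i y_j y_k`. -/
def MM : Submodule K (RR K) := Submodule.span K (Set.range (mm K))

theorem mm_mem (i : Idx) : mm K i ∈ MM K := Submodule.subset_span ⟨i, rfl⟩

theorem MM_ne_bot : MM K ≠ ⊥ := fun h => mm_ne_zero K (0, 0, 0)
  ((Submodule.mem_bot K).mp (h ▸ mm_mem K (0, 0, 0)))

/-- the images of the coordinates in `L`. -/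
def xL (i : Fin 3) : LL K := algebraMap (RR K) (LL K) (xx K i)
/-- the images of the coordinates in `L`. -/
def yL (i : Fin 3) : LL K := algebraMap (RR K) (LL K) (yy K i)

theorem xL_ne_zero (i : Fin 3) : xL K i ≠ 0 := by
  rw [xL, Ne, IsFractionRing.to_map_eq_zero_iff]
  exact xx_ne_zero K i

theorem yL_ne_zero (i : Fin 3) : yL K i ≠ 0 := by
  rw [yL, Ne, IsFractionRing.to_map_eq_zero_iff]
  exact yy_ne_zero K i

theorem relL [CharP K 2] : ∑ i, xL K i ^ 2 * yL K i = 0 := by
  rw [Fin.sum_univ_three]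
  have := congrArg (algebraMap (RR K) (LL K)) (rel_xy K)
  simpa [xL, yL] using this

/-- the coordinates of the chart `σ`. -/
def cc (σ : Equiv.Perm (Fin 3)) : Fin 3 → LL K :=
  ![xL K (σ 1) / xL K (σ 0), xL K (σ 2) / xL K (σ 0), yL K (σ 2) / yL K (σ 1)]

/-- the chart `σ`, on function fields. -/
def theta (σ : Equiv.Perm (Fin 3)) : RR K →ₐ[K] LL K := MvPolynomial.aeval (cc K σ)

theorem x_div_mem (σ : Equiv.Perm (Fin 3)) (i : Fin 3) :
    xL K i / xL K (σ 0) ∈ (theta K σ).range := by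
  obtain ⟨i, rfl⟩ := σ.surjective i
  fin_cases i
  · refine ⟨1, ?_⟩
    simp [theta, div_self (xL_ne_zero K _)]
  · refine ⟨MvPolynomial.X 0, ?_⟩
    simp [theta, cc]
  · refine ⟨MvPolynomial.X 1, ?_⟩
    simp [theta, cc]

theorem relσ [CharP K 2] (σ : Equiv.Perm (Fin 3)) :
    xL K (σ 0) ^ 2 * yL K (σ 0) + xL K (σ 1) ^ 2 * yL K (σ 1) + xL K (σ 2) ^ 2 * yL K (σ 2) = 0 := by
  rw [← Fin.sum_univ_three (fun i => xL K (σ i) ^ 2 * yL K (σ i))]
  rw [Equiv.sum_comp σ (fun i => xL K i ^ 2 * yL K i)]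
  exact relL K

theorem two_eq_zero_L [CharP K 2] : (2 : LL K) = 0 := by
  have h2 : (2 : K) = 0 := by
    have := CharP.cast_eq_zero K 2
    exact_mod_cast this
  have := congrArg (algebraMap K (LL K)) h2
  rwa [map_ofNat, map_zero] at this

theorem y0_div [CharP K 2] (σ : Equiv.Perm (Fin 3)) :
    yL K (σ 0) / yL K (σ 1) = cc K σ 0 ^ 2 + cc K σ 1 ^ 2 * cc K σ 2 := by
  have h := relσ K σ
  have h0 := xL_ne_zero K (σ 0)
  have h1 := yL_ne_zero K (σ 1)
  have h2 := two_eq_zero_L K
  simp only [cc, Matrix.cons_val_zero, Matrix.cons_val_one, Matrix.cons_val]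
  field_simp
  linear_combination h - (xL K (σ 1) ^ 2 * yL K (σ 1) + xL K (σ 2) ^ 2 * yL K (σ 2)) * h2

theorem y_div_mem [CharP K 2] (σ : Equiv.Perm (Fin 3)) (i : Fin 3) :
    yL K i / yL K (σ 1) ∈ (theta K σ).range := by
  obtain ⟨i, rfl⟩ := σ.surjective i
  fin_cases i
  · refine ⟨MvPolynomial.X 0 ^ 2 + MvPolynomial.X 1 ^ 2 * MvPolynomial.X 2, ?_⟩
    simp only [Fin.zero_eta, Fin.isValue, y0_div, theta]
    simp
  · refine ⟨1, ?_⟩
    simp [theta, div_self (yL_ne_zero K _)]
  · refine ⟨MvPolynomial.X 2, ?_⟩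
    simp [theta, cc]

theorem algInd_base :
    AlgebraicIndependent K (fun i : Fin 3 => algebraMap (RR K) (LL K) (MvPolynomial.X i)) :=
  (MvPolynomial.algebraicIndependent_X (Fin 3) K).map' (f := IsScalarTower.toAlgHom K (RR K) (LL K))
    (IsFractionRing.injective (RR K) (LL K))

theorem trBasis_base :
    IsTranscendenceBasis K (fun i : Fin 3 => algebraMap (RR K) (LL K) (MvPolynomial.X i)) :=
  haveI : Algebra.IsAlgebraic (RR K) (LL K) := IsLocalization.isAlgebraic _ (nonZeroDivisors (RR K))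
  (IsTranscendenceBasis.mvPolynomial (Fin 3) K).algebraMap_comp

theorem cc_isTranscendenceBasis [CharP K 2] (σ : Equiv.Perm (Fin 3)) :
    IsTranscendenceBasis K (cc K σ) := by
  have hr : Algebra.adjoin K (Set.range (cc K σ)) = (theta K σ).range :=
    Algebra.adjoin_range_eq_range_aeval K (cc K σ)
  have halg : ∀ p q : LL K, p ∈ (theta K σ).range → q ∈ (theta K σ).range →
      IsAlgebraic (Algebra.adjoin K (Set.range (cc K σ))) (p / q) := by
    intro p q hp hq
    rw [← hr] at hp hq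
    rw [div_eq_mul_inv]
    exact (isAlgebraic_algebraMap (⟨p, hp⟩ : Algebra.adjoin K (Set.range (cc K σ)))).mul
      (isAlgebraic_algebraMap (⟨q, hq⟩ : Algebra.adjoin K (Set.range (cc K σ)))).inv
  have h0 := xL_ne_zero K (σ 0)
  have h1 := yL_ne_zero K (σ 1)
  have : Algebra.IsAlgebraic (Algebra.adjoin K (Set.range (cc K σ))) (LL K) := by
    rw [(trBasis_base K).isAlgebraic_iff]
    intro i
    fin_cases i
    · have := halg _ _ (x_div_mem K σ 1) (x_div_mem K σ 0)
      rw [div_div_div_cancel_right₀ h0] at this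
      simpa [xL, xx] using this
    · have := halg _ _ (x_div_mem K σ 2) (x_div_mem K σ 0)
      rw [div_div_div_cancel_right₀ h0] at this
      simpa [xL, xx] using this
    · have := halg _ _ (y_div_mem K σ 2) (y_div_mem K σ 1)
      rw [div_div_div_cancel_right₀ h1] at this
      simpa [yL, yy] using this
  apply Algebra.IsAlgebraic.isTranscendenceBasis_of_le_trdeg_of_finite
  exact (algInd_base K).cardinalMk_le_trdeg

theorem theta_injective [CharP K 2] (σ : Equiv.Perm (Fin 3)) : Function.Injective (theta K σ) :=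
  (cc_isTranscendenceBasis K σ).1

end Pool.Agent.MP7b039f
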