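import Pool.Agent.MP7b039f.ChartEquiv

open Polynomial DirectSum CategoryTheory AlgebraicGeometry TopologicalSpace Opposite

noncomputable section

namespace Pool.Agent.MP7b039f

variable (K : Type) [Field K]

theorem mem_DD (i : Idx) (p : VV K) : p ∈ DD K i ↔ XX K i ∉ p.asHomogeneousIdeal := Iff.rfl

theorem XX_mul_XX (i j : Idx) : XX K i * XX K j ∈ gr (MM K) 2 :=
  SetLike.mul_mem_graded (XX_mem K i) (XX_mem K j)

theorem XX_mul_XX_mul_XX (i j k : Idx) : XX K i * XX K j * XX K k ∈ gr (MM K) 3 :=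
  SetLike.mul_mem_graded (XX_mul_XX K i j) (XX_mem K k)

theorem segre (i a b c j d e k f : Fin 3) :
    XX K (i, a, b) * XX K (c, j, d) * XX K (e, k, f) =
      XX K (i, j, k) * XX K (c, a, b) * XX K (e, d, f) := by
  apply eq_of_ev1 (XX_mul_XX_mul_XX K _ _ _) (XX_mul_XX_mul_XX K _ _ _)
  simp only [map_mul, ev1_XX, mm]
  ring

/-- `x_i ≠ 0` at `p`. -/
def AX (p : VV K) (i : Fin 3) : Prop := ∃ j k, p ∈ DD K (i, j, k)
/-- `y_j ≠ 0` at `p`. -/
def BY (p : VV K) (j : Fin 3) : Prop := ∃ i k, p ∈ DD K (i, j, k)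

theorem mem_DD_iff (p : VV K) (i j k : Fin 3) : p ∈ DD K (i, j, k) ↔ AX K p i ∧ BY K p j ∧ BY K p k := by
  constructor
  · intro h
    refine ⟨⟨j, k, h⟩, ⟨i, k, h⟩, ⟨i, j, ?_⟩⟩
    have h1 : XX K (i, k, j) = XX K (i, j, k) := by
      apply eq_of_ev1 (XX_mem K _) (XX_mem K _)
      simp only [ev1_XX, mm]
      ring
    rw [mem_DD, h1]
    exact h
  · rintro ⟨⟨a, b, h1⟩, ⟨c, d, h2⟩, ⟨e, f, h3⟩⟩
    rw [mem_DD] at *
    intro h
    have h4 := p.isPrime
    have h5 : XX K (i, a, b) * XX K (c, j, d) * XX K (e, k, f) ∈ p.asHomogeneousIdeal.toIdeal := by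
      rw [segre]
      exact Ideal.mul_mem_right _ _ (Ideal.mul_mem_right _ _ h)
    rcases h4.mem_or_mem h5 with h6 | h6
    · rcases h4.mem_or_mem h6 with h7 | h7
      · exact h1 h7
      · exact h2 h7
    · exact h3 h6

theorem mono_add {M : Submodule K (RR K)} {d : ℕ} {r s : RR K} (hr : r ∈ M ^ d) (hs : s ∈ M ^ d)
    (h : r + s ∈ M ^ d) : mono M d (r + s) h = mono M d r hr + mono M d s hs := by
  apply Subtype.ext
  simp [map_add]

theorem mono_smul {M : Submodule K (RR K)} {d : ℕ} {r : RR K} (hr : r ∈ M ^ d) (c : K)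
    (h : c • r ∈ M ^ d) : mono M d (c • r) h = c • mono M d r hr := by
  apply Subtype.ext
  change monomial d (c • r) = c • monomial d r
  rw [smul_monomial]

theorem mono_mul {M : Submodule K (RR K)} {d e : ℕ} {r s : RR K} (hr : r ∈ M ^ d) (hs : s ∈ M ^ e)
    (h : r * s ∈ M ^ (d + e)) : mono M (d + e) (r * s) h = mono M d r hr * mono M e s hs := by
  apply Subtype.ext
  simp [monomial_mul_monomial]

theorem mono_one_mem (b : RR K) (hb : b ∈ MM K) :
    ∀ h, mono (MM K) 1 b h ∈ Ideal.span (Set.range (XX K)) := by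
  have key : ∀ b (_ : b ∈ Submodule.span K (Set.range (mm K))) h,
      mono (MM K) 1 b h ∈ Ideal.span (Set.range (XX K)) := by
    intro b hb
    induction hb using Submodule.span_induction with
    | mem x hx =>
      obtain ⟨i, rfl⟩ := hx
      intro h
      exact Ideal.subset_span ⟨i, rfl⟩
    | zero =>
      intro h
      have : mono (MM K) 1 0 h = 0 := by apply Subtype.ext; simp
      rw [this]
      exact zero_mem _
    | add x y hx hy ihx ihy =>
      intro h
      rw [mono_add K (by rw [pow_one]; exact hx) (by rw [pow_one]; exact hy)]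
      exact add_mem (ihx _) (ihy _)
    | smul c x hx ih =>
      intro h
      rw [mono_smul K (by rw [pow_one]; exact hx), Algebra.smul_def]
      exact Ideal.mul_mem_left _ _ (ih _)
  exact key b hb

theorem mono_mem_span (d : ℕ) (r : RR K) (hr : r ∈ MM K ^ (d + 1)) :
    mono (MM K) (d + 1) r hr ∈ Ideal.span (Set.range (XX K)) := by
  have key : ∀ r (_ : r ∈ MM K ^ d * MM K) (h : r ∈ MM K ^ (d + 1)),
      mono (MM K) (d + 1) r h ∈ Ideal.span (Set.range (XX K)) := by
    intro r hr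
    induction hr using Submodule.mul_induction_on' with
    | mem_mul_mem p hp q hq =>
      intro h
      rw [mono_mul K hp (by rw [pow_one]; exact hq)]
      exact Ideal.mul_mem_left _ _ (mono_one_mem K q hq _)
    | add p hp q hq ihp ihq =>
      intro h
      rw [← pow_succ] at hp hq
      rw [mono_add K hp hq]
      exact add_mem (ihp _) (ihq _)
  exact key r (by rwa [← pow_succ]) hr

theorem irrelevant_le_span :
    (HomogeneousIdeal.irrelevant (gr (MM K))).toIdeal ≤ Ideal.span (Set.range (XX K)) := by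
  classical
  intro z hz
  rw [HomogeneousIdeal.mem_iff, HomogeneousIdeal.mem_irrelevant_iff] at hz
  rw [← DirectSum.sum_support_decompose (gr (MM K)) z]
  refine Ideal.sum_mem _ fun d hd => ?_
  rcases d with _ | d
  · rw [GradedRing.proj_apply] at hz
    rw [hz]
    exact zero_mem _
  · have h1 := (DirectSum.decompose (gr (MM K)) z (d + 1)).2
    rw [eq_mono_of_mem_gr h1]
    exact mono_mem_span K d _ _

theorem exists_mem_DD (p : VV K) : ∃ i, p ∈ DD K i := by
  have h := Proj.iSup_basicOpen_eq_top (gr (MM K)) (XX K) (irrelevant_le_span K)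
  have h1 : p ∈ (⊤ : (VV K).Opens) := trivial
  rw [← h, Opens.mem_iSup] at h1
  exact h1

theorem two_smul_eq_zero [CharP K 2] (z : reesSub (MM K)) : z + z = 0 := by
  have h2 : (2 : K) = 0 := by
    have := CharP.cast_eq_zero K 2
    exact_mod_cast this
  rw [← two_smul K z, h2, zero_smul]

theorem exists_BY_ne [CharP K 2] (p : VV K) (i : Fin 3) (hi : AX K p i) : ∃ j, j ≠ i ∧ BY K p j := by
  by_contra h
  push Not at h
  obtain ⟨j, k, hjk⟩ := hi
  have hj : j = i := by
    by_contra hj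
    exact h j hj ⟨i, k, hjk⟩
  have hk : k = i := by
    by_contra hk
    exact h k hk ((mem_DD_iff K p i j k).mp hjk).2.2
  rw [hj, hk] at hjk
  apply hjk
  have hmem : ∀ j, j ≠ i → XX K (j, j, i) ∈ p.asHomogeneousIdeal.toIdeal := by
    intro j hj
    by_contra h1
    exact h j hj ⟨j, i, h1⟩
  have hrel : XX K (i, i, i) * XX K (i, i, i) + ∑ j ∈ Finset.univ.erase i,
      XX K (j, j, i) * XX K (j, i, i) = 0 := by
    apply eq_of_ev1 (d := 2)
    · exact add_mem (XX_mul_XX K _ _) (sum_mem fun j _ => XX_mul_XX K _ _)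
    · exact zero_mem _
    · rw [map_add, map_sum, map_zero]
      simp only [map_mul, ev1_XX, mm]
      have h3 : xx K i * yy K i * yy K i * (xx K i * yy K i * yy K i) =
          (xx K i * yy K i * yy K i) * (xx K i * yy K i * yy K i) := rfl
      have h4 := rel_xy K
      rw [← Fin.sum_univ_three (fun i => xx K i ^ 2 * yy K i), ← Finset.add_sum_erase _ _
        (Finset.mem_univ i)] at h4
      have h5 : ∑ x ∈ Finset.univ.erase i, xx K x * yy K x * yy K i * (xx K x * yy K i * yy K i) =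
          yy K i ^ 3 * ∑ x ∈ Finset.univ.erase i, xx K x ^ 2 * yy K x := by
        rw [Finset.mul_sum]
        refine Finset.sum_congr rfl fun x _ => ?_
        ring
      rw [h5]
      linear_combination yy K i ^ 3 * h4
  have h6 : XX K (i, i, i) * XX K (i, i, i) ∈ p.asHomogeneousIdeal.toIdeal := by
    rw [eq_neg_of_add_eq_zero_left hrel]
    refine neg_mem (sum_mem fun j hj => Ideal.mul_mem_right _ _ (hmem j (Finset.ne_of_mem_erase hj)))
  rcases p.isPrime.mem_or_mem h6 with h7 | h7 <;> exact h7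

theorem exists_perm : ∀ i j : Fin 3, j ≠ i → ∃ σ : Equiv.Perm (Fin 3), σ 0 = i ∧ σ 1 = j := by
  decide

theorem exists_chart [CharP K 2] (p : VV K) :
    ∃ σ : Equiv.Perm (Fin 3), p ∈ DD K (σ 0, σ 1, σ 1) := by
  obtain ⟨⟨i, j, k⟩, hi⟩ := exists_mem_DD K p
  have hA : AX K p i := ⟨j, k, hi⟩
  obtain ⟨l, hl, hB⟩ := exists_BY_ne K p i hA
  obtain ⟨σ, h0, h1⟩ := exists_perm i l hl
  refine ⟨σ, ?_⟩
  rw [mem_DD_iff, h0, h1]
  exact ⟨hA, hB, hB⟩

end Pool.Agent.MP7b039f
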