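import Mathlib

/-!
Definitions used in the statement.  Everything else is Mathlib.
-/

open CategoryTheory AlgebraicGeometry TopologicalSpace Opposite
open scoped Polynomial

noncomputable section

namespace Pool.Agent.MP7b039f

attribute [local instance] MvPolynomial.gradedAlgebra

/-! ### Schemes -/

/-- The spectrum of the field `K`. -/
abbrev SpecF (K : Type) [Field K] : Scheme.{0} := Spec (.of K)

/-- The underlying topological space of the scheme `V`. -/
abbrev Pts (V : Scheme.{0}) : Type := V

/-- The set of points of `V` in the image of the morphism `x : S ⟶ V`. -/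
def image {S V : Scheme.{0}} (x : S ⟶ V) : Set (Pts V) := Set.range x

/-- The ring of global functions on the scheme `S`. -/
abbrev Glob (S : Scheme.{0}) : CommRingCat.{0} := Γ(S, ⊤)

/-- Pullback of sections of the structure sheaf under a morphism `φ`. -/
def pull {V W : Scheme.{0}} (φ : V ⟶ W) (U : W.Opens) : Γ(W, U) → Γ(V, φ ⁻¹ᵁ U) := (φ.app U).hom

/-! ### Projective space over a field -/

/-- Projective space over the field `K` with homogeneous coordinates `X i`, `i : ι`, that is
`Proj K[X i : i ∈ ι]`. -/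
abbrev PSpace (ι : Type) (K : Type) [Field K] : Scheme.{0} :=
  Proj (MvPolynomial.homogeneousSubmodule ι K)

/-- The inclusion of `K` in the degree zero part of the polynomial ring. -/
def const (ι : Type) (K : Type) [Field K] :
    CommRingCat.of K ⟶ CommRingCat.of (MvPolynomial.homogeneousSubmodule ι K 0) :=
  CommRingCat.ofHom (algebraMap K (MvPolynomial.homogeneousSubmodule ι K 0))

/-- The structure morphism of projective space. -/
def PSpace.toSpec (ι : Type) (K : Type) [Field K] : PSpace ι K ⟶ SpecF K :=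
  Proj.toSpecZero (MvPolynomial.homogeneousSubmodule ι K) ≫ Spec.map (const ι K)

/-- The standard affine open `D₊(X i)` of projective space. -/
def PSpace.chart (ι : Type) (K : Type) [Field K] (i : ι) : (PSpace ι K).Opens :=
  Proj.basicOpen (MvPolynomial.homogeneousSubmodule ι K) (MvPolynomial.X i)

section generic

variable {σ A : Type} [CommRing A] [SetLike σ A] [AddSubgroupClass σ A] (𝒜 : ℕ → σ) [GradedRing 𝒜]

/-- For elements `r`, `s` of degree one, the section `r / s` of the structure sheaf of `Proj 𝒜`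
over `D₊(s)`. -/
def frac {r s : A} (hr : r ∈ 𝒜 1) (hs : s ∈ 𝒜 1) : Γ(Proj 𝒜, Proj.basicOpen 𝒜 s) :=
  (Proj.awayToSection 𝒜 s).hom (HomogeneousLocalization.Away.mk 𝒜 hs 1 r hr)

end generic

/-- The section `X j / X i` of the structure sheaf of projective space over `D₊(X i)`. -/
def PSpace.ratio (ι : Type) (K : Type) [Field K] (j i : ι) :
    Γ(PSpace ι K, PSpace.chart ι K i) :=
  frac (MvPolynomial.homogeneousSubmodule ι K) (MvPolynomial.isHomogeneous_X K j)
    (MvPolynomial.isHomogeneous_X K i)

/-- The ring homomorphism from `K` to the ring of functions on `Spec K`. -/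
def toFunctions (K : Type) [Field K] : K →+* Glob (SpecF K) := (Scheme.ΓSpecIso (.of K)).inv.hom

section generic

variable {σ A : Type} [CommRing A] [SetLike σ A] [AddSubgroupClass σ A] (𝒜 : ℕ → σ) [GradedRing 𝒜]
  {K : Type} [Field K]

/-- A homomorphism `e : A → K` which does not vanish on `𝒜 1` does not kill the irrelevant
ideal. -/
theorem map_irrelevant (e : A →+* K) (h : ∃ s ∈ 𝒜 1, e s ≠ 0) :
    Ideal.map ((toFunctions K).comp e) (HomogeneousIdeal.irrelevant 𝒜).toIdeal = ⊤ := by
  obtain ⟨s, hs, hi⟩ := h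
  apply Ideal.eq_top_of_isUnit_mem _ (x := toFunctions K (e s))
  · have h : s ∈ (HomogeneousIdeal.irrelevant 𝒜).toIdeal := by
      rw [HomogeneousIdeal.mem_iff, HomogeneousIdeal.mem_irrelevant_iff, GradedRing.proj_apply]
      exact DirectSum.decompose_of_mem_ne _ hs one_ne_zero
    exact Ideal.mem_map_of_mem ((toFunctions K).comp e) h
  · exact (IsUnit.mk0 (e s) hi).map _

/-- The `K`-point of `Proj 𝒜` given by a homomorphism `e : A → K` which does not vanish on
`𝒜 1`. -/
def projPoint (e : A →+* K) (h : ∃ s ∈ 𝒜 1, e s ≠ 0) : SpecF K ⟶ Proj 𝒜 :=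
  Proj.fromOfGlobalSections 𝒜 ((toFunctions K).comp e) (map_irrelevant 𝒜 e h)

end generic

/-- Evaluation of polynomials at a nonzero vector `a` does not vanish on the linear forms. -/
theorem exists_eval_ne_zero {ι K : Type} [Field K] (a : ι → K) (ha : a ≠ 0) :
    ∃ s ∈ MvPolynomial.homogeneousSubmodule ι K 1, MvPolynomial.eval a s ≠ 0 := by
  obtain ⟨i, hi⟩ := Function.ne_iff.mp ha
  exact ⟨MvPolynomial.X i, MvPolynomial.isHomogeneous_X K i, by simpa using hi⟩

/-- The `K`-point of projective space with homogeneous coordinates `a : ι → K`, `a ≠ 0`. -/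
def PSpace.point {ι K : Type} [Field K] (a : ι → K) (ha : a ≠ 0) : SpecF K ⟶ PSpace ι K :=
  projPoint (MvPolynomial.homogeneousSubmodule ι K) (MvPolynomial.eval a)
    (exists_eval_ne_zero a ha)

/-! ### Differential forms of degree `d` -/

section forms

/-- A formal sum of expressions `a dx₁ ∧ ⋯ ∧ dx_d`, as the list of the `(a, (x₁, …, x_d))`. -/
abbrev FormalForm (A : Type) (d : ℕ) : Type := List (A × (Fin d → A))

/-- The image of a formal sum `∑ a dx₁ ∧ ⋯ ∧ dx_d` under a map `g : A → B`, that is
`∑ g(a) dg(x₁) ∧ ⋯ ∧ dg(x_d)`. -/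
def FormalForm.push {A B : Type} {d : ℕ} (g : A → B) (L : FormalForm A d) : FormalForm B d :=
  List.map (fun p => (g p.1, g ∘ p.2)) L

variable (K : Type) {A : Type} [CommRing K] [CommRing A] [Algebra K A] {d : ℕ}

/-- The element `dx₁ ∧ ⋯ ∧ dx_d` of the exterior algebra of `Ω_{A/K}`. -/
def vol (x : Fin d → A) : ExteriorAlgebra A (Ω[A⁄K]) :=
  ExteriorAlgebra.ιMulti A d (fun k => KaehlerDifferential.D K A (x k))

/-- The element `∑ a dx₁ ∧ ⋯ ∧ dx_d` of the exterior algebra of `Ω_{A/K}`. -/
def FormalForm.value (L : FormalForm A d) : ExteriorAlgebra A (Ω[A⁄K]) :=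
  (List.map (fun p => p.1 • vol K p.2) L).sum

/-- The differential form `ω = ∑ a dx₁ ∧ ⋯ ∧ dx_d` generates the `A`-module `⋀^d Ω_{A/K}`. -/
def FormalForm.Generates (L : FormalForm A d) : Prop :=
  Submodule.span A {L.value K} = ⋀[A]^d (Ω[A⁄K])

/-- The equation `ω = r • ω'` between differential forms of degree `d` of `A` over `K`. -/
def FormalForm.EqSMul (L : FormalForm A d) (r : A) (L' : FormalForm A d) : Prop :=
  L.value K = r • L'.value K

end forms

/-! ### Anticanonical embeddings -/

section sections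

variable {K : Type} [Field K] {V : Scheme.{0}} (f : V ⟶ SpecF K)

/-- The ring homomorphism `K → Γ(U, 𝒪_V)` given by the structure morphism `f : V ⟶ Spec K`. -/
def scalars (U : V.Opens) : K →+* Γ(V, U) :=
  ((Scheme.ΓSpecIso (.of K)).inv ≫ f.appLE ⊤ U le_top).hom

/-- The sections of `𝒪_V` over `U`, as a `K`-algebra (via the structure morphism
`f : V ⟶ Spec K`). -/
def Sec (_f : V ⟶ SpecF K) (U : V.Opens) : Type := Γ(V, U)

instance (U : V.Opens) : CommRing (Sec f U) := Γ(V, U).commRing

instance (U : V.Opens) : Algebra K (Sec f U) := (scalars f U).toAlgebra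

/-- Restriction of sections. -/
def restr (U U' : V.Opens) (h : U' ≤ U) : Sec f U → Sec f U' :=
  (V.presheaf.map (homOfLE h).op).hom

/-- Restriction of sections from `U` to `U ∩ U'`. -/
def resL (U U' : V.Opens) : Sec f U → Sec f (U ⊓ U') := restr f _ _ inf_le_left

/-- Restriction of sections from `U'` to `U ∩ U'`. -/
def resR (U U' : V.Opens) : Sec f U' → Sec f (U ⊓ U') := restr f _ _ inf_le_right

/-- The affine open `V_i = φ⁻¹(D₊(X i))` of `V`. -/
abbrev chartOf {ι : Type} (φ : V ⟶ PSpace ι K) (i : ι) : V.Opens := φ ⁻¹ᵁ (PSpace.chart ι K i)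

/-- The section `X j / X i` of `𝒪_V` over `V_i = φ⁻¹(D₊(X i))`. -/
def ratioOn {ι : Type} (φ : V ⟶ PSpace ι K) (j i : ι) : Sec f (chartOf φ i) :=
  pull φ (PSpace.chart ι K i) (PSpace.ratio ι K j i)

/-- Let `f : V ⟶ Spec K` be smooth of relative dimension `d`, and `φ : V ⟶ ℙ` a closed immersion
over `K` in a projective space over `K`.  This says that the canonical sheaf
`ω_V = ⋀^d Ω_{V/K}` is isomorphic to `φ^* 𝒪(-1)`, i.e. that `φ^* 𝒪(1)` is the anticanonical
sheaf: there is a set `I` of indices such that the affine opens `V_i = φ⁻¹(D₊(X i))`, `i ∈ I`,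
cover `V`, and for `i ∈ I` there is a generator `η i` of `ω_V` on `V_i` (the form given by `L i`)
such that `η i = (X j / X i) • η j` on `V_i ∩ V_j` for all `i, j ∈ I` (this is how the generators
`1 / X i` of `𝒪(-1)` on the `D₊(X i)` are related). -/
def IsAnticanonical (d : ℕ) {ι : Type} (φ : V ⟶ PSpace ι K) : Prop :=
  ∃ (I : Set ι) (L : ∀ i : ι, FormalForm (Sec f (chartOf φ i)) d),
    (∀ v : Pts V, ∃ i ∈ I, v ∈ chartOf φ i) ∧
    (∀ i ∈ I, (L i).Generates K) ∧
    (∀ i ∈ I, ∀ j ∈ I,
      ((L i).push (resL f (chartOf φ i) (chartOf φ j))).EqSMul K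
        (resL f (chartOf φ i) (chartOf φ j) (ratioOn f φ j i))
        ((L j).push (resR f (chartOf φ i) (chartOf φ j))))

end sections

/-! ### Cohomology of the structure sheaf -/

/-- The structure sheaf of a scheme, as a sheaf of abelian groups. -/
def structureSheafAb (V : Scheme.{0}) : Sheaf (Opens.grothendieckTopology V) AddCommGrpCat.{0} :=
  (SheafOfModules.toSheaf _).obj (SheafOfModules.unit V.ringCatSheaf)

/-- The `n`-th cohomology group of a sheaf of abelian groups on a topological space `X`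
(Mathlib's sheaf cohomology). -/
def HSheaf {X : TopCat.{0}} (F : Sheaf (Opens.grothendieckTopology X) AddCommGrpCat.{0}) (n : ℕ) :
    Type := Sheaf.H F n

/-- The cohomology group `H^n(V, 𝒪_V)`. -/
def HO (V : Scheme.{0}) (n : ℕ) : Type := HSheaf (structureSheafAb V) n

/-! ### Rational points, heights and the height zeta function over `K = 𝔽₂(t)` -/

/-- The `K`-points of `V` (sections of the structure morphism `f`) that lie in the subset `U`. -/
def RatPoints {K : Type} [Field K] {V : Scheme.{0}} (f : V ⟶ SpecF K) (U : Set (Pts V)) : Type :=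
  {x : SpecF K ⟶ V // x ≫ f = 𝟙 _ ∧ image x ⊆ U}

/-- The set `V(K)` of the `K`-points of `V`, as a subset of `V`. -/
def ratSet {K : Type} [Field K] {V : Scheme.{0}} (f : V ⟶ SpecF K) : Set (Pts V) :=
  ⋃ x : RatPoints f Set.univ, image x.1

/-- The rational function field `𝔽₂(t)`. -/
abbrev F2t : Type := RatFunc (ZMod 2)

/-- Polynomials `a i` in `t` as a vector of elements of `𝔽₂(t)`. -/
def toF2t {ι : Type} (a : ι → (ZMod 2)[X]) : ι → F2t := fun i => algebraMap (ZMod 2)[X] F2t (a i)

/-- The polynomials `a i` are homogeneous coordinates of the `𝔽₂(t)`-point `x` of projective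
space. -/
def HasCoordinates {ι : Type} (x : SpecF F2t ⟶ PSpace ι F2t) (a : ι → (ZMod 2)[X]) : Prop :=
  ∃ h : toF2t a ≠ 0, PSpace.point (toF2t a) h = x

/-- The height of an `𝔽₂(t)`-point of projective space: the least `n` such that the point has
homogeneous coordinates which are polynomials in `t` of degree `≤ n`.  (Coordinates of least degree
are coprime polynomials `a i`, and `max (deg (a i))` is the degree of the pullback of `𝒪(1)` under
the morphism `ℙ¹ → ℙ` over `𝔽₂` extending the point.) -/
def height {ι : Type} (x : SpecF F2t ⟶ PSpace ι F2t) : ℕ :=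
  sInf {n | ∃ a : ι → (ZMod 2)[X], HasCoordinates x a ∧ ∀ i, (a i).natDegree ≤ n}

/-- The term `2^{-r h(φ(x))}` of the height zeta function. -/
def zetaTerm {V : Scheme.{0}} {ι : Type} (φ : V ⟶ PSpace ι F2t) (r : ℝ) (x : SpecF F2t ⟶ V) : ℝ :=
  2 ^ (-(r * height (x ≫ φ)))

/-- The abscissa of convergence `θ_U` of the height zeta function
`ζ_U(s) = ∑_{x ∈ U(K)} 2^{-s h(φ(x))}`, for `K = 𝔽₂(t)`. -/
def abscissa {V : Scheme.{0}} (f : V ⟶ SpecF F2t) {ι : Type} (φ : V ⟶ PSpace ι F2t)
    (U : Set (Pts V)) : EReal :=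
  sInf {σ : EReal | ∃ r : ℝ, σ = r ∧ Summable fun x : RatPoints f U => zetaTerm φ r x.1}

end Pool.Agent.MP7b039f
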