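import Mathlib

open Polynomial

noncomputable section

namespace Pool.Agent.MP7b039f

/-- the naive height of a rational function. -/
def H0 (b : RatFunc (ZMod 2)) : ℕ := max b.num.natDegree b.denom.natDegree

/-- polynomials of degree `< n`. -/
def PD (n : ℕ) : Finset (ZMod 2)[X] :=
  Finset.univ.map ⟨fun c : Fin n → ZMod 2 => (((degreeLTEquiv (ZMod 2) n).symm c :
    degreeLT (ZMod 2) n) : (ZMod 2)[X]), fun c c' h =>
      (degreeLTEquiv (ZMod 2) n).symm.injective (Subtype.ext h)⟩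

theorem card_PD (n : ℕ) : (PD n).card = 2 ^ n := by
  rw [PD, Finset.card_map, Finset.card_univ, Fintype.card_fun, ZMod.card, Fintype.card_fin]

theorem mem_PD (n : ℕ) (p : (ZMod 2)[X]) : p ∈ PD n ↔ p.degree < n := by
  rw [PD, Finset.mem_map]
  constructor
  · rintro ⟨c, -, rfl⟩
    exact mem_degreeLT.1 ((degreeLTEquiv (ZMod 2) n).symm c).2
  · intro h
    refine ⟨degreeLTEquiv (ZMod 2) n ⟨p, mem_degreeLT.2 h⟩, Finset.mem_univ _, ?_⟩
    simp

theorem exists_scale {f g : (ZMod 2)[X]} (hg : g ≠ 0) :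
    ∃ d : (ZMod 2)[X], d ≠ 0 ∧
      f = d * (algebraMap (ZMod 2)[X] (RatFunc (ZMod 2)) f / algebraMap _ _ g).num ∧
      g = d * (algebraMap (ZMod 2)[X] (RatFunc (ZMod 2)) f / algebraMap _ _ g).denom := by
  set b := algebraMap (ZMod 2)[X] (RatFunc (ZMod 2)) f / algebraMap _ _ g with hb
  obtain ⟨d, hd⟩ : b.denom ∣ g := RatFunc.denom_div_dvd f g
  have hden : b.denom ≠ 0 := RatFunc.denom_ne_zero b
  have hd0 : d ≠ 0 := by
    rintro rfl
    exact hg (by rw [hd, mul_zero])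
  refine ⟨d, hd0, ?_, by rw [mul_comm]; exact hd⟩
  have h1 : algebraMap (ZMod 2)[X] (RatFunc (ZMod 2)) b.num / algebraMap _ _ b.denom = b :=
    RatFunc.num_div_denom b
  have hg' : algebraMap (ZMod 2)[X] (RatFunc (ZMod 2)) g ≠ 0 := RatFunc.algebraMap_ne_zero hg
  have hden' : algebraMap (ZMod 2)[X] (RatFunc (ZMod 2)) b.denom ≠ 0 :=
    RatFunc.algebraMap_ne_zero hden
  rw [hb, div_eq_div_iff hden' hg', ← map_mul, ← map_mul] at h1
  have h2 := RatFunc.algebraMap_injective (ZMod 2) h1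
  rw [← hb] at h2
  have h3 : b.denom * (d * b.num) = b.denom * f := by
    rw [mul_comm b.denom f, ← h2]
    conv_rhs => rw [hd]
    ring
  exact (mul_left_cancel₀ hden h3).symm

/-- pairs. -/
def PP (n : ℕ) : Finset ((ZMod 2)[X] × (ZMod 2)[X]) := PD n ×ˢ ((PD n).erase 0)

theorem card_PP (n : ℕ) : (PP n).card = 2 ^ n * (2 ^ n - 1) := by
  rw [PP, Finset.card_product, Finset.card_erase_of_mem, card_PD]
  rw [mem_PD]
  simp

/-- the quotient. -/
def quo (p : (ZMod 2)[X] × (ZMod 2)[X]) : RatFunc (ZMod 2) :=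
  algebraMap (ZMod 2)[X] (RatFunc (ZMod 2)) p.1 / algebraMap _ _ p.2

open Classical in
theorem fiber_le (n : ℕ) (b : RatFunc (ZMod 2)) :
    ((PP n).filter (fun p => quo p = b)).card ≤ 2 ^ (n - H0 b) := by
  rw [← card_PD]
  have key : ∀ p ∈ (PP n).filter (fun p => quo p = b), ∃ d, d ≠ 0 ∧ p.1 = d * b.num ∧
      p.2 = d * b.denom := by
    intro p hp
    rw [Finset.mem_filter, PP, Finset.mem_product, Finset.mem_erase] at hp
    obtain ⟨⟨h1, h2, h3⟩, rfl⟩ := hp
    exact exists_scale h2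
  have hden : b.denom ≠ 0 := RatFunc.denom_ne_zero b
  refine Finset.card_le_card_of_injOn (fun p => p.2 / b.denom) ?_ ?_
  · intro p hp
    obtain ⟨d, hd, h1, h2⟩ := key p hp
    have h3 : p.2 / b.denom = d := by
      rw [h2, mul_div_cancel_right₀ _ hden]
    change p.2 / b.denom ∈ PD (n - H0 b)
    rw [h3, mem_PD, degree_eq_natDegree hd]
    have hp' := Finset.mem_coe.1 hp
    rw [Finset.mem_filter, PP, Finset.mem_product, Finset.mem_erase, mem_PD, mem_PD] at hp'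
    obtain ⟨⟨h4, h5, h6⟩, -⟩ := hp'
    have h7 : d.natDegree + b.denom.natDegree < n := by
      rw [← natDegree_mul hd hden, ← h2]
      rwa [degree_eq_natDegree h5, Nat.cast_lt] at h6
    have h8 : d.natDegree + b.num.natDegree < n := by
      by_cases h0 : b.num = 0
      · rw [h0, natDegree_zero]; omega
      · rw [← natDegree_mul hd h0, ← h1]
        have : p.1 ≠ 0 := by rw [h1]; exact mul_ne_zero hd h0
        rwa [degree_eq_natDegree this, Nat.cast_lt] at h4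
    rw [Nat.cast_lt, H0]
    omega
  · intro p hp q hq hpq
    obtain ⟨d, hd, h1, h2⟩ := key p hp
    obtain ⟨d', hd', h1', h2'⟩ := key q hq
    simp only at hpq
    rw [h2, h2', mul_div_cancel_right₀ _ hden, mul_div_cancel_right₀ _ hden] at hpq
    subst hpq
    exact Prod.ext (h1.trans h1'.symm) (h2.trans h2'.symm)

theorem H0_lt (n : ℕ) (p : (ZMod 2)[X] × (ZMod 2)[X]) (hp : p ∈ PP n) : H0 (quo p) < n := by
  rw [PP, Finset.mem_product, Finset.mem_erase, mem_PD, mem_PD] at hp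
  obtain ⟨h4, h5, h6⟩ := hp
  obtain ⟨d, hd, h1, h2⟩ := exists_scale (f := p.1) h5
  change p.1 = d * (quo p).num at h1
  change p.2 = d * (quo p).denom at h2
  have hden : (quo p).denom ≠ 0 := RatFunc.denom_ne_zero _
  have h7 : d.natDegree + (quo p).denom.natDegree < n := by
    rw [← natDegree_mul hd hden, ← h2]
    rwa [degree_eq_natDegree h5, Nat.cast_lt] at h6
  have h8 : d.natDegree + (quo p).num.natDegree < n := by
    by_cases h0 : (quo p).num = 0
    · rw [h0, natDegree_zero]; omega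
    · rw [← natDegree_mul hd h0, ← h1]
      have : p.1 ≠ 0 := by rw [h1]; exact mul_ne_zero hd h0
      rwa [degree_eq_natDegree this, Nat.cast_lt] at h4
  rw [H0]
  omega

open Classical in
theorem lower (n : ℕ) (hn : 0 < n) :
    (2 : ℝ) ^ n - 1 ≤ ∑ b ∈ (PP n).image quo, (2 : ℝ) ^ (-(H0 b : ℝ)) := by
  have h1 : (PP n).card = ∑ b ∈ (PP n).image quo, ((PP n).filter (fun p => quo p = b)).card :=
    Finset.card_eq_sum_card_image quo (PP n)
  have h2 : ((2 : ℝ) ^ n * (2 ^ n - 1)) ≤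
      ∑ b ∈ (PP n).image quo, (2 : ℝ) ^ n * (2 : ℝ) ^ (-(H0 b : ℝ)) := by
    have h3 : ((PP n).card : ℝ) = (2 : ℝ) ^ n * (2 ^ n - 1) := by
      rw [card_PP]
      push_cast [Nat.one_le_two_pow]
      ring
    rw [← h3, h1]
    push_cast
    refine Finset.sum_le_sum fun b hb => ?_
    obtain ⟨p, hp, rfl⟩ := Finset.mem_image.1 hb
    have h4 := H0_lt n p hp
    have h5 : ((2 : ℝ) ^ n * (2 : ℝ) ^ (-(H0 (quo p) : ℝ))) = (2 : ℝ) ^ (n - H0 (quo p)) := by
      rw [← Real.rpow_natCast, ← Real.rpow_natCast, ← Real.rpow_add two_pos,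
        Nat.cast_sub h4.le]
      rfl
    rw [h5]
    exact_mod_cast fiber_le n (quo p)
  rw [← Finset.mul_sum] at h2
  exact le_of_mul_le_mul_left h2 (by positivity)

theorem not_summable_H0 (r : ℝ) (h1 : 1 ≤ r) (h2 : r < 2) :
    ¬ Summable (fun b : RatFunc (ZMod 2) => (2 : ℝ) ^ (-(r * (H0 b : ℝ)))) := by
  classical
  intro hs
  set T := ∑' b : RatFunc (ZMod 2), (2 : ℝ) ^ (-(r * (H0 b : ℝ))) with hT
  have key : ∀ n : ℕ, 0 < n → (2 : ℝ) ^ n - 1 ≤ (2 : ℝ) ^ ((r - 1) * n) * T := by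
    intro n hn
    refine (lower n hn).trans ?_
    have h3 : ∑ b ∈ (PP n).image quo, (2 : ℝ) ^ (-(H0 b : ℝ)) ≤
        ∑ b ∈ (PP n).image quo, (2 : ℝ) ^ ((r - 1) * n) * (2 : ℝ) ^ (-(r * (H0 b : ℝ))) := by
      refine Finset.sum_le_sum fun b hb => ?_
      obtain ⟨p, hp, rfl⟩ := Finset.mem_image.1 hb
      have h4 : (H0 (quo p) : ℝ) ≤ n := by exact_mod_cast (H0_lt n p hp).le
      rw [← Real.rpow_add two_pos]
      apply Real.rpow_le_rpow_of_exponent_le one_le_two
      nlinarith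
    refine h3.trans ?_
    rw [← Finset.mul_sum]
    refine mul_le_mul_of_nonneg_left ?_ (by positivity)
    exact hs.sum_le_tsum _ (fun b _ => by positivity)
  -- contradiction
  have hlim : Filter.Tendsto (fun n : ℕ => (2 : ℝ) ^ ((2 - r) * n)) Filter.atTop Filter.atTop := by
    have : Filter.Tendsto (fun n : ℕ => ((2 : ℝ) ^ (2 - r)) ^ n) Filter.atTop Filter.atTop :=
      tendsto_pow_atTop_atTop_of_one_lt (Real.one_lt_rpow one_lt_two (by linarith))
    refine this.congr fun n => ?_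
    rw [← Real.rpow_natCast, ← Real.rpow_mul zero_le_two]
  obtain ⟨n, hn, hn0⟩ := ((hlim.eventually_gt_atTop (2 * T)).and
    (Filter.eventually_gt_atTop 0)).exists
  have h5 := key n hn0
  have h6 : (2 : ℝ) ^ n ≤ 2 * ((2 : ℝ) ^ n - 1) := by
    have : (2 : ℝ) ≤ 2 ^ n := by
      calc (2 : ℝ) = 2 ^ 1 := (pow_one _).symm
        _ ≤ 2 ^ n := pow_le_pow_right₀ one_le_two hn0
    linarith
  have h7 : (2 : ℝ) ^ n = (2 : ℝ) ^ ((r - 1) * n) * (2 : ℝ) ^ ((2 - r) * n) := by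
    rw [← Real.rpow_natCast, ← Real.rpow_add two_pos]
    congr 1
    ring
  have h8 : (0 : ℝ) < (2 : ℝ) ^ ((r - 1) * n) := by positivity
  have h9 : (2 : ℝ) ^ ((r - 1) * n) * (2 : ℝ) ^ ((2 - r) * n) ≤
      (2 : ℝ) ^ ((r - 1) * n) * (2 * T) := by
    rw [← h7]; linarith
  have := le_of_mul_le_mul_left h9 h8
  linarith

end Pool.Agent.MP7b039f
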