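import Pool.Agent.MP7b039f.ChartMap

open CategoryTheory AlgebraicGeometry Limits TopologicalSpace HomogeneousLocalization
open scoped HomogeneousIdeal

noncomputable section

namespace Pool.Agent.MP7b039f

attribute [local instance] MvPolynomial.gradedAlgebra

variable (K : Type) [Field K] {ι : Type} (e : ι ≃ Idx)

/-- the map of rings of the embedding. -/
def PhiA : MvPolynomial ι K →ₐ[K] reesSub (MM K) := MvPolynomial.aeval fun i => XX K (e i)

theorem PhiA_X (i : ι) : PhiA K e (MvPolynomial.X i) = XX K (e i) := by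
  rw [PhiA, MvPolynomial.aeval_X]

theorem PhiA_mem {d : ℕ} {p : MvPolynomial ι K}
    (hp : p ∈ MvPolynomial.homogeneousSubmodule ι K d) : PhiA K e p ∈ gr (MM K) d := by
  rw [MvPolynomial.as_sum p, map_sum]
  refine Submodule.sum_mem _ fun m hm => ?_
  rw [PhiA, MvPolynomial.aeval_monomial]
  have h1 : ∏ i ∈ m.support, XX K (e i) ^ (m i) ∈ gr (MM K) (∑ i ∈ m.support, m i • 1) :=
    SetLike.prod_mem_graded (gr (MM K)) _ _
      fun i _ => SetLike.pow_mem_graded _ (XX_mem K (e i))
  have h2 : ∑ i ∈ m.support, m i • 1 = d := by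
    have := (MvPolynomial.mem_homogeneousSubmodule d p).1 hp (MvPolynomial.mem_support_iff.1 hm)
    rw [← this, Finsupp.weight_apply, Finsupp.sum]
    simp
  rw [h2] at h1
  rw [← Algebra.smul_def]
  exact Submodule.smul_mem _ _ h1

/-- the graded ring homomorphism of the embedding. -/
def Phi : MvPolynomial.homogeneousSubmodule ι K →+*ᵍ gr (MM K) where
  toRingHom := (PhiA K e).toRingHom
  map_mem := PhiA_mem K e

theorem Phi_apply (p : MvPolynomial ι K) : Phi K e p = PhiA K e p := rfl

theorem Phi_X (i : ι) : Phi K e (MvPolynomial.X i) = XX K (e i) := PhiA_X K e i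

theorem exists_one (b : RR K) (hb : b ∈ MM K) :
    ∃ p ∈ MvPolynomial.homogeneousSubmodule ι K 1, ∀ h, PhiA K e p = mono (MM K) 1 b h := by
  have key : ∀ b (_ : b ∈ Submodule.span K (Set.range (mm K))),
      ∃ p ∈ MvPolynomial.homogeneousSubmodule ι K 1, ∀ h, PhiA K e p = mono (MM K) 1 b h := by
    intro b hb
    induction hb using Submodule.span_induction with
    | mem x hx =>
      obtain ⟨i, rfl⟩ := hx
      refine ⟨MvPolynomial.X (e.symm i), MvPolynomial.isHomogeneous_X K _, fun h => ?_⟩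
      rw [PhiA_X, Equiv.apply_symm_apply]
      rfl
    | zero =>
      refine ⟨0, zero_mem _, fun h => ?_⟩
      rw [map_zero]
      apply Subtype.ext
      simp
    | add x y hx hy ihx ihy =>
      obtain ⟨p, hp, hp'⟩ := ihx
      obtain ⟨q, hq, hq'⟩ := ihy
      refine ⟨p + q, add_mem hp hq, fun h => ?_⟩
      rw [mono_add K (by rw [pow_one]; exact hx) (by rw [pow_one]; exact hy), map_add, hp', hq']
    | smul c x hx ih =>
      obtain ⟨p, hp, hp'⟩ := ih
      refine ⟨c • p, Submodule.smul_mem _ _ hp, fun h => ?_⟩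
      rw [mono_smul K (by rw [pow_one]; exact hx), map_smul, hp']
  exact key b hb

theorem exists_hom (d : ℕ) (r : RR K) (hr : r ∈ MM K ^ d) :
    ∃ p ∈ MvPolynomial.homogeneousSubmodule ι K d, PhiA K e p = mono (MM K) d r hr := by
  have key : ∀ d r (_ : r ∈ MM K ^ d),
      ∃ p ∈ MvPolynomial.homogeneousSubmodule ι K d, ∀ h, PhiA K e p = mono (MM K) d r h := by
    intro d
    induction d with
    | zero =>
      intro r hr
      rw [pow_zero, Submodule.mem_one] at hr
      obtain ⟨c, rfl⟩ := hr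
      refine ⟨MvPolynomial.C c, MvPolynomial.isHomogeneous_C _ _, fun h => ?_⟩
      rw [PhiA, MvPolynomial.aeval_C]
      rfl
    | succ d ih =>
      intro r hr
      rw [pow_succ] at hr
      induction hr using Submodule.mul_induction_on' with
      | mem_mul_mem a ha b hb =>
        obtain ⟨p, hp, hp'⟩ := ih a ha
        obtain ⟨q, hq, hq'⟩ := exists_one K e b hb
        refine ⟨p * q, SetLike.mul_mem_graded hp hq, fun h => ?_⟩
        rw [mono_mul K ha (by rw [pow_one]; exact hb), map_mul, hp', hq']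
      | add x hx y hy ihx ihy =>
        obtain ⟨p, hp, hp'⟩ := ihx
        obtain ⟨q, hq, hq'⟩ := ihy
        refine ⟨p + q, add_mem hp hq, fun h => ?_⟩
        rw [mono_add K (by rw [pow_succ]; exact hx) (by rw [pow_succ]; exact hy), map_add, hp', hq']
  obtain ⟨p, hp, hp'⟩ := key d r hr
  exact ⟨p, hp, hp' hr⟩

theorem Phi_surj {d : ℕ} {x : reesSub (MM K)} (hx : x ∈ gr (MM K) d) :
    ∃ p ∈ MvPolynomial.homogeneousSubmodule ι K d, Phi K e p = x := by
  rw [eq_mono_of_mem_gr hx]
  exact exists_hom K e d _ _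

theorem Phi_irrelevant : (gr (MM K))₊ ≤ (MvPolynomial.homogeneousSubmodule ι K)₊.map (Phi K e) := by
  rw [HomogeneousIdeal.irrelevant_le]
  intro i hi x hx
  obtain ⟨p, hp, rfl⟩ := Phi_surj K e hx
  apply Ideal.mem_map_of_mem
  change p ∈ (HomogeneousIdeal.irrelevant _)
  rw [HomogeneousIdeal.mem_irrelevant_iff, GradedRing.proj_apply]
  exact DirectSum.decompose_of_mem_ne _ hp hi.ne'

/-- the embedding. -/
def phi : VV K ⟶ PSpace ι K := Proj.map (Phi K e) (Phi_irrelevant K e)

theorem phi_chart (i : ι) : phi K e ⁻¹ᵁ (PSpace.chart ι K i) = DD K (e i) := by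
  rw [phi, PSpace.chart, Proj.map_preimage_basicOpen, Phi_X, DD]

end Pool.Agent.MP7b039f
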