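import Pool.Agent.MP7b039f.Defs

open KaehlerDifferential

noncomputable section

namespace Pool.Agent.MP7b039f

section span

variable {K A : Type} [CommRing K] [CommRing A] [Algebra K A]

theorem span_D_of_surj (x : Fin 3 → A)
    (hx : Function.Surjective (MvPolynomial.aeval x : MvPolynomial (Fin 3) K →ₐ[K] A)) :
    Submodule.span A (Set.range fun i => D K A (x i)) = ⊤ := by
  rw [eq_top_iff, ← KaehlerDifferential.span_range_derivation K A, Submodule.span_le]
  rintro _ ⟨y, rfl⟩
  obtain ⟨p, rfl⟩ := hx y
  induction p using MvPolynomial.induction_on with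
  | C a =>
    rw [MvPolynomial.aeval_C, Derivation.map_algebraMap]
    exact zero_mem _
  | add p q hp hq =>
    rw [map_add, map_add]
    exact add_mem hp hq
  | mul_X p i hp =>
    rw [map_mul, Derivation.leibniz, MvPolynomial.aeval_X]
    refine add_mem (Submodule.smul_mem _ _ (Submodule.subset_span ⟨i, rfl⟩)) ?_
    exact Submodule.smul_mem _ _ hp

theorem span_wedge (x : Fin 3 → A)
    (hx : Function.Surjective (MvPolynomial.aeval x : MvPolynomial (Fin 3) K →ₐ[K] A)) :
    Submodule.span A {exteriorPower.ιMulti A 3 fun i => D K A (x i)} = ⊤ := by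
  rw [eq_top_iff, ← exteriorPower.ιMulti_span_of_span A 3 _ (span_D_of_surj x hx),
    Submodule.span_le]
  rintro _ ⟨a, ha, rfl⟩
  obtain ⟨α, rfl⟩ := Set.range_subset_range_iff_exists_comp.mp ha
  by_cases hα : Function.Injective α
  · let s : Equiv.Perm (Fin 3) := Equiv.ofBijective α (Finite.injective_iff_bijective.mp hα)
    have h1 : ((fun i => D K A (x i)) ∘ α) = (fun i => D K A (x i)) ∘ s := rfl
    rw [h1, AlternatingMap.map_perm]
    have h2 := Submodule.subset_span (R := A) (s := {exteriorPower.ιMulti A 3 fun i => D K A (x i)})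
      rfl
    rcases Int.units_eq_one_or (Equiv.Perm.sign s) with h | h
    · rw [h, one_smul]; exact h2
    · rw [h, Units.neg_smul, one_smul]; exact Submodule.neg_mem _ h2
  · have : exteriorPower.ιMulti A 3 ((fun i => D K A (x i)) ∘ α) = 0 :=
      AlternatingMap.map_eq_zero_of_not_injective _ _ fun h => hα (Function.Injective.of_comp h)
    rw [this]
    exact zero_mem _

/-- the form `dx₁ ∧ dx₂ ∧ dx₃` generates if the `x_i` generate the algebra. -/
theorem vol_generates (x : Fin 3 → A)
    (hx : Function.Surjective (MvPolynomial.aeval x : MvPolynomial (Fin 3) K →ₐ[K] A)) :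
    FormalForm.Generates K [((1 : A), x)] := by
  have h1 := congrArg (Submodule.map (Submodule.subtype (⋀[A]^3 (Ω[A⁄K])))) (span_wedge x hx)
  rw [Submodule.map_subtype_top, Submodule.map_span, Set.image_singleton] at h1
  rw [FormalForm.Generates, ← h1]
  congr 2
  simp [FormalForm.value, vol]

theorem eval_single (x : Fin 3 → A) :
    FormalForm.value K [((1 : A), x)] =
      ((exteriorPower.ιMulti A 3 fun i => D K A (x i) : ⋀[A]^3 (Ω[A⁄K])) :
        ExteriorAlgebra A (Ω[A⁄K])) := by
  simp [FormalForm.value, vol]

end span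

end Pool.Agent.MP7b039f
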