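import Pool.Agent.MP7b039f.Defs

open CategoryTheory AlgebraicGeometry Limits TopologicalSpace HomogeneousLocalization

noncomputable section

namespace Pool.Agent.MP7b039f

section general

variable {A : Type} [CommRing A] {σ : Type} [SetLike σ A] [AddSubgroupClass σ A]
variable (𝒜 : ℕ → σ) [GradedRing 𝒜]
variable {X : Scheme.{0}} (f : A →+* Γ(X, ⊤))
  (hf : (HomogeneousIdeal.irrelevant 𝒜).toIdeal.map f = ⊤)

theorem isIso_ι_top (X : Scheme.{0}) (U : X.Opens) (hU : U = ⊤) : IsIso U.ι := by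
  subst hU
  exact (inferInstance : IsIso X.topIso.hom)

theorem fromOfGlobalSections_eq {t : A} {d : ℕ} (hd : 0 < d) (ht : t ∈ 𝒜 d) (hu : IsUnit (f t))
    (ψ : Localization.Away t →+* Γ(X, ⊤)) (hψ : ∀ a, ψ (algebraMap A _ a) = f a) :
    Proj.fromOfGlobalSections 𝒜 f hf =
      X.toSpecΓ ≫ Spec.map (CommRingCat.ofHom (ψ.comp
        (algebraMap (Away 𝒜 t) (Localization.Away t)))) ≫ Proj.awayι 𝒜 t ht hd := by
  have hbo : X.basicOpen (f t) = ⊤ := X.basicOpen_of_isUnit hu
  have hiso : IsIso (X.basicOpen (f t)).ι := isIso_ι_top X _ hbo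
  rw [← cancel_epi (X.basicOpen (f t)).ι]
  have h1 : (X.basicOpen (f t)).ι ≫ Proj.fromOfGlobalSections 𝒜 f hf =
      Proj.toBasicOpenOfGlobalSections 𝒜 f rfl hd ht ≫ (Proj.basicOpen 𝒜 t).ι :=
    (Proj.openCoverOfMapIrrelevantEqTop 𝒜 f hf).ι_glueMorphisms _ _ ⟨_, _, hd, ht⟩
  rw [h1, Proj.toBasicOpenOfGlobalSections]
  let lam : Localization.Away (f t) →+* Γ(X, ⊤) :=
    IsLocalization.Away.lift (f t) (g := RingHom.id Γ(X, ⊤)) hu
  have hlam : ∀ a, lam (algebraMap _ _ a) = a := fun a => IsLocalization.Away.lift_eq _ _ a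
  have h2 : (basicOpenIsoSpecAway (R := Γ(X, ⊤)) (f t)).hom =
      Scheme.Opens.ι (X := Spec Γ(X, ⊤)) (PrimeSpectrum.basicOpen (f t)) ≫
        Spec.map (CommRingCat.ofHom lam) := by
    rw [← basicOpenIsoSpecAway_hom_SpecMap, Category.assoc, ← Spec.map_comp,
      ← CommRingCat.ofHom_comp]
    have h3 : (algebraMap Γ(X, ⊤) (Localization.Away (f t))).comp lam = RingHom.id _ := by
      apply IsLocalization.ringHom_ext (M := .powers (f t))
      ext a
      simp [hlam]
    rw [h3, CommRingCat.ofHom_id, Spec.map_id, Category.comp_id]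
  simp only [Category.assoc, Proj.basicOpenIsoSpec_inv_ι]
  rw [h2]
  simp only [Category.assoc]
  rw [← Category.assoc (X.toSpecΓ ∣_ _), morphismRestrict_ι]
  simp only [Category.assoc]
  rw [Scheme.isoOfEq_inv_ι_assoc, ← Spec.map_comp_assoc, ← CommRingCat.ofHom_comp,
    ← RingHom.comp_assoc]
  congr 6
  apply IsLocalization.ringHom_ext (M := .powers t)
  ext a
  simp [hlam, hψ]

end general

end Pool.Agent.MP7b039f
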