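import Pool.Agent.MP7b039f.PtDense
import Pool.Agent.MP7b039f.Diverge

open CategoryTheory AlgebraicGeometry Limits TopologicalSpace HomogeneousLocalization
open scoped Polynomial

noncomputable section

namespace Pool.Agent.MP7b039f

instance charP_F2t : CharP F2t 2 := by
  have h : Function.Injective (algebraMap (ZMod 2) F2t) := (algebraMap (ZMod 2) F2t).injective
  exact charP_of_injective_algebraMap h 2

instance infinite_F2t : Infinite F2t :=
  Infinite.of_injective _ (RatFunc.algebraMap_injective (ZMod 2))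

variable {ι : Type} (e : ι ≃ Idx)

theorem height_bound (s γ : F2t) : ∃ C : ℕ, ∀ f g : (ZMod 2)[X], g ≠ 0 →
    height (pt F2t (curve F2t s γ (algebraMap _ _ f / algebraMap _ _ g)) ≫ phi F2t e) ≤
      max f.natDegree g.natDegree + C := by
  set D := s.denom * γ.denom with hD
  set S := s.num * γ.denom with hS
  set Γ := γ.num * s.denom with hΓ
  have hsd : s.denom ≠ 0 := RatFunc.denom_ne_zero s
  have hγd : γ.denom ≠ 0 := RatFunc.denom_ne_zero γ
  have hsd' : algebraMap (ZMod 2)[X] F2t s.denom ≠ 0 := RatFunc.algebraMap_ne_zero hsd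
  have hγd' : algebraMap (ZMod 2)[X] F2t γ.denom ≠ 0 := RatFunc.algebraMap_ne_zero hγd
  have hD0 : D ≠ 0 := mul_ne_zero hsd hγd
  have hD0' : algebraMap (ZMod 2)[X] F2t D ≠ 0 := RatFunc.algebraMap_ne_zero hD0
  have h2 : (2 : F2t) = 0 := by
    have := CharP.cast_eq_zero F2t 2
    exact_mod_cast this
  have hs : algebraMap (ZMod 2)[X] F2t S = algebraMap _ _ D * s := by
    conv_rhs => rw [← RatFunc.num_div_denom s]
    rw [hD, hS, map_mul, map_mul]
    field_simp
  have hγ : algebraMap (ZMod 2)[X] F2t Γ = algebraMap _ _ D * γ := by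
    conv_rhs => rw [← RatFunc.num_div_denom γ]
    rw [hD, hΓ, map_mul, map_mul]
    field_simp
  set E := D.natDegree + S.natDegree + Γ.natDegree with hE
  refine ⟨E + 2 * E + 2 * E, fun f g hg => ?_⟩
  have hg' : algebraMap (ZMod 2)[X] F2t g ≠ 0 := RatFunc.algebraMap_ne_zero hg
  set b := algebraMap (ZMod 2)[X] F2t f / algebraMap _ _ g with hb
  have hf : algebraMap (ZMod 2)[X] F2t f = algebraMap _ _ g * b := by
    rw [hb]; field_simp
  let xP : Fin 3 → (ZMod 2)[X] := ![g * D, g * S + f * Γ, f * D]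
  let yP : Fin 3 → (ZMod 2)[X] := ![S ^ 2, D ^ 2, Γ ^ 2]
  have hx : ∀ j, algebraMap (ZMod 2)[X] F2t (xP j) = algebraMap _ _ (g * D) *
      MvPolynomial.eval (curve F2t s γ b) (xx F2t j) := by
    intro j
    fin_cases j
    · simp [xP, xx]
    · simp only [xP, xx, curve, Fin.mk_one, Fin.isValue, Matrix.cons_val_one,
        Matrix.cons_val_zero, MvPolynomial.eval_X, map_add, map_mul]
      rw [hs, hγ, hf]
      ring
    · simp only [xP, xx, curve, Fin.reduceFinMk, Matrix.cons_val,
        MvPolynomial.eval_X, map_mul, Matrix.cons_val_one]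
      rw [hf]
      ring
  have hy : ∀ j, algebraMap (ZMod 2)[X] F2t (yP j) = algebraMap _ _ (D ^ 2) *
      MvPolynomial.eval (curve F2t s γ b) (yy F2t j) := by
    intro j
    fin_cases j
    · simp only [yP, yy, curve, Fin.zero_eta, Matrix.cons_val_zero, map_add, map_mul, map_pow,
        MvPolynomial.eval_X, Matrix.cons_val_one, Matrix.cons_val]
      rw [hs]
      linear_combination (-(algebraMap (ZMod 2)[X] F2t D) ^ 2 * (s * b * γ + b ^ 2 * γ ^ 2)) * h2
    · simp [yP, yy]
    · simp only [yP, yy, curve, Fin.reduceFinMk, Matrix.cons_val,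
        MvPolynomial.eval_X, map_pow]
      rw [hγ]
      ring
  let a : ι → (ZMod 2)[X] := fun i => xP (e i).1 * yP (e i).2.1 * yP (e i).2.2
  have ha : (fun i => algebraMap (ZMod 2)[X] F2t (a i)) =
      (algebraMap (ZMod 2)[X] F2t (g * D) * algebraMap _ _ (D ^ 2) * algebraMap _ _ (D ^ 2)) •
        (fun i => MvPolynomial.eval (curve F2t s γ b) (mm F2t (e i))) := by
    funext i
    simp only [a, mm, map_mul, hx, hy, Pi.smul_apply, smul_eq_mul]
    ring
  have hc : (algebraMap (ZMod 2)[X] F2t (g * D) * algebraMap _ _ (D ^ 2) *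
      algebraMap _ _ (D ^ 2)) ≠ 0 := by
    simp only [map_mul, map_pow]
    positivity
  have hne : (fun i => algebraMap (ZMod 2)[X] F2t (a i)) ≠ 0 := by
    rw [ha]
    exact smul_ne_zero hc (mm_ne_zero_fun F2t e _)
  have hcoord : HasCoordinates (pt F2t (curve F2t s γ b) ≫ phi F2t e) a := by
    refine ⟨hne, ?_⟩
    rw [pt_phi]
    have h3 : ∀ (v w : ι → F2t) (hv : v ≠ 0) (hw : w ≠ 0) (c : F2t) (_ : c ≠ 0) (_ : v = c • w),
      PSpace.point v hv = PSpace.point w hw := by
      intro v w hv hw c hc h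
      subst h
      exact point_smul w hw c hc hv
    exact h3 _ _ _ _ _ hc ha
  refine Nat.sInf_le ⟨a, hcoord, fun i => ?_⟩
  have hxd : ∀ j, (xP j).natDegree ≤ max f.natDegree g.natDegree + E := by
    intro j
    fin_cases j
    · change (g * D).natDegree ≤ _
      have := Polynomial.natDegree_mul_le (p := g) (q := D)
      have := le_max_right f.natDegree g.natDegree
      omega
    · change (g * S + f * Γ).natDegree ≤ _
      have h4 := Polynomial.natDegree_add_le (g * S) (f * Γ)
      have h5 := Polynomial.natDegree_mul_le (p := g) (q := S)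
      have h6 := Polynomial.natDegree_mul_le (p := f) (q := Γ)
      omega
    · change (f * D).natDegree ≤ _
      have := Polynomial.natDegree_mul_le (p := f) (q := D)
      have := le_max_left f.natDegree g.natDegree
      omega
  have hyd : ∀ j, (yP j).natDegree ≤ 2 * E := by
    intro j
    fin_cases j
    · change (S ^ 2).natDegree ≤ _
      have := Polynomial.natDegree_pow_le (p := S) (n := 2)
      omega
    · change (D ^ 2).natDegree ≤ _
      have := Polynomial.natDegree_pow_le (p := D) (n := 2)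
      omega
    · change (Γ ^ 2).natDegree ≤ _
      have := Polynomial.natDegree_pow_le (p := Γ) (n := 2)
      omega
  change (xP (e i).1 * yP (e i).2.1 * yP (e i).2.2).natDegree ≤ _
  have h6 := Polynomial.natDegree_mul_le (p := xP (e i).1 * yP (e i).2.1) (q := yP (e i).2.2)
  have h7 := Polynomial.natDegree_mul_le (p := xP (e i).1) (q := yP (e i).2.1)
  have h8 := hxd (e i).1
  have h9 := hyd (e i).2.1
  have h10 := hyd (e i).2.2
  omega

theorem two_le_of_summable {P : Type} (ht : P → ℕ) (r : ℝ)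
    (hr : Summable fun x : P => (2 : ℝ) ^ (-(r * (ht x : ℝ)))) (F : Finset F2t)
    (j : {b : F2t // b ∉ F} → P) (hj : Function.Injective j) (C : ℕ)
    (hC : ∀ b, ht (j b) ≤ H0 b.1 + C) : 2 ≤ r := by
  by_contra hlt
  rw [not_le] at hlt
  set r' := max r 1 with hr'
  have hr'2 : r' < 2 := max_lt hlt one_lt_two
  have hr'1 : 1 ≤ r' := le_max_right _ _
  have h1 : Summable fun b : {b : F2t // b ∉ F} => (2 : ℝ) ^ (-(r * (ht (j b) : ℝ))) :=
    hr.comp_injective hj
  have h3 : Summable fun b : {b : F2t // b ∉ F} => (2 : ℝ) ^ (-(r' * (ht (j b) : ℝ))) := by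
    refine Summable.of_nonneg_of_le (fun b => by positivity) (fun b => ?_) h1
    apply Real.rpow_le_rpow_of_exponent_le one_le_two
    have := mul_le_mul_of_nonneg_right (le_max_left r 1) (Nat.cast_nonneg (α := ℝ) (ht (j b)))
    linarith
  have h4 : Summable fun b : {b : F2t // b ∉ F} => (2 : ℝ) ^ (-(r' * (H0 b.1 : ℝ))) := by
    refine Summable.of_nonneg_of_le (fun b => by positivity) (fun b => ?_)
      (h3.mul_left ((2 : ℝ) ^ (r' * C)))
    rw [← Real.rpow_add two_pos]
    apply Real.rpow_le_rpow_of_exponent_le one_le_two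
    have h5 : (ht (j b) : ℝ) ≤ H0 b.1 + C := by exact_mod_cast hC b
    nlinarith
  exact not_summable_H0 r' hr'1 hr'2 ((Finset.summable_compl_iff F
    (f := fun b : F2t => (2 : ℝ) ^ (-(r' * (H0 b : ℝ))))).1 h4)

theorem two_le_abscissa (U : Set (Pts (VV F2t))) (hUo : IsOpen U) (hU : Dense U) :
    2 ≤ abscissa (fVV F2t) (phi F2t e) U := by
  have hne : U.Nonempty := by
    have : Nonempty (VV F2t) := ⟨eta (MM F2t) (MM_ne_bot F2t)⟩
    exact hU.nonempty
  obtain ⟨s, γ, F, hF⟩ := exists_curve F2t ⟨U, hUo⟩ hne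
  obtain ⟨C, hC⟩ := height_bound e s γ
  rw [abscissa]
  apply le_sInf
  rintro _ ⟨r, rfl, hr⟩
  let j : {b : F2t // b ∉ F} → RatPoints (fVV F2t) U := fun b =>
    ⟨pt F2t (curve F2t s γ b), pt_fVV _ _, image_subset_of F2t _ ⟨U, hUo⟩ (hF _ b.2)⟩
  have hj : Function.Injective j := by
    intro b b' h
    have h3 := congrArg Subtype.val h
    exact Subtype.ext (curve_injective F2t s γ (pt_injective F2t h3))
  have h2 : 2 ≤ r := by
    refine two_le_of_summable (fun x : RatPoints (fVV F2t) U => height (x.1 ≫ phi F2t e)) r hr F j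
      hj C fun b => ?_
    have := hC b.1.num b.1.denom (RatFunc.denom_ne_zero b.1)
    rw [RatFunc.num_div_denom] at this
    exact this
  have h3 : ((2 : ℝ) : EReal) ≤ (r : EReal) := EReal.coe_le_coe_iff.2 h2
  exact h3

end Pool.Agent.MP7b039f
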