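import Pool.Agent.MP7b039f.Rees

open Polynomial DirectSum

noncomputable section

namespace Pool.Agent.MP7b039f

variable {K R : Type} [Field K] [CommRing R] [IsDomain R] [Algebra K R]

/-- evaluation at `τ = 1`. -/
def ev1 (M : Submodule K R) : reesSub M →+* R :=
  (Polynomial.evalRingHom (1 : R)).comp (reesSub M).val.toRingHom

theorem ev1_apply (M : Submodule K R) (f : reesSub M) : ev1 M f = (f : R[X]).eval 1 := rfl

theorem ev1_of_mem {M : Submodule K R} {d : ℕ} {f : reesSub M} (hf : f ∈ gr M d) :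
    ev1 M f = (f : R[X]).coeff d := by
  rw [ev1_apply, eq_mono_of_mem_gr hf, coe_mono, eval_monomial, one_pow, mul_one,
    coeff_monomial, if_pos rfl]

theorem ev1_mono {M : Submodule K R} {d : ℕ} {r : R} (hr : r ∈ M ^ d) :
    ev1 M (mono M d r hr) = r := by
  rw [ev1_apply, coe_mono, eval_monomial, one_pow, mul_one]

theorem eq_zero_of_ev1 {M : Submodule K R} {d : ℕ} {f : reesSub M} (hf : f ∈ gr M d)
    (h : ev1 M f = 0) : f = 0 := by
  rw [ev1_of_mem hf] at h
  rw [eq_mono_of_mem_gr hf]
  apply Subtype.ext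
  rw [coe_mono, h]
  simp

theorem eq_of_ev1 {M : Submodule K R} {d : ℕ} {f g : reesSub M} (hf : f ∈ gr M d)
    (hg : g ∈ gr M d) (h : ev1 M f = ev1 M g) : f = g := by
  rw [← sub_eq_zero]
  apply eq_zero_of_ev1 (Submodule.sub_mem _ hf hg)
  rw [map_sub, h, sub_self]

variable (M : Submodule K R) (L : Type) [Field L] [Algebra R L] [IsFractionRing R L]

/-- The ring map from a homogeneous localization of the graded domain `reesSub M` to the
fraction field `L` of `R`. -/
def homFun (P : Submonoid (reesSub M)) (x : HomogeneousLocalization (gr M) P) : L :=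
  algebraMap R L (ev1 M x.num) / algebraMap R L (ev1 M x.den)

theorem homFun_eq (P : Submonoid (reesSub M)) (hP : (0 : reesSub M) ∉ P)
    (x : HomogeneousLocalization (gr M) P) (d : ℕ) (a b : reesSub M) (ha : a ∈ gr M d)
    (hb : b ∈ gr M d) (hbP : b ∈ P) (hx : x.val = Localization.mk a ⟨b, hbP⟩) :
    homFun M L P x = algebraMap R L (ev1 M a) / algebraMap R L (ev1 M b) := by
  have h1 : x.den ≠ 0 := fun h => hP (h ▸ x.den_mem)
  have h2 : b ≠ 0 := fun h => hP (h ▸ hbP)
  have h3 : ev1 M x.den ≠ 0 := fun h => h1 (eq_zero_of_ev1 x.den_mem_deg h)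
  have h4 : ev1 M b ≠ 0 := fun h => h2 (eq_zero_of_ev1 hb h)
  have h5 : algebraMap R L (ev1 M x.den) ≠ 0 := by
    rwa [Ne, IsFractionRing.to_map_eq_zero_iff]
  have h6 : algebraMap R L (ev1 M b) ≠ 0 := by
    rwa [Ne, IsFractionRing.to_map_eq_zero_iff]
  rw [homFun, div_eq_div_iff h5 h6, ← map_mul, ← map_mul, ← map_mul, ← map_mul]
  congr 2
  have h7 := hx
  rw [x.eq_num_div_den, Localization.mk_eq_mk_iff, Localization.r_iff_exists] at h7
  obtain ⟨c, hc⟩ := h7
  have hc0 : (c : reesSub M) ≠ 0 := fun h => hP (h ▸ c.2)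
  have := mul_left_cancel₀ hc0 hc
  simp only at this
  rw [mul_comm, this, mul_comm]

theorem homFun_mk (P : Submonoid (reesSub M)) (hP : (0 : reesSub M) ∉ P)
    (c : HomogeneousLocalization.NumDenSameDeg (gr M) P) :
    homFun M L P (HomogeneousLocalization.mk c) =
      algebraMap R L (ev1 M c.num) / algebraMap R L (ev1 M c.den) :=
  homFun_eq M L P hP _ c.deg _ _ c.num.2 c.den.2 c.den_mem (HomogeneousLocalization.val_mk c)

/-- `homFun` as a ring homomorphism. -/
def homToL (P : Submonoid (reesSub M)) (hP : (0 : reesSub M) ∉ P) :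
    HomogeneousLocalization (gr M) P →+* L where
  toFun := homFun M L P
  map_one' := by
    rw [← HomogeneousLocalization.mk_one, homFun_mk M L P hP]
    simp
  map_zero' := by
    rw [← HomogeneousLocalization.mk_zero, homFun_mk M L P hP]
    simp
  map_mul' x y := by
    obtain ⟨x, rfl⟩ := HomogeneousLocalization.mk_surjective x
    obtain ⟨y, rfl⟩ := HomogeneousLocalization.mk_surjective y
    rw [← HomogeneousLocalization.mk_mul, homFun_mk M L P hP, homFun_mk M L P hP,
      homFun_mk M L P hP]
    simp only [HomogeneousLocalization.NumDenSameDeg.num_mul,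
      HomogeneousLocalization.NumDenSameDeg.den_mul, map_mul]
    rw [div_mul_div_comm]
  map_add' x y := by
    obtain ⟨x, rfl⟩ := HomogeneousLocalization.mk_surjective x
    obtain ⟨y, rfl⟩ := HomogeneousLocalization.mk_surjective y
    rw [← HomogeneousLocalization.mk_add, homFun_mk M L P hP, homFun_mk M L P hP,
      homFun_mk M L P hP]
    have h1 : algebraMap R L (ev1 M x.den) ≠ 0 := by
      rw [Ne, IsFractionRing.to_map_eq_zero_iff]
      intro h
      exact hP ((eq_zero_of_ev1 x.den.2 h) ▸ x.den_mem)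
    have h2 : algebraMap R L (ev1 M y.den) ≠ 0 := by
      rw [Ne, IsFractionRing.to_map_eq_zero_iff]
      intro h
      exact hP ((eq_zero_of_ev1 y.den.2 h) ▸ y.den_mem)
    simp only [HomogeneousLocalization.NumDenSameDeg.num_add,
      HomogeneousLocalization.NumDenSameDeg.den_add, map_mul, map_add]
    field_simp
    ring

theorem homToL_mk (P : Submonoid (reesSub M)) (hP : (0 : reesSub M) ∉ P)
    (c : HomogeneousLocalization.NumDenSameDeg (gr M) P) :
    homToL M L P hP (HomogeneousLocalization.mk c) =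
      algebraMap R L (ev1 M c.num) / algebraMap R L (ev1 M c.den) := homFun_mk M L P hP c

theorem homToL_injective (P : Submonoid (reesSub M)) (hP : (0 : reesSub M) ∉ P) :
    Function.Injective (homToL M L P hP) := by
  rw [injective_iff_map_eq_zero]
  intro x hx
  obtain ⟨x, rfl⟩ := HomogeneousLocalization.mk_surjective x
  rw [homToL_mk] at hx
  have h1 : algebraMap R L (ev1 M x.den) ≠ 0 := by
    rw [Ne, IsFractionRing.to_map_eq_zero_iff]
    intro h
    exact hP ((eq_zero_of_ev1 x.den.2 h) ▸ x.den_mem)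
  rw [div_eq_zero_iff, or_iff_left h1, IsFractionRing.to_map_eq_zero_iff] at hx
  exact HomogeneousLocalization.mk_eq_zero_of_num _ (Subtype.ext (eq_zero_of_ev1 x.num.2 hx))

theorem homToL_mapId {P Q : Submonoid (reesSub M)} (h : P ≤ Q) (hQ : (0 : reesSub M) ∉ Q)
    (x : HomogeneousLocalization (gr M) P) :
    homToL M L Q hQ (HomogeneousLocalization.mapId (gr M) h x) =
      homToL M L P (fun h0 => hQ (h h0)) x := by
  obtain ⟨x, rfl⟩ := HomogeneousLocalization.mk_surjective x
  rw [HomogeneousLocalization.map_mk, homToL_mk, homToL_mk]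
  rfl

end Pool.Agent.MP7b039f
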