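import Pool.Agent.MP7b039f.SecAlg

open Polynomial DirectSum CategoryTheory AlgebraicGeometry TopologicalSpace Opposite

noncomputable section

namespace Pool.Agent.MP7b039f

variable (K : Type) [Field K]

theorem cc_ne_zero (σ : Equiv.Perm (Fin 3)) (i : Fin 3) : cc K σ i ≠ 0 := by
  fin_cases i
  · exact div_ne_zero (xL_ne_zero K _) (xL_ne_zero K _)
  · exact div_ne_zero (xL_ne_zero K _) (xL_ne_zero K _)
  · exact div_ne_zero (yL_ne_zero K _) (yL_ne_zero K _)

/-- Laurent monomials in the coordinates of the chart `σ`. -/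
def mu (σ : Equiv.Perm (Fin 3)) (p : ℤ × ℤ × ℤ) : LL K :=
  cc K σ 0 ^ p.1 * cc K σ 1 ^ p.2.1 * cc K σ 2 ^ p.2.2

theorem mu_add (σ : Equiv.Perm (Fin 3)) (p q : ℤ × ℤ × ℤ) :
    mu K σ (p + q) = mu K σ p * mu K σ q := by
  simp only [mu, Prod.fst_add, Prod.snd_add, zpow_add₀ (cc_ne_zero K σ _)]
  ring

theorem mu_ne_zero (σ : Equiv.Perm (Fin 3)) (p : ℤ × ℤ × ℤ) : mu K σ p ≠ 0 :=
  mul_ne_zero (mul_ne_zero (zpow_ne_zero _ (cc_ne_zero K σ _)) (zpow_ne_zero _ (cc_ne_zero K σ _)))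
    (zpow_ne_zero _ (cc_ne_zero K σ _))

/-- monomials with natural exponents. -/
theorem theta_monomial (σ : Equiv.Perm (Fin 3)) (e : Fin 3 →₀ ℕ) (c : K) :
    theta K σ (MvPolynomial.monomial e c) = c • mu K σ (e 0, e 1, e 2) := by
  rw [theta, MvPolynomial.aeval_monomial, Finsupp.prod_fintype _ _ (by simp), Fin.prod_univ_three,
    Algebra.smul_def]
  simp [mu]

/-- the exponent of a triple of nonnegative integers. -/
def expo (p : ℤ × ℤ × ℤ) : Fin 3 →₀ ℕ :=
  Finsupp.equivFunOnFinite.symm ![p.1.toNat, p.2.1.toNat, p.2.2.toNat]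

theorem mu_eq_theta (σ : Equiv.Perm (Fin 3)) (p : ℤ × ℤ × ℤ) (h0 : 0 ≤ p.1) (h1 : 0 ≤ p.2.1)
    (h2 : 0 ≤ p.2.2) : mu K σ p = theta K σ (MvPolynomial.monomial (expo p) 1) := by
  rw [theta_monomial, one_smul]
  congr 1
  simp only [expo, Finsupp.equivFunOnFinite_symm_apply_apply]
  ext <;> simp [h0, h1, h2]

theorem mu_linearIndependent [CharP K 2] (σ : Equiv.Perm (Fin 3)) :
    LinearIndependent K (mu K σ) := by
  rw [linearIndependent_iff_finset_linearIndependent]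
  intro s
  -- a shift making all the exponents nonnegative
  obtain ⟨N, hN⟩ : ∃ N : ℤ, ∀ p ∈ s, 0 ≤ p.1 + N ∧ 0 ≤ p.2.1 + N ∧ 0 ≤ p.2.2 + N := by
    refine ⟨∑ p ∈ s, (|p.1| + |p.2.1| + |p.2.2|), fun p hp => ?_⟩
    have h1 : |p.1| + |p.2.1| + |p.2.2| ≤ ∑ p ∈ s, (|p.1| + |p.2.1| + |p.2.2|) :=
      Finset.single_le_sum (f := fun p : ℤ × ℤ × ℤ => |p.1| + |p.2.1| + |p.2.2|)
        (fun i _ => by positivity) hp
    have h2 := neg_abs_le p.1
    have h3 := neg_abs_le p.2.1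
    have h4 := neg_abs_le p.2.2
    have h5 := abs_nonneg p.1
    have h6 := abs_nonneg p.2.1
    have h7 := abs_nonneg p.2.2
    refine ⟨?_, ?_, ?_⟩ <;> linarith
  have hbase : LinearIndependent K (fun e : Fin 3 →₀ ℕ =>
      theta K σ (MvPolynomial.monomial e (1 : K))) := by
    have h1 := (MvPolynomial.basisMonomials (Fin 3) K).linearIndependent
    have h2 := h1.map' (theta K σ).toLinearMap
      (LinearMap.ker_eq_bot.mpr (theta_injective K σ))
    simpa [Function.comp_def] using h2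
  have hcomp : LinearIndependent K (fun p : s =>
      theta K σ (MvPolynomial.monomial (expo (p.1 + (N, N, N))) (1 : K))) := by
    refine hbase.comp (fun p : s => expo (p.1 + (N, N, N))) ?_
    rintro ⟨p, hp⟩ ⟨q, hq⟩ hpq
    have h0 := DFunLike.congr_fun hpq 0
    have h1 := DFunLike.congr_fun hpq 1
    have h2 := DFunLike.congr_fun hpq 2
    have hp' := hN p hp
    have hq' := hN q hq
    simp [expo] at h0 h1 h2
    apply Subtype.ext
    ext
    · simp only; omega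
    · simp only; omega
    · simp only; omega
  have hfin : LinearIndependent K ((LinearMap.mulLeft K (mu K σ (N, N, N))) ∘
      (fun p : s => mu K σ p.1)) := by
    convert hcomp using 1
    funext p
    have hp' := hN p.1 p.2
    rw [Function.comp_apply, LinearMap.mulLeft_apply, ← mu_add, add_comm, mu_eq_theta]
    · exact hp'.1
    · exact hp'.2.1
    · exact hp'.2.2
  exact LinearIndependent.of_comp _ hfin

/-- span of a set of Laurent monomials. -/
def Lam (σ : Equiv.Perm (Fin 3)) (S : Set (ℤ × ℤ × ℤ)) : Submodule K (LL K) :=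
  Submodule.span K (mu K σ '' S)

theorem Lam_mono (σ : Equiv.Perm (Fin 3)) {S T : Set (ℤ × ℤ × ℤ)} (h : S ⊆ T) :
    Lam K σ S ≤ Lam K σ T := Submodule.span_mono (Set.image_mono h)

theorem mu_mem_Lam (σ : Equiv.Perm (Fin 3)) {S : Set (ℤ × ℤ × ℤ)} {p : ℤ × ℤ × ℤ} (h : p ∈ S) :
    mu K σ p ∈ Lam K σ S := Submodule.subset_span ⟨p, h, rfl⟩

theorem Lam_sup (σ : Equiv.Perm (Fin 3)) (S T : Set (ℤ × ℤ × ℤ)) :
    Lam K σ (S ∪ T) = Lam K σ S ⊔ Lam K σ T := by
  rw [Lam, Lam, Lam, Set.image_union, Submodule.span_union]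

theorem Lam_inf [CharP K 2] (σ : Equiv.Perm (Fin 3)) (S T : Set (ℤ × ℤ × ℤ)) :
    Lam K σ (S ∩ T) = Lam K σ S ⊓ Lam K σ T := by
  rw [Lam, Lam, Lam, Finsupp.span_image_eq_map_linearCombination,
    Finsupp.span_image_eq_map_linearCombination, Finsupp.span_image_eq_map_linearCombination,
    Finsupp.supported_inter, Submodule.map_inf _ (mu_linearIndependent K σ)]

theorem Lam_mul_mem (σ : Equiv.Perm (Fin 3)) {S T U : Set (ℤ × ℤ × ℤ)}
    (h : ∀ p ∈ S, ∀ q ∈ T, p + q ∈ U) {x y : LL K} (hx : x ∈ Lam K σ S) (hy : y ∈ Lam K σ T) :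
    x * y ∈ Lam K σ U := by
  have h1 : Lam K σ S * Lam K σ T ≤ Lam K σ U := by
    rw [Lam, Lam, Submodule.span_mul_span, Submodule.span_le]
    rintro _ ⟨_, ⟨p, hp, rfl⟩, _, ⟨q, hq, rfl⟩, rfl⟩
    simp only
    rw [← mu_add]
    exact mu_mem_Lam K σ (h p hp q hq)
  exact h1 (Submodule.mul_mem_mul hx hy)

theorem theta_mem_Lam (σ : Equiv.Perm (Fin 3)) (g : RR K) :
    theta K σ g ∈ Lam K σ {p | 0 ≤ p.1 ∧ 0 ≤ p.2.1 ∧ 0 ≤ p.2.2} := by
  induction g using MvPolynomial.induction_on' with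
  | monomial e c =>
    rw [theta_monomial]
    refine Submodule.smul_mem _ _ (mu_mem_Lam K σ ?_)
    simp
  | add p q hp hq =>
    rw [map_add]
    exact add_mem hp hq

end Pool.Agent.MP7b039f
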