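import Pool.Agent.MP7b039f.GlobSec

open CategoryTheory AlgebraicGeometry Limits TopologicalSpace HomogeneousLocalization

noncomputable section

namespace Pool.Agent.MP7b039f

attribute [local instance] MvPolynomial.gradedAlgebra

variable {ι K : Type} [Field K]

/-- the ring map of a point. -/
def psi (a : ι → K) (i : ι) (h : a i ≠ 0) :
    Away (MvPolynomial.homogeneousSubmodule ι K) (MvPolynomial.X i) →+* K :=
  (IsLocalization.Away.lift (S := Localization.Away (MvPolynomial.X i : MvPolynomial ι K))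
    (MvPolynomial.X i) (g := MvPolynomial.eval a)
    (by rw [MvPolynomial.eval_X]; exact IsUnit.mk0 _ h)).comp
    (algebraMap (Away (MvPolynomial.homogeneousSubmodule ι K) (MvPolynomial.X i))
      (Localization.Away (MvPolynomial.X i)))

theorem psi_mk (a : ι → K) (i : ι) (h : a i ≠ 0) (n : ℕ) (q : MvPolynomial ι K) (hq) :
    psi a i h (Away.mk (MvPolynomial.homogeneousSubmodule ι K) (MvPolynomial.isHomogeneous_X K i)
      n q hq) = MvPolynomial.eval a q / a i ^ n := by
  rw [psi, RingHom.comp_apply, HomogeneousLocalization.algebraMap_apply, Away.val_mk,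
    Localization.mk_eq_mk', eq_div_iff (pow_ne_zero _ h)]
  have h1 : a i ^ n = (IsLocalization.Away.lift (S := Localization.Away (MvPolynomial.X i :
    MvPolynomial ι K)) (MvPolynomial.X i) (g := MvPolynomial.eval a)
    (by rw [MvPolynomial.eval_X]; exact IsUnit.mk0 _ h)) (algebraMap (MvPolynomial ι K) _
      (MvPolynomial.X i ^ n)) := by
    rw [IsLocalization.Away.lift_eq]
    simp
  rw [h1, ← map_mul]
  have h2 := IsLocalization.mk'_spec (Localization.Away (MvPolynomial.X i : MvPolynomial ι K)) q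
    (⟨MvPolynomial.X i ^ n, n, rfl⟩ : Submonoid.powers (MvPolynomial.X i : MvPolynomial ι K))
  rw [h2, IsLocalization.Away.lift_eq]

theorem point_eq (a : ι → K) (ha : a ≠ 0) (i : ι) (h : a i ≠ 0) :
    PSpace.point a ha = Spec.map (CommRingCat.ofHom (psi a i h)) ≫
      Proj.awayι (MvPolynomial.homogeneousSubmodule ι K) (MvPolynomial.X i)
        (MvPolynomial.isHomogeneous_X K i) one_pos := by
  have h0 : IsUnit (MvPolynomial.eval a (MvPolynomial.X i)) := by
    rw [MvPolynomial.eval_X]; exact IsUnit.mk0 _ h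
  have h1 := fromOfGlobalSections_eq (MvPolynomial.homogeneousSubmodule ι K)
    (X := Spec (.of K)) ((Scheme.ΓSpecIso (.of K)).inv.hom.comp (MvPolynomial.eval a))
    (map_irrelevant (MvPolynomial.homogeneousSubmodule ι K) (MvPolynomial.eval a)
      (exists_eval_ne_zero a ha)) one_pos (MvPolynomial.isHomogeneous_X K i)
    (h0.map (Scheme.ΓSpecIso (.of K)).inv.hom)
    ((Scheme.ΓSpecIso (.of K)).inv.hom.comp
      (IsLocalization.Away.lift (MvPolynomial.X i) (g := MvPolynomial.eval a) h0))
    (fun q => by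
      simp only [RingHom.comp_apply]
      rw [IsLocalization.Away.lift_eq])
  refine Eq.trans h1 ?_
  rw [← Category.assoc]
  congr 1
  rw [RingHom.comp_assoc, CommRingCat.ofHom_comp, CommRingCat.ofHom_hom, Spec.map_comp,
    ← SpecMap_ΓSpecIso_hom, ← Category.assoc, ← Spec.map_comp, Iso.inv_hom_id, Spec.map_id,
    Category.id_comp]
  rfl

theorem eval_smul_hom (a : ι → K) (c : K) {n : ℕ} {q : MvPolynomial ι K}
    (hq : q ∈ MvPolynomial.homogeneousSubmodule ι K n) :
    MvPolynomial.eval (c • a) q = c ^ n * MvPolynomial.eval a q := by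
  rw [MvPolynomial.eval_eq, MvPolynomial.eval_eq, Finset.mul_sum]
  refine Finset.sum_congr rfl fun d hd => ?_
  have h1 : ∑ i ∈ d.support, d i = n := by
    have := (MvPolynomial.mem_homogeneousSubmodule n q).1 hq (MvPolynomial.mem_support_iff.1 hd)
    rw [← this, Finsupp.weight_apply, Finsupp.sum]
    simp
  simp only [Pi.smul_apply, smul_eq_mul, mul_pow]
  rw [Finset.prod_mul_distrib, Finset.prod_pow_eq_pow_sum, h1]
  ring

theorem point_smul (a : ι → K) (ha : a ≠ 0) (c : K) (hc : c ≠ 0) (hca : c • a ≠ 0) :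
    PSpace.point (c • a) hca = PSpace.point a ha := by
  obtain ⟨i, hi⟩ := Function.ne_iff.mp ha
  have hci : (c • a) i ≠ 0 := mul_ne_zero hc hi
  rw [point_eq (c • a) hca i hci, point_eq a ha i hi]
  congr 3
  apply RingHom.ext
  intro z
  obtain ⟨n, q, hq, rfl⟩ := Away.mk_surjective _ (MvPolynomial.isHomogeneous_X K i) z
  rw [psi_mk, psi_mk]
  have hq' : q ∈ MvPolynomial.homogeneousSubmodule ι K n := by simpa using hq
  rw [eval_smul_hom a c hq', Pi.smul_apply, smul_eq_mul, mul_pow,
    mul_div_mul_left _ _ (pow_ne_zero _ hc)]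

end Pool.Agent.MP7b039f
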