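import Pool.Agent.MP7b039f.Anti
import Pool.Agent.MP7b039f.PointFormula

open CategoryTheory AlgebraicGeometry Limits TopologicalSpace HomogeneousLocalization

noncomputable section

namespace Pool.Agent.MP7b039f

attribute [local instance] MvPolynomial.gradedAlgebra

section general

variable {A : Type} [CommRing A] {σ : Type} [SetLike σ A] [AddSubgroupClass σ A]
variable (𝒜 : ℕ → σ) [GradedRing 𝒜]

theorem fromSpec_basicOpen {t : A} {d : ℕ} (hd : 0 < d) (ht : t ∈ 𝒜 d) :
    (Proj.isAffineOpen_basicOpen 𝒜 t ht hd).fromSpec =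
      Spec.map (Proj.awayToSection 𝒜 t) ≫ Proj.awayι 𝒜 t ht hd := by
  rw [Proj.awayι, ← Category.assoc, IsAffineOpen.fromSpec]
  congr 1
  rw [Iso.eq_comp_inv, Proj.basicOpenIsoSpec_hom, Proj.basicOpenToSpec, Iso.inv_comp_eq,
    IsAffineOpen.isoSpec_hom]

end general

variable (K : Type) [Field K] {ι : Type} (e : ι ≃ Idx)

theorem ev1_Phi (q : MvPolynomial ι K) :
    ev1 (MM K) (Phi K e q) = MvPolynomial.aeval (fun i => mm K (e i)) q := by
  have h : (ev1 (MM K)).comp (PhiA K e).toRingHom =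
      (MvPolynomial.aeval (R := K) (fun i => mm K (e i))).toRingHom := by
    apply MvPolynomial.ringHom_ext
    · intro r
      change ev1 (MM K) (PhiA K e (MvPolynomial.C r)) = MvPolynomial.aeval _ (MvPolynomial.C r)
      rw [PhiA, MvPolynomial.aeval_C, MvPolynomial.aeval_C, ev1_apply]
      have h5 : ((algebraMap K (reesSub (MM K)) r : reesSub (MM K)) : Polynomial (RR K)) =
        Polynomial.C (algebraMap K (RR K) r) := rfl
      rw [h5, Polynomial.eval_C]
    · intro i
      change ev1 (MM K) (PhiA K e (MvPolynomial.X i)) = MvPolynomial.aeval _ (MvPolynomial.X i)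
      rw [PhiA_X, ev1_XX, MvPolynomial.aeval_X]
  exact DFunLike.congr_fun h q

theorem G_appLE (i : ι) (U : (VV K).Opens) (hU : (U : Set (VV K)).Nonempty)
    (hle : U ≤ phi K e ⁻¹ᵁ (PSpace.chart ι K i)) (n : ℕ) (q : MvPolynomial ι K) (hq) :
    GV K U hU ((phi K e).appLE (PSpace.chart ι K i) U hle
      (Proj.awayToSection (MvPolynomial.homogeneousSubmodule ι K) (MvPolynomial.X i)
        (Away.mk (MvPolynomial.homogeneousSubmodule ι K) (MvPolynomial.isHomogeneous_X K i)
          n q hq))) =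
      algebraMap (RR K) (LL K) (MvPolynomial.aeval (fun i => mm K (e i)) q) /
        algebraMap (RR K) (LL K) (mm K (e i)) ^ n := by
  have hne : (Proj.basicOpen (gr (MM K)) (Phi K e (MvPolynomial.X i)) : Set (VV K)).Nonempty :=
    hU.mono hle
  have h0 : Phi K e (MvPolynomial.X i) ≠ 0 := by
    rw [Phi_X]; exact XX_ne_zero K _
  have h1 := ConcreteCategory.congr_hom (Proj.awayToSection_comp_appLE (Phi K e)
      (Phi_irrelevant K e) (MvPolynomial.isHomogeneous_X K i))
      (Away.mk (MvPolynomial.homogeneousSubmodule ι K) (MvPolynomial.isHomogeneous_X K i)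
          n q hq)
  have h3 : (phi K e).appLE (PSpace.chart ι K i) ((phi K e) ⁻¹ᵁ (PSpace.chart ι K i)) le_rfl ≫
      (VV K).presheaf.map (homOfLE hle).op =
      (phi K e).appLE (PSpace.chart ι K i) U hle := Scheme.Hom.appLE_map _ _ _
  have h4 := ConcreteCategory.congr_hom h3
    (Proj.awayToSection (MvPolynomial.homogeneousSubmodule ι K) (MvPolynomial.X i)
        (Away.mk (MvPolynomial.homogeneousSubmodule ι K) (MvPolynomial.isHomogeneous_X K i)
          n q hq))
  rw [← h4]
  refine (G_res (MM K) (LL K) (MM_ne_bot K) hle hU _).trans ?_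
  refine Eq.trans (congrArg (G (MM K) (LL K) (MM_ne_bot K)
    (Proj.basicOpen (gr (MM K)) (Phi K e (MvPolynomial.X i))) hne) h1) ?_
  refine (G_awayToSection (MM K) (LL K) (MM_ne_bot K) _ hne (zero_notMem_powers h0) _).trans ?_
  change homToL (MM K) (LL K) _ _ (Away.map (Phi K e) (MvPolynomial.X i) _) = _
  rw [Away.map_mk]
  refine (homToL_mk (MM K) (LL K) _ _ _).trans ?_
  change algebraMap (RR K) (LL K) (ev1 (MM K) (Phi K e q)) /
    algebraMap (RR K) (LL K) (ev1 (MM K) (Phi K e (MvPolynomial.X i) ^ n)) = _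
  rw [map_pow, map_pow, Phi_X, ev1_XX, ev1_Phi]

/-- The `K`-point with chart coordinates `p`. -/
def pt [CharP K 2] (p : Fin 3 → K) : Spec (.of K) ⟶ VV K :=
  Spec.map (CommRingCat.ofHom (MvPolynomial.eval p)) ≫ cmap K 1

theorem pt_fVV [CharP K 2] (p : Fin 3 → K) : pt K p ≫ fVV K = 𝟙 _ := by
  rw [pt, Category.assoc, cmap_fVV, ← Spec.map_comp, ← CommRingCat.ofHom_comp]
  have h : (MvPolynomial.eval p).comp (algebraMap K (RR K)) = RingHom.id K := by
    ext x
    simp
  rw [h, CommRingCat.ofHom_id, Spec.map_id]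

theorem theta_one [CharP K 2] (g : RR K) : theta K 1 g = algebraMap (RR K) (LL K) g := by
  have h : theta K 1 = IsScalarTower.toAlgHom K (RR K) (LL K) := by
    apply MvPolynomial.algHom_ext
    intro i
    rw [theta, MvPolynomial.aeval_X, IsScalarTower.toAlgHom_apply]
    fin_cases i <;> simp [cc, xL, yL, xx, yy]
  rw [h]
  rfl

theorem mm_ne_zero_fun (p : Fin 3 → K) : (fun i => MvPolynomial.eval p (mm K (e i))) ≠ 0 := by
  intro h
  have h1 := congrFun h (e.symm (0, 1, 1))
  simp [mm, xx, yy] at h1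

theorem pt_phi [CharP K 2] (p : Fin 3 → K) :
    pt K p ≫ phi K e = PSpace.point (fun i => MvPolynomial.eval p (mm K (e i)))
      (mm_ne_zero_fun K e p) := by
  have hi : e (e.symm (0, 1, 1)) = (0, 1, 1) := e.apply_symm_apply _
  set i := e.symm (0, 1, 1)
  have ha : MvPolynomial.eval p (mm K (e i)) = 1 := by
    rw [hi]; simp [mm, xx, yy]
  have ha0 : MvPolynomial.eval p (mm K (e i)) ≠ 0 := by rw [ha]; exact one_ne_zero
  rw [point_eq _ _ i ha0]
  have hle : DD K ((1 : Equiv.Perm (Fin 3)) 0, (1 : Equiv.Perm (Fin 3)) 1,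
      (1 : Equiv.Perm (Fin 3)) 1) ≤ phi K e ⁻¹ᵁ (PSpace.chart ι K i) := by
    rw [phi_chart, hi]
    exact le_rfl
  have haff : IsAffineOpen (PSpace.chart ι K i) :=
    Proj.isAffineOpen_basicOpen _ _ (MvPolynomial.isHomogeneous_X K i) one_pos
  rw [pt, cmap, Category.assoc, Category.assoc,
    ← IsAffineOpen.SpecMap_appLE_fromSpec (phi K e) haff (affDD K _) hle]
  let aS : CommRingCat.of (Away (MvPolynomial.homogeneousSubmodule ι K) (MvPolynomial.X i)) ⟶
      Γ(PSpace ι K, PSpace.chart ι K i) :=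
    Proj.awayToSection (MvPolynomial.homogeneousSubmodule ι K) (MvPolynomial.X i)
  have h1 : haff.fromSpec = Spec.map aS ≫ Proj.awayι (MvPolynomial.homogeneousSubmodule ι K)
      (MvPolynomial.X i) (MvPolynomial.isHomogeneous_X K i) one_pos :=
    fromSpec_basicOpen (MvPolynomial.homogeneousSubmodule ι K)
    one_pos (MvPolynomial.isHomogeneous_X K i)
  rw [h1]
  rw [← Spec.map_comp_assoc, ← Spec.map_comp_assoc, ← Spec.map_comp_assoc]
  congr 2
  apply CommRingCat.hom_ext
  apply RingHom.ext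
  intro z
  obtain ⟨n, q, hq, rfl⟩ := Away.mk_surjective _ (MvPolynomial.isHomogeneous_X K i) z
  refine Eq.trans ?_ (psi_mk (fun i => MvPolynomial.eval p (mm K (e i))) i ha0 n q hq).symm
  rw [ha, one_pow, div_one]
  set s := (phi K e).appLE (PSpace.chart ι K i) (DD K ((1 : Equiv.Perm (Fin 3)) 0,
      (1 : Equiv.Perm (Fin 3)) 1, (1 : Equiv.Perm (Fin 3)) 1)) hle
      (Proj.awayToSection (MvPolynomial.homogeneousSubmodule ι K) (MvPolynomial.X i)
        (Away.mk (MvPolynomial.homogeneousSubmodule ι K) (MvPolynomial.isHomogeneous_X K i)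
          n q hq)) with hs
  change MvPolynomial.eval p ((EE K 1).symm s) = _
  have h2 : theta K 1 ((EE K 1).symm s) = algebraMap (RR K) (LL K)
      (MvPolynomial.aeval (fun i => mm K (e i)) q) := by
    rw [← GD_EE, AlgEquiv.apply_symm_apply]
    refine (G_appLE K e i _ (DD_nonempty K _) hle n q hq).trans ?_
    rw [hi]
    simp [mm, xx, yy]
  rw [theta_one] at h2
  rw [IsFractionRing.injective (RR K) (LL K) h2]
  have h3 : ((MvPolynomial.eval p).comp
      (MvPolynomial.aeval (R := K) (fun i => mm K (e i)) : MvPolynomial ι K →ₐ[K] RR K).toRingHom) =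
      MvPolynomial.eval (fun i => MvPolynomial.eval p (mm K (e i))) := by
    apply MvPolynomial.ringHom_ext
    · intro r
      simp
    · intro j
      simp
  exact DFunLike.congr_fun h3 q

end Pool.Agent.MP7b039f
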