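import Pool.Agent.MP7b039f.Points

open CategoryTheory AlgebraicGeometry Limits TopologicalSpace HomogeneousLocalization

noncomputable section

namespace Pool.Agent.MP7b039f

variable (K : Type) [Field K] [CharP K 2]

theorem exists_basic (U : (VV K).Opens) (hU : (U : Set (VV K)).Nonempty) :
    ∃ g : RR K, g ≠ 0 ∧ ∀ p : Fin 3 → K, MvPolynomial.eval p g ≠ 0 → pt K p ⁻¹ᵁ U = ⊤ := by
  have h1 : eta (MM K) (MM_ne_bot K) ∈ (cmap K 1).opensRange := by
    rw [range_cmap]
    exact eta_mem _ _ _ (DD_nonempty K _)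
  obtain ⟨z, hz⟩ := h1
  have h2 : z ∈ cmap K 1 ⁻¹ᵁ U := by
    change (cmap K 1) z ∈ U
    rw [hz]
    exact eta_mem _ _ _ hU
  obtain ⟨_, ⟨_, ⟨g, rfl⟩, rfl⟩, hg, hgU⟩ :=
    PrimeSpectrum.isBasis_basic_opens.exists_subset_of_mem_open h2 (cmap K 1 ⁻¹ᵁ U).isOpen
  refine ⟨g, ?_, fun p hp => ?_⟩
  · rintro rfl
    simp at hg
  · rw [eq_top_iff]
    intro y _
    apply hgU
    change g ∉ ((Spec.map (CommRingCat.ofHom (MvPolynomial.eval p))) y).asIdeal
    intro h
    have h3 : MvPolynomial.eval p g ∈ y.asIdeal := h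
    exact y.2.ne_top (Ideal.eq_top_of_isUnit_mem _ h3 (IsUnit.mk0 _ hp))

theorem pt_injective : Function.Injective (pt K) := by
  intro p q h
  have h1 := (cancel_mono (cmap K 1)).1 h
  have h2 := Spec.map_injective h1
  funext i
  have h3 := ConcreteCategory.congr_hom h2 (MvPolynomial.X i : RR K)
  have h4 : MvPolynomial.eval p (MvPolynomial.X i) = MvPolynomial.eval q (MvPolynomial.X i) := h3
  simpa using h4

omit [CharP K 2] in
theorem image_subset_of {V : Scheme.{0}} (x : SpecF K ⟶ V) (U : V.Opens) (h : x ⁻¹ᵁ U = ⊤) :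
    image x ⊆ (U : Set V) := by
  rintro _ ⟨z, rfl⟩
  have h1 : z ∈ x ⁻¹ᵁ U := by
    rw [h]; trivial
  exact h1

theorem dense_points [Infinite K] : Dense (ratSet (fVV K)) := by
  rw [dense_iff_inter_open]
  intro U hU hne
  obtain ⟨g, hg, h⟩ := exists_basic K ⟨U, hU⟩ hne
  obtain ⟨p, hp⟩ : ∃ p, MvPolynomial.eval p g ≠ 0 := by
    by_contra! hcon
    exact hg (MvPolynomial.funext fun p => by rw [hcon, map_zero])
  have hz : Nonempty (Spec (.of K)) := inferInstance
  obtain ⟨z⟩ := hz
  have h1 : z ∈ pt K p ⁻¹ᵁ ⟨U, hU⟩ := by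
    rw [h p hp]; trivial
  refine ⟨pt K p z, h1, ?_⟩
  exact Set.mem_iUnion.2 ⟨⟨pt K p, pt_fVV K p, Set.subset_univ _⟩, ⟨z, rfl⟩⟩

/-- The curve of points in a fibre line. -/
def curve (s γ : K) (b : K) : Fin 3 → K := ![s + b * γ, b, γ ^ 2]

omit [CharP K 2] in
theorem curve_injective (s γ : K) : Function.Injective (curve K s γ) := by
  intro b b' h
  have := congrFun h 1
  simpa [curve] using this

theorem exists_curve [Infinite K] (U : (VV K).Opens) (hU : (U : Set (VV K)).Nonempty) :
    ∃ (s γ : K) (S : Finset K), ∀ b ∉ S, pt K (curve K s γ b) ⁻¹ᵁ U = ⊤ := by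
  obtain ⟨g, hg, h⟩ := exists_basic K U hU
  classical
  obtain ⟨p, hp⟩ : ∃ p, MvPolynomial.eval p g ≠ 0 := by
    by_contra! hcon
    exact hg (MvPolynomial.funext fun p => by rw [hcon, map_zero])
  obtain ⟨q, hq'⟩ : ∃ q : Fin 3 → K, MvPolynomial.eval ![q 0, q 1, q 2 ^ 2] g ≠ 0 := by
    let G2 : Polynomial K := MvPolynomial.aeval
      ![Polynomial.C (p 0), Polynomial.C (p 1), Polynomial.X] g
    have hG2 : ∀ b, G2.eval b = MvPolynomial.eval ![p 0, p 1, b] g := by
      intro b
      have h1 : (Polynomial.evalRingHom b).comp (MvPolynomial.aeval (R := K)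
        ![Polynomial.C (p 0), Polynomial.C (p 1), Polynomial.X]).toRingHom =
          MvPolynomial.eval ![p 0, p 1, b] := by
        apply MvPolynomial.ringHom_ext
        · intro r; simp
        · intro j
          simp only [AlgHom.toRingHom_eq_coe, RingHom.comp_apply, RingHom.coe_coe,
            MvPolynomial.aeval_X, MvPolynomial.eval_X]
          fin_cases j <;> simp
      exact DFunLike.congr_fun h1 g
    have hG20 : G2 ≠ 0 := by
      intro h0
      have h1 := hG2 (p 2)
      rw [h0, Polynomial.eval_zero] at h1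
      apply hp
      rw [h1]
      congr 2
      funext j
      fin_cases j <;> rfl
    have h3 : Polynomial.expand K 2 G2 ≠ 0 := (Polynomial.expand_ne_zero two_pos).2 hG20
    obtain ⟨γ, hγ⟩ : ∃ γ, (Polynomial.expand K 2 G2).eval γ ≠ 0 := by
      by_contra! hcon
      exact h3 (Polynomial.funext fun r => by rw [hcon, Polynomial.eval_zero])
    rw [Polynomial.expand_eval, hG2] at hγ
    exact ⟨![p 0, p 1, γ], hγ⟩
  have h2 : (2 : K) = 0 := by
    have := CharP.cast_eq_zero K 2
    exact_mod_cast this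
  let s : K := q 0 + q 1 * q 2
  -- the restriction of `g` to the line
  let G : Polynomial K := MvPolynomial.aeval
    ![Polynomial.C s + Polynomial.X * Polynomial.C (q 2), Polynomial.X, Polynomial.C (q 2 ^ 2)] g
  have hG : ∀ b, G.eval b = MvPolynomial.eval (curve K s (q 2) b) g := by
    intro b
    have h1 : (Polynomial.evalRingHom b).comp (MvPolynomial.aeval (R := K)
      ![Polynomial.C s + Polynomial.X * Polynomial.C (q 2), Polynomial.X,
        Polynomial.C (q 2 ^ 2)]).toRingHom = MvPolynomial.eval (curve K s (q 2) b) := by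
      apply MvPolynomial.ringHom_ext
      · intro r; simp
      · intro j
        simp only [AlgHom.toRingHom_eq_coe, RingHom.comp_apply, RingHom.coe_coe,
          MvPolynomial.aeval_X, MvPolynomial.eval_X, curve]
        fin_cases j
        · simp only [Fin.zero_eta, Fin.isValue, Matrix.cons_val_zero,
            Polynomial.coe_evalRingHom, Polynomial.eval_add, Polynomial.eval_C,
            Polynomial.eval_mul, Polynomial.eval_X]
        · simp
        · simp
    exact DFunLike.congr_fun h1 g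
  have hG0 : G ≠ 0 := by
    intro h0
    have h1 := hG (q 1)
    rw [h0, Polynomial.eval_zero] at h1
    apply hq'
    rw [h1]
    congr 2
    simp only [curve, s]
    congr 1
    linear_combination (-(q 1 * q 2)) * h2
  refine ⟨s, q 2, G.roots.toFinset, fun b hb => h _ ?_⟩
  rw [← hG]
  intro h0
  exact hb (by rw [Multiset.mem_toFinset, Polynomial.mem_roots hG0]; exact h0)

end Pool.Agent.MP7b039f
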