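import Mathlib

/-!
The graded algebra `⊕_d M^d τ^d ⊆ R[τ]` attached to a `K`-subspace `M` of a `K`-algebra `R`.
-/

open Polynomial DirectSum

noncomputable section

namespace Pool.Agent.MP7b039f

variable {K R : Type} [Field K] [CommRing R] [Algebra K R]

/-- The subalgebra of `R[τ]` of the polynomials whose coefficient of `τ^d` lies in `M^d`. -/
def reesSub (M : Submodule K R) : Subalgebra K R[X] where
  carrier := {f | ∀ d, f.coeff d ∈ M ^ d}
  mul_mem' := by
    intro f g hf hg d
    rw [coeff_mul]
    refine Submodule.sum_mem _ fun x hx => ?_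
    rw [← Finset.HasAntidiagonal.mem_antidiagonal.mp hx, pow_add]
    exact Submodule.mul_mem_mul (hf _) (hg _)
  add_mem' := by
    intro f g hf hg d
    rw [coeff_add]
    exact Submodule.add_mem _ (hf _) (hg _)
  algebraMap_mem' := by
    intro r d
    rw [Polynomial.algebraMap_apply, coeff_C]
    split_ifs with h
    · subst h
      rw [pow_zero]
      exact Submodule.algebraMap_mem r
    · exact Submodule.zero_mem _

theorem mem_reesSub {M : Submodule K R} {f : R[X]} :
    f ∈ reesSub M ↔ ∀ d, f.coeff d ∈ M ^ d := Iff.rfl

/-- The homogeneous component of degree `d`. -/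
def gr (M : Submodule K R) (d : ℕ) : Submodule K (reesSub M) where
  carrier := {f | ∀ e, e ≠ d → (f : R[X]).coeff e = 0}
  add_mem' := by
    intro f g hf hg e he
    simp [hf e he, hg e he]
  zero_mem' := by
    intro e _
    simp
  smul_mem' := by
    intro c f hf e he
    simp [hf e he]

theorem mem_gr {M : Submodule K R} {d : ℕ} {f : reesSub M} :
    f ∈ gr M d ↔ ∀ e, e ≠ d → (f : R[X]).coeff e = 0 := Iff.rfl

/-- The monomial `r τ^d` for `r ∈ M^d`. -/
def mono (M : Submodule K R) (d : ℕ) (r : R) (hr : r ∈ M ^ d) : reesSub M :=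
  ⟨monomial d r, fun e => by
    rw [coeff_monomial]
    split_ifs with h
    · subst h; exact hr
    · exact Submodule.zero_mem _⟩

@[simp] theorem coe_mono {M : Submodule K R} {d : ℕ} {r : R} (hr : r ∈ M ^ d) :
    ((mono M d r hr : reesSub M) : R[X]) = monomial d r := rfl

theorem mono_mem_gr {M : Submodule K R} {d : ℕ} {r : R} (hr : r ∈ M ^ d) :
    mono M d r hr ∈ gr M d := by
  intro e he
  rw [coe_mono, coeff_monomial, if_neg (Ne.symm he)]

theorem eq_mono_of_mem_gr {M : Submodule K R} {d : ℕ} {f : reesSub M} (hf : f ∈ gr M d) :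
    f = mono M d ((f : R[X]).coeff d) (f.2 d) := by
  apply Subtype.ext
  ext e
  rw [coe_mono, coeff_monomial]
  split_ifs with h
  · rw [h]
  · exact hf e (Ne.symm h)

/-- homogeneous part. -/
def hpart (M : Submodule K R) (d : ℕ) (f : reesSub M) : gr M d :=
  ⟨mono M d ((f : R[X]).coeff d) (f.2 d), mono_mem_gr _⟩

theorem coe_hpart {M : Submodule K R} (d : ℕ) (f : reesSub M) :
    ((hpart M d f : reesSub M) : R[X]) = monomial d ((f : R[X]).coeff d) := rfl

instance gr_gradedMonoid (M : Submodule K R) : SetLike.GradedMonoid (gr M) where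
  one_mem := by
    intro e he
    change (1 : R[X]).coeff e = 0
    rw [coeff_one, if_neg he]
  mul_mem := by
    intro i j f g hf hg e he
    change ((f : R[X]) * (g : R[X])).coeff e = 0
    rw [coeff_mul]
    refine Finset.sum_eq_zero fun x hx => ?_
    rw [Finset.HasAntidiagonal.mem_antidiagonal] at hx
    by_cases h1 : x.1 = i
    · have h2 : x.2 ≠ j := fun h2 => he (by rw [← hx, h1, h2])
      rw [hg _ h2, mul_zero]
    · rw [hf _ h1, zero_mul]

/-- the decomposition function. -/
def decompFun (M : Submodule K R) (f : reesSub M) : ⨁ d, gr M d :=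
  DFinsupp.mk (f : R[X]).support (fun d => hpart M d f)

theorem decompFun_apply (M : Submodule K R) (f : reesSub M) (d : ℕ) :
    decompFun M f d = hpart M d f := by
  have h0 : decompFun M f d =
      if H : d ∈ (f : R[X]).support then hpart M d f else 0 := DFinsupp.mk_apply
  rw [h0]
  split_ifs with h
  · rfl
  · apply Subtype.ext
    apply Subtype.ext
    rw [mem_support_iff, not_not] at h
    rw [coe_hpart, h]
    simp

/-- the decomposition map. -/
def decomp (M : Submodule K R) : reesSub M →+ ⨁ d, gr M d where
  toFun f := decompFun M f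
  map_zero' := by
    refine DFinsupp.ext fun d => ?_
    rw [decompFun_apply]
    apply Subtype.ext
    apply Subtype.ext
    rw [coe_hpart]
    simp
  map_add' f g := by
    refine DFinsupp.ext fun d => ?_
    rw [decompFun_apply, DFinsupp.add_apply]
    change _ = decompFun M f d + decompFun M g d
    rw [decompFun_apply, decompFun_apply]
    apply Subtype.ext
    apply Subtype.ext
    simp only [Submodule.coe_add, Subalgebra.coe_add, coe_hpart, coeff_add, map_add]

theorem decomp_apply (M : Submodule K R) (f : reesSub M) (d : ℕ) :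
    decomp M f d = hpart M d f := decompFun_apply M f d

theorem coeAddMonoidHom_coeff (M : Submodule K R) (x : ⨁ d, gr M d) (e : ℕ) :
    ((DirectSum.coeAddMonoidHom (gr M) x : reesSub M) : R[X]).coeff e
      = ((x e : reesSub M) : R[X]).coeff e := by
  induction x using DirectSum.induction_on with
  | zero => simp
  | of i x =>
    rw [DirectSum.coeAddMonoidHom_of]
    by_cases h : i = e
    · subst h
      rw [DirectSum.of_eq_same]
    · rw [DirectSum.of_eq_of_ne _ _ _ (Ne.symm h)]
      rw [x.2 e (Ne.symm h)]
      simp
  | add x y hx hy =>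
    rw [map_add, DirectSum.add_apply]
    simp only [Submodule.coe_add, Subalgebra.coe_add, coeff_add, hx, hy]

instance gr_decomposition (M : Submodule K R) : DirectSum.Decomposition (gr M) :=
  DirectSum.Decomposition.ofAddHom (gr M) (decomp M)
    (by
      refine AddMonoidHom.ext fun f => ?_
      simp only [AddMonoidHom.coe_comp, Function.comp_apply, AddMonoidHom.id_apply]
      apply Subtype.ext
      ext e
      rw [coeAddMonoidHom_coeff, decomp_apply, coe_hpart, coeff_monomial, if_pos rfl])
    (by
      refine AddMonoidHom.ext fun x => ?_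
      simp only [AddMonoidHom.coe_comp, Function.comp_apply, AddMonoidHom.id_apply]
      refine DFinsupp.ext fun d => ?_
      change decomp M _ d = _
      rw [decomp_apply]
      apply Subtype.ext
      rw [eq_mono_of_mem_gr (x d).2]
      apply Subtype.ext
      rw [coe_hpart, coe_mono, coeAddMonoidHom_coeff])

instance gr_gradedAlgebra (M : Submodule K R) : GradedAlgebra (gr M) where

end Pool.Agent.MP7b039f
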