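import Pool.Agent.MP7b039f.Concrete

open Polynomial DirectSum CategoryTheory AlgebraicGeometry TopologicalSpace Opposite

noncomputable section

namespace Pool.Agent.MP7b039f



variable (K : Type) [Field K]

/-- `x_i y_j y_k τ`. -/
def XX (i : Idx) : reesSub (MM K) :=
  mono (MM K) 1 (mm K i) (by rw [pow_one]; exact mm_mem K i)

theorem XX_mem (i : Idx) : XX K i ∈ gr (MM K) 1 := mono_mem_gr _

theorem ev1_XX (i : Idx) : ev1 (MM K) (XX K i) = mm K i := ev1_mono _

theorem XX_ne_zero (i : Idx) : XX K i ≠ 0 := mono_ne_zero _ _ (mm_ne_zero K i)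

/-- The variety. -/
abbrev VV : Scheme.{0} := PV (MM K)

/-- sections over `D₊(s)` in the function field. -/
def SG {d : ℕ} (hd : 0 < d) {s : reesSub (MM K)} (hs : s ∈ gr (MM K) d) (hs0 : s ≠ 0) :
    Subalgebra K (LL K) :=
  { (G (MM K) (LL K) (MM_ne_bot K) (Proj.basicOpen (gr (MM K)) s)
      (basicOpen_nonempty _ (MM_ne_bot K) hs0)).range with
    algebraMap_mem' := by
      intro c
      change algebraMap K (LL K) c ∈ (G (MM K) (LL K) (MM_ne_bot K) (Proj.basicOpen (gr (MM K)) s)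
      (basicOpen_nonempty _ (MM_ne_bot K) hs0)).range
      rw [mem_range_G_iff' (MM K) (LL K) (MM_ne_bot K) hd hs hs0]
      refine ⟨0, algebraMap K (RR K) c, ?_, ?_⟩
      · rw [zero_mul, pow_zero]
        exact Submodule.algebraMap_mem c
      · rw [pow_zero, div_one, ← IsScalarTower.algebraMap_apply] }

theorem mem_SG {d : ℕ} (hd : 0 < d) {s : reesSub (MM K)} (hs : s ∈ gr (MM K) d) (hs0 : s ≠ 0)
    (x : LL K) :
    x ∈ SG K hd hs hs0 ↔ ∃ (n : ℕ) (r : RR K), r ∈ MM K ^ (n * d) ∧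
      x = algebraMap (RR K) (LL K) r / algebraMap (RR K) (LL K) (ev1 (MM K) s) ^ n :=
  mem_range_G_iff' (MM K) (LL K) (MM_ne_bot K) hd hs hs0 x

/-- the monomial `x_{σ 0} y_{σ 1}^2` in `L`. -/
def mL (σ : Equiv.Perm (Fin 3)) : LL K := xL K (σ 0) * yL K (σ 1) ^ 2

theorem mL_ne_zero (σ : Equiv.Perm (Fin 3)) : mL K σ ≠ 0 :=
  mul_ne_zero (xL_ne_zero K _) (pow_ne_zero _ (yL_ne_zero K _))

theorem algebraMap_mm (i : Idx) : algebraMap (RR K) (LL K) (mm K i) =
    xL K i.1 * yL K i.2.1 * yL K i.2.2 := by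
  simp [mm, xL, yL]

theorem mm_div_mem [CharP K 2] (σ : Equiv.Perm (Fin 3)) (i : Idx) :
    algebraMap (RR K) (LL K) (mm K i) / mL K σ ∈ (theta K σ).range := by
  have h : algebraMap (RR K) (LL K) (mm K i) / mL K σ =
      (xL K i.1 / xL K (σ 0)) * (yL K i.2.1 / yL K (σ 1)) * (yL K i.2.2 / yL K (σ 1)) := by
    have h0 := xL_ne_zero K (σ 0)
    have h1 := yL_ne_zero K (σ 1)
    rw [algebraMap_mm, mL]
    field_simp
  rw [h]
  exact mul_mem (mul_mem (x_div_mem K σ _) (y_div_mem K σ _)) (y_div_mem K σ _)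

theorem MM_div_mem [CharP K 2] (σ : Equiv.Perm (Fin 3)) (r : RR K) (hr : r ∈ MM K) :
    algebraMap (RR K) (LL K) r / mL K σ ∈ (theta K σ).range := by
  induction hr using Submodule.span_induction with
  | mem x hx =>
    obtain ⟨i, rfl⟩ := hx
    exact mm_div_mem K σ i
  | zero => simp
  | add x y _ _ hx hy =>
    rw [map_add, add_div]
    exact add_mem hx hy
  | smul c x _ hx =>
    rw [Algebra.smul_def, map_mul, ← IsScalarTower.algebraMap_apply, mul_div_assoc,
      ← Algebra.smul_def]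
    exact Subalgebra.smul_mem _ hx c

theorem MM_pow_div_mem [CharP K 2] (σ : Equiv.Perm (Fin 3)) (n : ℕ) (r : RR K)
    (hr : r ∈ MM K ^ n) :
    algebraMap (RR K) (LL K) r / mL K σ ^ n ∈ (theta K σ).range := by
  induction n generalizing r with
  | zero =>
    rw [pow_zero, Submodule.mem_one] at hr
    obtain ⟨c, rfl⟩ := hr
    rw [pow_zero, div_one, ← IsScalarTower.algebraMap_apply]
    exact Subalgebra.algebraMap_mem _ _
  | succ n ih =>
    rw [pow_succ] at hr
    induction hr using Submodule.mul_induction_on' with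
    | mem_mul_mem p hp q hq =>
      have h : algebraMap (RR K) (LL K) (p * q) / mL K σ ^ (n + 1) =
        (algebraMap (RR K) (LL K) p / mL K σ ^ n) * (algebraMap (RR K) (LL K) q / mL K σ) := by
        rw [map_mul, pow_succ]
        have := mL_ne_zero K σ
        field_simp
      rw [h]
      exact mul_mem (ih p hp) (MM_div_mem K σ q hq)
    | add p _ q _ hp hq =>
      rw [map_add, add_div]
      exact add_mem hp hq

end Pool.Agent.MP7b039f
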