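import Pool.Agent.MP7b039f.Mono

open Polynomial DirectSum CategoryTheory AlgebraicGeometry TopologicalSpace Opposite

noncomputable section

namespace Pool.Agent.MP7b039f

variable (K : Type) [Field K]

/-- the exponents allowed after inverting the monomial of exponent `e`. -/
def coneOf (e : ℤ × ℤ × ℤ) : Set (ℤ × ℤ × ℤ) :=
  {p | ∃ n : ℕ, 0 ≤ p.1 + n * e.1 ∧ 0 ≤ p.2.1 + n * e.2.1 ∧ 0 ≤ p.2.2 + n * e.2.2}

theorem mu_nsmul (σ : Equiv.Perm (Fin 3)) (e : ℤ × ℤ × ℤ) (n : ℕ) :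
    mu K σ (n * e.1, n * e.2.1, n * e.2.2) = mu K σ e ^ n := by
  simp only [mu, mul_pow]
  rw [mul_comm (n : ℤ), mul_comm (n : ℤ), mul_comm (n : ℤ), zpow_mul, zpow_mul, zpow_mul]
  simp

theorem SG_le_Lam [CharP K 2] (σ : Equiv.Perm (Fin 3)) {d : ℕ} (hd : 0 < d)
    {s : reesSub (MM K)} (hs : s ∈ gr (MM K) d) (hs0 : s ≠ 0) (e : ℤ × ℤ × ℤ)
    (he : algebraMap (RR K) (LL K) (ev1 (MM K) s) = mL K σ ^ d * mu K σ e) :
    Subalgebra.toSubmodule (SG K hd hs hs0) ≤ Lam K σ (coneOf e) := by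
  intro x hx
  rw [Subalgebra.mem_toSubmodule, mem_SG] at hx
  obtain ⟨n, r, hr, rfl⟩ := hx
  have h1 : algebraMap (RR K) (LL K) r / algebraMap (RR K) (LL K) (ev1 (MM K) s) ^ n =
      (algebraMap (RR K) (LL K) r / mL K σ ^ (n * d)) *
        mu K σ (-(n * e.1), -(n * e.2.1), -(n * e.2.2)) := by
    have h2 : mu K σ (-(n * e.1), -(n * e.2.1), -(n * e.2.2)) * mu K σ e ^ n = 1 := by
      rw [← mu_nsmul, ← mu_add]
      simp [mu]
    have h3 := mL_ne_zero K σ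
    have h4 := mu_ne_zero K σ e
    rw [he, mul_pow, ← pow_mul, mul_comm d n, div_eq_iff (by positivity)]
    field_simp
    rw [mul_assoc, h2, mul_one]
  rw [h1]
  obtain ⟨g, hg⟩ := MM_pow_div_mem K σ (n * d) r hr
  rw [← hg]
  refine Lam_mul_mem K σ (T := {(-(n * e.1), -(n * e.2.1), -(n * e.2.2))}) ?_
    (theta_mem_Lam K σ g) (mu_mem_Lam K σ rfl)
  rintro p ⟨hp1, hp2, hp3⟩ q hq
  rw [Set.mem_singleton_iff] at hq
  subst hq
  refine ⟨n, ?_, ?_, ?_⟩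
  · simp only [Prod.fst_add]; linarith
  · simp only [Prod.snd_add, Prod.fst_add]; linarith
  · simp only [Prod.snd_add]; linarith

theorem algebraMap_mmσ (σ : Equiv.Perm (Fin 3)) :
    algebraMap (RR K) (LL K) (mm K (σ 0, σ 1, σ 1)) = mL K σ := by
  rw [algebraMap_mm, mL]; ring

/-- If `D₊(s)` lies in the chart `σ`, all the quotients `x_i y_j y_k / x_{σ0} y_{σ1}^2` are
sections. -/
theorem mm_div_mem_SG (σ : Equiv.Perm (Fin 3)) {d : ℕ}
    {s' : reesSub (MM K)} (hs' : s' ∈ gr (MM K) d)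
    (hs : XX K (σ 0, σ 1, σ 1) * s' ∈ gr (MM K) (d + 1)) (hs0 : XX K (σ 0, σ 1, σ 1) * s' ≠ 0)
    (i : Idx) :
    algebraMap (RR K) (LL K) (mm K i) / mL K σ ∈ SG K (Nat.succ_pos d) hs hs0 := by
  rw [mem_SG]
  refine ⟨1, mm K i * ev1 (MM K) s', ?_, ?_⟩
  · rw [one_mul, pow_succ, mul_comm (mm K i)]
    refine Submodule.mul_mem_mul ?_ (mm_mem K i)
    rw [ev1_of_mem hs']
    exact s'.2 d
  · have h0 : ev1 (MM K) s' ≠ 0 := by
      intro h
      apply hs0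
      rw [eq_zero_of_ev1 hs' h, mul_zero]
    have h1 : algebraMap (RR K) (LL K) (ev1 (MM K) s') ≠ 0 := by
      rwa [Ne, IsFractionRing.to_map_eq_zero_iff]
    have h2 := mL_ne_zero K σ
    rw [map_mul (ev1 (MM K)), ev1_XX, map_mul, map_mul, algebraMap_mmσ, pow_one,
      mul_div_mul_right _ _ h1]

theorem theta_range_le_SG (σ : Equiv.Perm (Fin 3)) {d : ℕ}
    {s' : reesSub (MM K)} (hs' : s' ∈ gr (MM K) d)
    (hs : XX K (σ 0, σ 1, σ 1) * s' ∈ gr (MM K) (d + 1)) (hs0 : XX K (σ 0, σ 1, σ 1) * s' ≠ 0) :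
    (theta K σ).range ≤ SG K (Nat.succ_pos d) hs hs0 := by
  have h := mm_div_mem_SG K σ hs' hs hs0
  have hx := xL_ne_zero K
  have hy := yL_ne_zero K
  rw [theta, ← Algebra.adjoin_range_eq_range_aeval, Algebra.adjoin_le_iff]
  rintro _ ⟨i, rfl⟩
  rw [SetLike.mem_coe]
  fin_cases i
  · convert h (σ 1, σ 1, σ 1) using 1
    rw [algebraMap_mm, mL]
    simp only [cc, Fin.zero_eta, Matrix.cons_val_zero]
    have h1 := hx (σ 0); have h2 := hy (σ 1)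
    field_simp
  · convert h (σ 2, σ 1, σ 1) using 1
    rw [algebraMap_mm, mL]
    simp only [cc, Fin.mk_one, Matrix.cons_val_one, Matrix.cons_val_zero]
    have h1 := hx (σ 0); have h2 := hy (σ 1)
    field_simp
  · convert h (σ 0, σ 1, σ 2) using 1
    rw [algebraMap_mm, mL]
    simp only [cc, Fin.reduceFinMk, Matrix.cons_val]
    have h1 := hx (σ 0); have h2 := hy (σ 1)
    field_simp

theorem Lam_le_SG (σ : Equiv.Perm (Fin 3)) {d : ℕ}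
    {s' : reesSub (MM K)} (hs' : s' ∈ gr (MM K) d)
    (hs : XX K (σ 0, σ 1, σ 1) * s' ∈ gr (MM K) (d + 1)) (hs0 : XX K (σ 0, σ 1, σ 1) * s' ≠ 0)
    (e : ℤ × ℤ × ℤ)
    (he : algebraMap (RR K) (LL K) (ev1 (MM K) (XX K (σ 0, σ 1, σ 1) * s')) =
      mL K σ ^ (d + 1) * mu K σ e) :
    Lam K σ (coneOf e) ≤ Subalgebra.toSubmodule (SG K (Nat.succ_pos d) hs hs0) := by
  rw [Lam, Submodule.span_le]
  rintro _ ⟨p, ⟨n, h1, h2, h3⟩, rfl⟩
  rw [SetLike.mem_coe, Subalgebra.mem_toSubmodule]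
  have h4 : mu K σ p = mu K σ (p + (n * e.1, n * e.2.1, n * e.2.2)) *
      ((mu K σ e)⁻¹) ^ n := by
    rw [mu_add, mu_nsmul, mul_assoc, ← mul_pow, mul_inv_cancel₀ (mu_ne_zero K σ e), one_pow,
      mul_one]
  rw [h4]
  have h5 : (mu K σ e)⁻¹ ∈ SG K (Nat.succ_pos d) hs hs0 := by
    rw [mem_SG]
    refine ⟨1, mm K (σ 0, σ 1, σ 1) ^ (d + 1), ?_, ?_⟩
    · rw [one_mul]
      exact Submodule.pow_mem_pow _ (mm_mem K _) _
    · rw [map_pow, algebraMap_mmσ, he, pow_one]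
      have h6 := mL_ne_zero K σ
      have h7 := mu_ne_zero K σ e
      field_simp
  refine mul_mem (theta_range_le_SG K σ hs' hs hs0 ?_) (pow_mem h5 n)
  rw [mu_eq_theta K σ _ (by simpa using h1) (by simpa using h2) (by simpa using h3)]
  exact ⟨_, rfl⟩

theorem SG_eq_Lam [CharP K 2] (σ : Equiv.Perm (Fin 3)) {d : ℕ}
    {s' : reesSub (MM K)} (hs' : s' ∈ gr (MM K) d)
    (hs : XX K (σ 0, σ 1, σ 1) * s' ∈ gr (MM K) (d + 1)) (hs0 : XX K (σ 0, σ 1, σ 1) * s' ≠ 0)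
    (e : ℤ × ℤ × ℤ)
    (he : algebraMap (RR K) (LL K) (ev1 (MM K) (XX K (σ 0, σ 1, σ 1) * s')) =
      mL K σ ^ (d + 1) * mu K σ e) :
    Subalgebra.toSubmodule (SG K (Nat.succ_pos d) hs hs0) = Lam K σ (coneOf e) :=
  le_antisymm (SG_le_Lam K σ _ _ _ e he) (Lam_le_SG K σ hs' hs hs0 e he)

end Pool.Agent.MP7b039f
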