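import Pool.Agent.MP7b039f.Defs

open CategoryTheory AlgebraicGeometry TopologicalSpace Opposite

noncomputable section

namespace Pool.Agent.MP7b039f

variable {K : Type} [Field K] {V : Scheme.{0}} (f : V ⟶ SpecF K)

theorem algebraMap_Sec (U : V.Opens) (r : K) : algebraMap K (Sec f U) r =
    ((Scheme.ΓSpecIso (.of K)).inv ≫ f.appLE ⊤ U le_top).hom r := rfl

/-- Restriction of sections as a homomorphism of algebras. -/
def Sec.res {U U' : V.Opens} (h : U' ≤ U) : Sec f U →ₐ[K] Sec f U' where
  toRingHom := (V.presheaf.map (homOfLE h).op).hom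
  commutes' r := by
    change (V.presheaf.map (homOfLE h).op).hom (((Scheme.ΓSpecIso (.of K)).inv ≫
      f.appLE ⊤ U le_top).hom r) = ((Scheme.ΓSpecIso (.of K)).inv ≫ f.appLE ⊤ U' le_top).hom r
    rw [← CommRingCat.comp_apply, Category.assoc, Scheme.Hom.appLE_map]

theorem restr_eq_res {U U' : V.Opens} (h : U' ≤ U) (s : Sec f U) :
    restr f U U' h s = Sec.res f h s := rfl

theorem resL_one (U U' : V.Opens) : resL f U U' 1 = 1 :=
  map_one (Sec.res f (inf_le_left : U ⊓ U' ≤ U))

theorem resR_one (U U' : V.Opens) : resR f U U' 1 = 1 :=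
  map_one (Sec.res f (inf_le_right : U ⊓ U' ≤ U'))

end Pool.Agent.MP7b039f
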