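import Pool.Agent.MP7b039f.HomToL

open Polynomial DirectSum CategoryTheory AlgebraicGeometry TopologicalSpace Opposite

noncomputable section

namespace Pool.Agent.MP7b039f

variable {K R : Type} [Field K] [CommRing R] [IsDomain R] [Algebra K R]
variable (M : Submodule K R)

/-- The projective variety. -/
abbrev PV : Scheme.{0} := Proj (gr M)

/-- The generic point of `Proj (gr M)`. -/
def eta (hM : M ≠ ⊥) : PV M where
  asHomogeneousIdeal := ⊥
  isPrime := by
    rw [HomogeneousIdeal.toIdeal_bot]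
    exact Ideal.isPrime_bot
  not_irrelevant_le := by
    intro h
    obtain ⟨m, hm, hm0⟩ := Submodule.exists_mem_ne_zero_of_ne_bot hM
    have h1 : mono M 1 m (by rwa [pow_one]) ∈ HomogeneousIdeal.irrelevant (gr M) := by
      rw [HomogeneousIdeal.mem_irrelevant_iff]
      rw [GradedRing.proj_apply]
      exact DirectSum.decompose_of_mem_ne _ (mono_mem_gr _) one_ne_zero
    have h2 := h h1
    rw [← HomogeneousIdeal.mem_iff, HomogeneousIdeal.toIdeal_bot, Ideal.mem_bot] at h2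
    have h3 := ev1_mono (M := M) (d := 1) (r := m) (by rwa [pow_one])
    rw [h2, map_zero] at h3
    exact hm0 h3.symm

theorem eta_mem (hM : M ≠ ⊥) (U : (PV M).Opens) (hU : (U : Set (PV M)).Nonempty) :
    eta M hM ∈ U := by
  obtain ⟨x, hx⟩ := hU
  have hb := Proj.isBasis_basicOpen (gr M)
  rw [Opens.isBasis_iff_nbhd] at hb
  obtain ⟨W, ⟨f, rfl⟩, hxf, hfU⟩ := hb hx
  apply hfU
  rw [Proj.mem_basicOpen] at hxf ⊢
  intro h
  apply hxf
  change f ∈ (⊥ : HomogeneousIdeal (gr M)) at h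
  rw [← HomogeneousIdeal.mem_iff, HomogeneousIdeal.toIdeal_bot, Ideal.mem_bot] at h
  rw [h]
  exact zero_mem _

theorem zero_notMem_eta (hM : M ≠ ⊥) :
    (0 : reesSub M) ∉ (eta M hM).asHomogeneousIdeal.toIdeal.primeCompl := by
  intro h
  exact h (Ideal.zero_mem _)

variable (L : Type) [Field L] [Algebra R L] [IsFractionRing R L]

/-- evaluation of sections at the generic point, with values in `L`. -/
def G (hM : M ≠ ⊥) (U : (PV M).Opens) (hU : (U : Set (PV M)).Nonempty) :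
    Γ(PV M, U) →+* L :=
  (homToL M L _ (zero_notMem_eta M hM)).comp
    (openToLocalization (gr M) U (eta M hM) (eta_mem M hM U hU)).hom

theorem G_apply (hM : M ≠ ⊥) (U : (PV M).Opens) (hU : (U : Set (PV M)).Nonempty)
    (s : Γ(PV M, U)) :
    G M L hM U hU s = homToL M L _ (zero_notMem_eta M hM) (s.1 ⟨eta M hM, eta_mem M hM U hU⟩) := rfl

theorem G_res (hM : M ≠ ⊥) {U U' : (PV M).Opens} (h : U' ≤ U) (hU' : (U' : Set (PV M)).Nonempty)
    (s : Γ(PV M, U)) :
    G M L hM U' hU' ((PV M).presheaf.map (homOfLE h).op s) = G M L hM U (hU'.mono h) s := rfl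

theorem G_awayToSection (hM : M ≠ ⊥) (f : reesSub M)
    (hU : (Proj.basicOpen (gr M) f : Set (PV M)).Nonempty) (hf : (0 : reesSub M) ∉ Submonoid.powers f)
    (z : HomogeneousLocalization.Away (gr M) f) :
    G M L hM (Proj.basicOpen (gr M) f) hU (Proj.awayToSection (gr M) f z) =
      homToL M L _ hf z := by
  rw [G_apply]
  change homToL M L _ (zero_notMem_eta M hM) (HomogeneousLocalization.mapId (gr M) _ z) = _
  rw [homToL_mapId]

theorem G_injective (hM : M ≠ ⊥) (U : (PV M).Opens) (hU : (U : Set (PV M)).Nonempty) :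
    Function.Injective (G M L hM U hU) := by
  rw [injective_iff_map_eq_zero]
  intro s hs
  rw [G_apply] at hs
  apply Subtype.ext
  funext x
  obtain ⟨W, hxW, i, d, r, t, ht, hw⟩ := s.2 x
  have hη : eta M hM ∈ W := eta_mem M hM W ⟨x.1, hxW⟩
  have h1 : s.1 ⟨eta M hM, eta_mem M hM U hU⟩ = HomogeneousLocalization.mk ⟨d, r, t, ht ⟨_, hη⟩⟩ :=
    hw ⟨_, hη⟩
  rw [h1, homToL_mk] at hs
  have h2 : algebraMap R L (ev1 M t) ≠ 0 := by
    rw [Ne, IsFractionRing.to_map_eq_zero_iff]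
    intro h
    have h3 := ht ⟨_, hη⟩
    apply h3
    rw [eq_zero_of_ev1 t.2 h]
    exact zero_mem _
  rw [div_eq_zero_iff, or_iff_left h2, IsFractionRing.to_map_eq_zero_iff] at hs
  have h4 : r = 0 := Subtype.ext (eq_zero_of_ev1 r.2 hs)
  have h5 : s.1 x = HomogeneousLocalization.mk ⟨d, r, t, ht ⟨x.1, hxW⟩⟩ := hw ⟨x.1, hxW⟩
  rw [h5]
  exact HomogeneousLocalization.mk_eq_zero_of_num _ h4

theorem exists_glue (hM : M ≠ ⊥) (U U' : (PV M).Opens) (hU : (U : Set (PV M)).Nonempty)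
    (hU' : (U' : Set (PV M)).Nonempty) (s : Γ(PV M, U)) (s' : Γ(PV M, U'))
    (h : G M L hM U hU s = G M L hM U' hU' s') :
    ∃ t : Γ(PV M, U ⊔ U'), G M L hM (U ⊔ U') (hU.mono (le_sup_left : U ≤ U ⊔ U')) t
      = G M L hM U hU s := by
  have hUU' : ((U ⊓ U' : (PV M).Opens) : Set (PV M)).Nonempty :=
    ⟨eta M hM, eta_mem M hM U hU, eta_mem M hM U' hU'⟩
  have h1 : (PV M).presheaf.map (homOfLE (inf_le_left : U ⊓ U' ≤ U)).op s =
      (PV M).presheaf.map (homOfLE (inf_le_right : U ⊓ U' ≤ U')).op s' := by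
    apply G_injective M L hM _ hUU'
    rw [G_res, G_res, h]
  refine ⟨((PV M).sheaf.objSupIsoProdEqLocus U U').inv ⟨(s, s'), h1⟩, ?_⟩
  have h2 := (PV M).sheaf.objSupIsoProdEqLocus_inv_fst U U' ⟨(s, s'), h1⟩
  exact (congrArg (G M L hM U hU) h2)

end Pool.Agent.MP7b039f
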