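import Pool.Agent.MP7b039f.Cover

open CategoryTheory AlgebraicGeometry

noncomputable section

namespace Pool.Agent.MP7b039f

/-- The polynomial ring is submersively presented with no relations. -/
def mvPres (R : Type) [CommRing R] :
    Algebra.SubmersivePresentation R (MvPolynomial (Fin 3) R) (Fin 3) PEmpty.{1} where
  toGenerators := Algebra.Generators.mvPolynomial R (Fin 3)
  relation := PEmpty.elim
  span_range_relation_eq_ker := by
    have h : (Algebra.Generators.mvPolynomial R (Fin 3)).ker = ⊥ := by
      rw [Algebra.Generators.ker_eq_ker_aeval_val, eq_bot_iff]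
      intro x hx
      rw [RingHom.mem_ker] at hx
      simpa using hx
    rw [h, Ideal.span_eq_bot]
    rintro _ ⟨x, _⟩
    exact x.elim
  map := PEmpty.elim
  map_inj := fun x => x.elim
  jacobian_isUnit := by
    rw [Algebra.PreSubmersivePresentation.jacobian]
    have : Subsingleton (PEmpty.{1} → MvPolynomial (Fin 3) R) := inferInstance
    rw [LinearMap.det_eq_one_of_subsingleton, map_one]
    exact isUnit_one

instance mvSmooth (R : Type) [CommRing R] :
    Algebra.IsStandardSmoothOfRelativeDimension 3 R (MvPolynomial (Fin 3) R) :=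
  (mvPres R).isStandardSmoothOfRelativeDimension (by
    simp [Algebra.Presentation.dimension])

theorem smooth_fVV (K : Type) [Field K] [CharP K 2] : SmoothOfRelativeDimension 3 (fVV K) where
  exists_isStandardSmoothOfRelativeDimension x := by
    obtain ⟨σ, hσ⟩ := exists_chart K x
    refine ⟨⊤, isAffineOpen_top _, DD K (σ 0, σ 1, σ 1),
      Proj.isAffineOpen_basicOpen (gr (MM K)) (XX K _) (XX_mem K _) one_pos, hσ, le_top, ?_⟩
    have h1 : Algebra.IsStandardSmoothOfRelativeDimension 3 K
        (Sec (fVV K) (DD K (σ 0, σ 1, σ 1))) :=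
      Algebra.IsStandardSmoothOfRelativeDimension.of_algEquiv (n := 3) (EE K σ)
    have h2 : (algebraMap K (Sec (fVV K) (DD K (σ 0, σ 1, σ 1)))).IsStandardSmoothOfRelativeDimension
      3 := (RingHom.isStandardSmoothOfRelativeDimension_algebraMap (n := 3)).2 h1
    have h3 : ((fVV K).appLE ⊤ (DD K (σ 0, σ 1, σ 1)) le_top).hom =
      (algebraMap K (Sec (fVV K) (DD K (σ 0, σ 1, σ 1)))).comp
        (Scheme.ΓSpecIso (.of K)).hom.hom := by
      change _ = ((Scheme.ΓSpecIso (.of K)).hom ≫ ((Scheme.ΓSpecIso (.of K)).inv ≫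
        (fVV K).appLE ⊤ (DD K (σ 0, σ 1, σ 1)) le_top)).hom
      rw [Iso.hom_inv_id_assoc]
    rw [h3]
    exact (RingHom.isStandardSmoothOfRelativeDimension_respectsIso.{0} (n := 3)).2 _
      (Scheme.ΓSpecIso (.of K)).commRingCatIsoToRingEquiv h2

end Pool.Agent.MP7b039f
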