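import Pool.Agent.MP7b039f.SecJ
import Pool.Agent.MP7b039f.SecRes

open Polynomial DirectSum CategoryTheory AlgebraicGeometry TopologicalSpace Opposite

noncomputable section

namespace Pool.Agent.MP7b039f

section general
variable {K R : Type} [Field K] [CommRing R] [IsDomain R] [Algebra K R]
variable (M : Submodule K R)

/-- The structure morphism of `Proj (gr M)`. -/
def fV : PV M ⟶ Spec (.of K) :=
  Proj.toSpecZero (gr M) ≫ Spec.map (CommRingCat.ofHom (algebraMap K (gr M 0)))

theorem ι_fV {s : reesSub M} {d : ℕ} (hs : s ∈ gr M d) (hd : 0 < d) :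
    (Proj.basicOpen (gr M) s).ι ≫ fV M = Proj.basicOpenToSpec (gr M) s ≫
      Spec.map (CommRingCat.ofHom ((HomogeneousLocalization.fromZeroRingHom (gr M) _).comp
        (algebraMap K (gr M 0)))) := by
  have h1 := Proj.awayι_toSpecZero (gr M) s hs hd
  rw [Proj.awayι, Category.assoc, Iso.inv_comp_eq, Proj.basicOpenIsoSpec_hom] at h1
  rw [fV, reassoc_of% h1, ← Spec.map_comp]
  rfl

theorem fV_appLE {s : reesSub M} {d : ℕ} (hs : s ∈ gr M d) (hd : 0 < d) :
    ((Scheme.ΓSpecIso (.of K)).inv ≫ (fV M).appLE ⊤ (Proj.basicOpen (gr M) s) le_top) =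
      CommRingCat.ofHom ((HomogeneousLocalization.fromZeroRingHom (gr M) _).comp
        (algebraMap K (gr M 0))) ≫ Proj.awayToSection (gr M) s := by
  have h1 := ι_fV M hs hd
  have h2 := congrArg (fun g => Scheme.Hom.appTop g) h1
  simp only [Scheme.Hom.comp_appTop] at h2
  have h3 : (fV M).appLE ⊤ (Proj.basicOpen (gr M) s) le_top =
      (fV M).appTop ≫ (Proj.basicOpen (gr M) s).ι.appTop ≫ (Proj.basicOpen (gr M) s).topIso.hom := by
    rw [Scheme.Opens.ι_appTop, Scheme.Opens.topIso_hom]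
    erw [← Functor.map_comp]
    rfl
  rw [h3, reassoc_of% h2]
  have h4 := Proj.basicOpenToSpec_app_top (gr M) s
  rw [Scheme.Hom.appTop, Scheme.Hom.appTop, h4]
  simp only [Category.assoc, Iso.inv_hom_id, Category.comp_id]
  rw [← Category.assoc, ← Category.assoc]
  congr 1
  rw [← Iso.eq_comp_inv]
  exact (Scheme.ΓSpecIso_inv_naturality _).symm

variable (L : Type) [Field L] [Algebra R L] [IsFractionRing R L] [Algebra K L]
  [IsScalarTower K R L]

theorem G_algebraMap (hM : M ≠ ⊥) (U : (PV M).Opens) (hU : (U : Set (PV M)).Nonempty) (c : K) :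
    G M L hM U hU (algebraMap K (Sec (fV M) U) c) = algebraMap K L c := by
  obtain ⟨m, hm, hm0⟩ := Submodule.exists_mem_ne_zero_of_ne_bot hM
  have hm1 : m ∈ M ^ 1 := by rwa [pow_one]
  have hs := mono_mem_gr (M := M) hm1
  have hs0 := mono_ne_zero M hm1 hm0
  set s := mono M 1 m hm1 with hsdef
  have hW := basicOpen_nonempty M hM hs0
  have hUW : ((U ⊓ Proj.basicOpen (gr M) s : (PV M).Opens) : Set (PV M)).Nonempty :=
    ⟨eta M hM, eta_mem M hM _ hU, eta_mem M hM _ hW⟩
  have h1 : G M L hM U hU (algebraMap K (Sec (fV M) U) c) =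
      G M L hM _ hUW (algebraMap K (Sec (fV M) (U ⊓ Proj.basicOpen (gr M) s)) c) := by
    rw [← G_res M L hM (inf_le_left : U ⊓ Proj.basicOpen (gr M) s ≤ U) hUW]
    congr 1
  have h2 : G M L hM _ hW (algebraMap K (Sec (fV M) (Proj.basicOpen (gr M) s)) c) =
      G M L hM _ hUW (algebraMap K (Sec (fV M) (U ⊓ Proj.basicOpen (gr M) s)) c) := by
    rw [← G_res M L hM (inf_le_right : U ⊓ Proj.basicOpen (gr M) s ≤ _) hUW]
    congr 1
  rw [h1, ← h2]
  have h3 := ConcreteCategory.congr_hom (fV_appLE M hs one_pos) c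
  have h4 : algebraMap K (Sec (fV M) (Proj.basicOpen (gr M) s)) c =
    Proj.awayToSection (gr M) s (HomogeneousLocalization.fromZeroRingHom (gr M) _
        (algebraMap K (gr M 0) c)) := h3
  rw [h4, G_awayToSection M L hM _ _ (zero_notMem_powers hs0)]
  change homToL M L _ _ (HomogeneousLocalization.mk _) = _
  rw [homToL_mk]
  change algebraMap R L (ev1 M (algebraMap K (reesSub M) c)) / algebraMap R L (ev1 M 1) = _
  rw [map_one, map_one, div_one]
  rw [ev1_apply]
  have h5 : ((algebraMap K (reesSub M) c : reesSub M) : R[X]) = C (algebraMap K R c) := rfl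
  rw [h5, eval_C, ← IsScalarTower.algebraMap_apply]
end general

end Pool.Agent.MP7b039f
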